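import Pool.Agent.MP_2a5a28_nt.H70.Inst

/-! Definitions for the subexponential bound `log H ≪ rad^ε`. -/

set_option autoImplicit false

namespace Pool.Agent.MP_2a5a28_nt.H63

open Finset

/-- Real weight of an exponent vector. -/
def wt {n : ℕ} (ω : Fin n → ℝ) (d : Fin n →₀ ℕ) : ℝ := ∑ j, (d j : ℝ) * ω j

/-- All monomials of `P` have weight at least `a`. -/
def Lo {n : ℕ} {R : Type*} [CommRing R] (ω : Fin n → ℝ) (a : ℝ) (P : MvPolynomial (Fin n) R) :
    Prop := ∀ d ∈ P.support, a ≤ wt ω d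

/-- The same for a polynomial in one more variable, of weight `ω0`. -/
def LoP {n : ℕ} {R : Type*} [CommRing R] (ω : Fin n → ℝ) (ω0 a : ℝ)
    (f : Polynomial (MvPolynomial (Fin n) R)) : Prop := ∀ i : ℕ, Lo ω (a - i * ω0) (f.coeff i)

/-- Sum of the absolute values of the coefficients. -/
noncomputable def nm {n : ℕ} (P : MvPolynomial (Fin n) ℤ) : ℝ :=
  ∑ d ∈ P.support, |((P.coeff d : ℤ) : ℝ)|

/-- Expansion at the point `pt`. -/
noncomputable def tr {n : ℕ} {K : Type*} [CommRing K] (pt : Fin n → K) :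
    MvPolynomial (Fin n) ℤ →+* MvPolynomial (Fin n) K :=
  MvPolynomial.eval₂Hom (Int.castRingHom _) fun j => MvPolynomial.X j + MvPolynomial.C (pt j)

/-- The weights `(1, …, 1, m)`. -/
def ow (k m : ℕ) : Fin (k + 1) → ℝ := fun j => if j = Fin.last k then m else 1

/-- A combination of the operators `X^j ∂^[j]`. -/
noncomputable def gg {A : Type*} [CommRing A] (c : ℕ → ℕ) (ν : ℕ) (f : Polynomial A) :
    Polynomial A :=
  ∑ j ∈ range (ν + 1), Polynomial.C (c j : A) * (Polynomial.X ^ j * Polynomial.hasseDeriv j f)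

/-- The state of the elimination; the last variable is `W`. -/
structure St (k : ℕ) {K : Type*} [Field K] (pt : Fin (k + 1) → K) (ω : Fin (k + 1) → ℝ)
    (m lam μ : ℕ) (γ wd : ℝ) (P : MvPolynomial (Fin (k + 1)) ℤ) : Prop where
  ne : P ≠ 0
  deg : ∀ d ∈ P.support, ∀ j, j ≠ Fin.last k → d j ≤ lam
  slab : ∃ lo : ℝ, ∀ d ∈ P.support, lo ≤ wt ω d ∧ wt ω d ≤ lo + wd * lam
  nrm : nm P ≤ Real.exp (γ * lam)
  ord : Lo (ow k m) μ (tr pt P)

/-- No short integer vector has small weight. -/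
def Dis (k : ℕ) (ω : Fin (k + 1) → ℝ) (A wd : ℝ) : Prop :=
  ∀ t : Fin (k + 1) → ℤ, (∃ j, j ≠ Fin.last k ∧ t j ≠ 0) →
    (∀ j, j ≠ Fin.last k → |(t j : ℝ)| ≤ A) → A * wd < |∑ j, (t j : ℝ) * ω j|

/-- A nonzero integer polynomial vanishing at `ψ` to order `k ≥ 1`, leading coefficient
at most `exp (c k)`. -/
def Out {K : Type*} [Field K] (ψ : K) (c : ℝ) : Prop :=
  ∃ R : Polynomial ℤ, R ≠ 0 ∧ ∃ k : ℕ, 1 ≤ k ∧
    (Polynomial.X - Polynomial.C ψ) ^ k ∣ R.map (Int.castRingHom K) ∧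
    |((R.leadingCoeff : ℤ) : ℝ)| ≤ Real.exp (c * k)

/-- Lattice points of the simplex. -/
def Sx (e T : ℕ) : Finset (Fin e → ℕ) :=
  (Fintype.piFinset fun _ => range (T + 1)).filter fun t => ∑ j, t j ≤ T

/-- `q` is divisible by `π ^ r` in the local ring at `π`. -/
def Dv {O : Type*} [CommRing O] (K : Type*) [Field K] [Algebra O K] (π : O) (r : ℕ) (q : K) :
    Prop := ∃ a b : O, ¬π ∣ b ∧ q * algebraMap O K b = algebraMap O K (π ^ r * a)

end Pool.Agent.MP_2a5a28_nt.H63
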