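import Pool.Agent.MP_2a5a28_nt.H63.Zero

attribute [-instance] DistribMulActionSemiHomClass.toAddMonoidHomClass
  IdemSemiring.toCanonicallyOrderedAdd AddQuantale.instAddLeftMono Module.FaithfullyFlat.faithfulSMul
  RKHS.instFunLike covariant_swap_mul_of_covariant_mul SemilinearMapClass.toAddHomClass
  littleWedderburn CategoryTheory.GrpObj.toMonObj AlgHom.instNonUnitalAlgHomClassOfAlgHomClass
  instCoeHTCOfCoeHeadOfCoeOTC IsOrderedMonoid.toMulLeftMono instCharZeroOfIsSemireal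
  NumberField.to_charZero instCoeHTCTOfCoeTailOfCoeHTC AddQuantale.instAddRightMono
  IdemSemiring.toMulLeftMono Quantale.instMulLeftMono IdemSemiring.toSemiring
  MonTypeEquivalenceMon.monMonoid Quantale.instMulRightMono instCoeTCOfCoe
  Fintype.decidableForallFintype CompletePartialOrder.toPartialOrder
  CommMonTypeEquivalenceCommMon.commMonCommMonoid instCoeOutOfCoeFun NormedField.toField
  instCoeTOfCoeDep NormMulClass.toNoZeroDivisors BialgHomClass.toMonoidHomClass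
  ContinuousMonoidHom.instCoeOutOfMonoidHomClassOfContinuousMapClass
  Module.free_of_finite_type_torsion_free' Group.IsPerfect.subsingleton_of_isMulCommutative
  instNonUnitalAlgHomClassOfNonUnitalAlgEquivClass CanonicallyOrderedAdd.toMulLeftMono
  TestFunctionClass.toDFunLike ValuationRing.isLocalRing IsStrictOrderedRing.noZeroDivisors
  IsFormallyReal.instIsReduced SetLike.GradeZero.instSemiring SetLike.GradeZero.instCommSemiring
  NeZero.of_gt' ValuationClass.toMonoidWithZeroHomClass IdemCommSemiring.toCommSemiring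
  ContDiffMapSupportedInClass.toDFunLike AlgHomClass.toRingHomClass instIsFractionRing
  MvPolynomial.instCharZero MulCharClass.toMonoidHomClass IsometryClass.instCoeOutIsometryEquiv
  RingConeClass.toSubsemiringClass MulDistribMulActionSemiHomClass.toMonoidHomClass
  Module.Invertible.instFaithfulSMul
  ContinuousAddMonoidHom.instCoeOutOfAddMonoidHomClassOfContinuousMapClass bot_nonempty
  Module.IsReflexive.to_isTorsionFree NonUnitalAlgHomClass.toNonUnitalRingHomClass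
  HomeomorphClass.instCoeOutHomeomorph instIsPrincipalIdealRingOfIsSemisimpleRing
  Array.instDecidableForallForallMemOfDecidablePred Nontrivial.to_nonempty
  CanonicallyOrderedMul.toMulLeftMono BooleanRing.toRing Invertible.toNeZero
  Module.Free.instFaithfulSMulOfNontrivial Zero.instNonempty DivisionRing.toDivisionSemiring
  CompleteSemilatticeInf.toPartialOrder GroupConeClass.toSubmonoidClass
  NormedDivisionRing.toDivisionRing GeneralizedCoheytingAlgebra.toLattice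
  LinearOrderedCommMonoidWithZero.toCommMonoidWithZero IsDedekindDomain.isPrincipalIdealRing
  NonUnitalAlgSemiHomClass.toMulHomClass OmegaCompletePartialOrder.toPartialOrder
  Option.decidableForallMem Module.Flat.of_projective RCLike.charZero_rclike NormedRing.toRing
  CentroidHomClass.toAddMonoidHomClass Int.decidableLTLE RightPreLieRing.toNonUnitalNonAssocRing
  Int.decidableLELE Int.decidableLELT NormedAlgebra.toAlgebra
  CommGroupWithZero.instStrongNormalizedGCDMonoid Finset.decidableDforallFinset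
  LieAdmissibleRing.toNonUnitalNonAssocRing ChainCompletePartialOrder.toPartialOrder
  CategoryTheory.Limits.Concrete.instUniqueToTypeTerminal EuclideanDomain.toCommRing
  Multiset.decidableDforallMultiset Module.FaithfullyFlat.toFlat One.instNonempty
  SeminormedRing.toRing LieRing.toAddCommGroup MulSemiringActionSemiHomClass.toRingHomClass
  SemilatticeSup.toPartialOrder Vector.instDecidableForallForallMemOfDecidablePred

/-! The auxiliary polynomial and the bound `log H ≪ rad^ε`; builds on the files in `H70`. -/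

set_option autoImplicit false
set_option linter.unusedSectionVars false
set_option linter.unusedVariables false

namespace Pool.Agent.MP_2a5a28_nt.H63

open Finset

-- BEGIN Cnt
theorem mem_Sx {e T : ℕ} {t : Fin e → ℕ} : t ∈ Sx e T ↔ ∑ j, t j ≤ T := by
  simp only [Sx, mem_filter, Fintype.mem_piFinset, mem_range]
  exact ⟨fun h => h.2, fun h => ⟨fun j => Nat.lt_succ_of_le
    ((single_le_sum (fun i _ => Nat.zero_le (t i)) (mem_univ j)).trans h), h⟩⟩

theorem card_Sx (e T : ℕ) : (Sx e T).card = (T + e).choose e := by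
  induction e generalizing T with
  | zero => simp [Sx]
  | succ e ih =>
    have h : (Sx (e + 1) T).card = ((range (T + 1)).sigma fun i => Sx e (T - i)).card := by
      refine card_nbij' (fun t => ⟨t 0, Fin.tail t⟩) (fun p => Fin.cons p.1 p.2) ?_ ?_ ?_ ?_
      · intro t ht
        simp only [mem_coe, mem_Sx, mem_sigma, mem_range, Fin.sum_univ_succ, Fin.tail] at ht ⊢
        omega
      · intro p hp
        simp only [mem_coe, mem_Sx, mem_sigma, mem_range, Fin.sum_univ_succ, Fin.cons_zero,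
          Fin.cons_succ] at hp ⊢
        omega
      · intro t _
        exact Fin.cons_self_tail t
      · intro p _
        simp
    rw [h, card_sigma]
    simp only [ih]
    rw [← add_assoc, ← Nat.sum_range_add_choose T e, ← sum_range_reflect]
    refine sum_congr rfl fun i hi => ?_
    rw [mem_range] at hi
    congr 2
    omega

theorem cnt_aux {σ : ℝ} (hσ : 0 < σ) {T D : ℕ} (hD : (D : ℝ) ≤ (1 - σ) * T) (j : ℕ)
    (hj : j ≤ T) : (((D + j).choose j : ℕ) : ℝ) ≤ (1 - σ / 2) ^ j * ((T + j).choose j : ℕ) := by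
  induction j with
  | zero => simp
  | succ j ih =>
    have ih := ih (Nat.le_of_succ_le hj)
    have e : ∀ X : ℕ, (((X + (j + 1)).choose (j + 1) : ℕ) : ℝ) * (j + 1) =
        (X + j + 1) * ((X + j).choose j : ℕ) := fun X => by
      exact_mod_cast (Nat.add_one_mul_choose_eq (X + j) j).symm
    have hj' : (j : ℝ) + 1 ≤ T := by exact_mod_cast hj
    have h2 : (D : ℝ) + j + 1 ≤ (1 - σ / 2) * (T + j + 1) := by nlinarith only [hσ, hD, hj']
    refine le_of_mul_le_mul_right ?_ (by positivity : (0 : ℝ) < j + 1)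
    rw [e, mul_assoc, e]
    calc _ ≤ ((1 - σ / 2) * (T + j + 1)) * ((1 - σ / 2) ^ j * ((T + j).choose j : ℕ)) :=
          mul_le_mul h2 ih (by positivity) ((by positivity : (0 : ℝ) ≤ D + j + 1).trans h2)
      _ = _ := by ring

theorem cnt (σ : ℝ) (hσ : 0 < σ) (L : ℕ) : ∃ e : ℕ, 1 ≤ e ∧ ∀ T D : ℕ, e ≤ T →
    (D : ℝ) ≤ (1 - σ) * T → 2 * L * (Sx e D).card ≤ (Sx e T).card := by
  obtain ⟨e, he⟩ := exists_pow_lt_of_lt_one (by positivity : (0 : ℝ) < 1 / (2 * L + 1))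
    (by linarith : 1 - σ / 2 < 1)
  refine ⟨e + 1, by omega, fun T D hT hD => ?_⟩
  have hT' : (1 : ℝ) ≤ T := by exact_mod_cast (by omega : 1 ≤ T)
  have h1 : σ ≤ 1 := by
    by_contra h
    have : (0 : ℝ) ≤ D := Nat.cast_nonneg D
    nlinarith only [hD, hT', h]
  have h2 := cnt_aux hσ hD _ hT
  have h3 : (1 - σ / 2) ^ (e + 1) ≤ (1 - σ / 2) ^ e :=
    pow_le_pow_of_le_one (by linarith only [h1]) (by linarith only [hσ]) (by omega)
  rw [lt_div_iff₀ (by positivity)] at he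
  have h4 : (0 : ℝ) ≤ (1 - σ / 2) ^ e := pow_nonneg (by linarith only [h1]) _
  have h5 : 2 * L * (1 - σ / 2) ^ (e + 1) ≤ 1 := by
    have : (0 : ℝ) ≤ L := Nat.cast_nonneg L
    nlinarith only [he, h3, h4]
  rw [card_Sx, card_Sx, ← Nat.cast_le (α := ℝ), Nat.cast_mul, Nat.cast_mul, Nat.cast_ofNat]
  calc _ ≤ 2 * L * ((1 - σ / 2) ^ (e + 1) * ((T + (e + 1)).choose (e + 1) : ℕ) : ℝ) := by gcongr
    _ ≤ 1 * _ := by rw [← mul_assoc]; gcongr
    _ = _ := one_mul _

theorem dss (e A : ℕ) (J : Finset ℤ) (hJ : (2 * A + 1) ^ e < J.card) :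
    ∃ k : Fin e → ℤ, (∀ j, k j ∈ J) ∧
      ∀ t : Fin e → ℤ, t ≠ 0 → (∀ j, |t j| ≤ A) → ∑ j, k j * t j ≠ 0 := by
  induction e with
  | zero => exact ⟨0, fun j => j.elim0, fun t ht => absurd (Subsingleton.elim _ _) ht⟩
  | succ e ih =>
    obtain ⟨k, hk, h⟩ := ih (lt_of_le_of_lt (Nat.pow_le_pow_right (by omega) (by omega)) hJ)
    have hc : ((Fintype.piFinset fun _ : Fin (e + 1) => Icc (-A : ℤ) A).image
        fun t => -(∑ j, k j * t j.succ) / t 0).card < J.card := by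
      refine lt_of_le_of_lt (card_image_le.trans (le_of_eq ?_)) hJ
      rw [Fintype.card_piFinset, prod_const, card_univ, Fintype.card_fin, Int.card_Icc]
      congr 1
      omega
    obtain ⟨x, hx, hx'⟩ := exists_mem_notMem_of_card_lt_card hc
    refine ⟨Fin.cons x k, fun j => Fin.cases hx hk j, fun t ht hA h0 => ?_⟩
    rw [Fin.sum_univ_succ] at h0
    simp only [Fin.cons_zero, Fin.cons_succ] at h0
    by_cases h1 : t 0 = 0
    · rw [h1, mul_zero, zero_add] at h0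
      exact h (fun j => t j.succ) (fun h2 => ht (funext fun j =>
        Fin.cases h1 (fun j => congrFun h2 j) j)) (fun j => hA _) h0
    · refine hx' (mem_image.2 ⟨t, Fintype.mem_piFinset.2 fun j => mem_Icc.2 (abs_le.1 (hA j)), ?_⟩)
      rw [show -(∑ j, k j * t j.succ) = x * t 0 by linarith only [h0], Int.mul_ediv_cancel _ h1]
-- END Cnt

-- BEGIN Sieg
theorem sieg_cell (L : ℕ) (hL : 1 ≤ L) {x : ℝ} (h0 : 0 ≤ x) (h1 : x ≤ 1) :
    ((min ⌊L * x⌋₊ (L - 1) : ℕ) : ℝ) / L ≤ x ∧ x ≤ ((min ⌊L * x⌋₊ (L - 1) : ℕ) : ℝ) / L + 1 / L := by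
  have L0 : (0 : ℝ) < L := by exact_mod_cast hL
  have a1 := Nat.floor_le (mul_nonneg L0.le h0)
  have a2 := Nat.lt_floor_add_one ((L : ℝ) * x)
  have a3 : ((L - 1 : ℕ) : ℝ) = L - 1 := by rw [Nat.cast_sub hL, Nat.cast_one]
  rw [← add_div, div_le_iff₀ L0, le_div_iff₀ L0, Nat.cast_min, a3]
  refine ⟨(min_le_left _ _).trans (by linarith only [a1]), ?_⟩
  rcases le_total ((⌊L * x⌋₊ : ℕ) : ℝ) (L - 1) with h | h
  · rw [min_eq_left h]; linarith only [a2]
  · rw [min_eq_right h]; nlinarith only [h1]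

theorem sieg_int {α β : Type*} [Fintype α] [Fintype β] (A : Matrix α β ℤ) (B : ℝ) (hB : 1 ≤ B)
    (hA : ∀ i j, |(A i j : ℝ)| ≤ B) (h0 : 0 < Fintype.card α)
    (h2 : 2 * Fintype.card α ≤ Fintype.card β) :
    ∃ t : β → ℤ, t ≠ 0 ∧ A.mulVec t = 0 ∧ ∀ j, |(t j : ℝ)| ≤ Fintype.card β * B := by
  obtain ⟨t, h1, h3, h4⟩ := Int.Matrix.exists_ne_zero_int_vec_norm_le A (by omega) h0
  refine ⟨t, h1, h3, fun j => ?_⟩
  have m0 : (1 : ℝ) ≤ Fintype.card α := by exact_mod_cast h0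
  have m2 : (2 : ℝ) * Fintype.card α ≤ Fintype.card β := by exact_mod_cast h2
  have hn : @norm _ Matrix.seminormedAddCommGroup.toNorm A ≤ B :=
    (Matrix.norm_le_iff (by linarith only [hB])).2 fun i j => by simpa [Int.norm_eq_abs] using hA i j
  have h5 : |(t j : ℝ)| ≤ ‖t‖ := by simpa [Int.norm_eq_abs] using norm_le_pi_norm t j
  refine h5.trans (h4.trans ?_)
  have h6 := le_max_left (1 : ℝ) (@norm _ Matrix.seminormedAddCommGroup.toNorm A)
  refine (Real.rpow_le_rpow_of_exponent_le (by nlinarith only [m0, m2, h6])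
    ((div_le_one (by linarith only [m0, m2])).2 (by linarith only [m2]))).trans ?_
  rw [Real.rpow_one]
  exact mul_le_mul_of_nonneg_left (max_le hB hn) (by linarith only [m0, m2])

theorem sieg (e T D L : ℕ) (he : e ≤ T) (hT : 1 ≤ T) (hL : 1 ≤ L)
    (hc : 2 * L * (Sx e D).card ≤ (Sx e T).card) (x : (Fin e → ℕ) → ℝ)
    (hx : ∀ t, 0 ≤ x t ∧ x t ≤ 1) :
    ∃ E ⊆ Sx e T, ∃ M : (Fin e → ℕ) → ℤ, ∃ lo : ℝ, (∃ t ∈ E, M t ≠ 0) ∧
      (∀ t ∈ E, lo ≤ x t ∧ x t ≤ lo + 1 / L) ∧ ∑ t ∈ E, |(M t : ℝ)| ≤ Real.exp (5 * T) ∧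
      ∀ i ∈ Sx e D, ∑ t ∈ E, M t * ∏ j, ((t j).choose (i j) : ℤ) = 0 := by
  classical
  obtain ⟨c, -, hcE⟩ := exists_le_card_fiber_of_mul_le_card_of_maps_to (s := Sx e T)
    (t := range L) (f := fun t => min ⌊L * x t⌋₊ (L - 1)) (n := 2 * (Sx e D).card)
    (fun t _ => mem_range.2 (by omega)) ⟨0, mem_range.2 hL⟩ (by rw [card_range]; linarith only [hc])
  obtain ⟨E, hE⟩ : ∃ E, E = (Sx e T).filter fun t => min ⌊L * x t⌋₊ (L - 1) = c := ⟨_, rfl⟩
  rw [← hE] at hcE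
  have hsub : E ⊆ Sx e T := hE ▸ filter_subset _ _
  have two : ∀ k : ℕ, (2 : ℝ) ^ k ≤ Real.exp k := fun k => by
    rw [← Real.exp_one_pow]
    exact pow_le_pow_left₀ (by norm_num) (by linarith only [Real.add_one_le_exp 1]) k
  have hcard : (E.card : ℝ) ≤ 2 ^ (2 * T) := by
    have h1 := card_le_card hsub
    rw [card_Sx] at h1
    exact_mod_cast h1.trans ((Nat.choose_le_two_pow _ _).trans
      (Nat.pow_le_pow_right (by norm_num) (by omega)))
  obtain ⟨v, v0, v1, v2⟩ := sieg_int (α := Sx e D) (β := E)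
    (Matrix.of fun i t => ∏ j, ((t.1 j).choose (i.1 j) : ℤ)) (2 ^ T) (one_le_pow₀ (by norm_num))
    (fun i t => by
      have h1 : ∏ j, (t.1 j).choose (i.1 j) ≤ 2 ^ T :=
        (prod_le_prod' fun j _ => Nat.choose_le_two_pow _ _).trans (by
          rw [prod_pow_eq_pow_sum]
          exact Nat.pow_le_pow_right (by norm_num) (mem_Sx.1 (hsub t.2)))
      rw [Matrix.of_apply, abs_of_nonneg (by positivity)]
      exact_mod_cast h1)
    (by rw [Fintype.card_coe, card_pos]; exact ⟨0, mem_Sx.2 (by simp only [Pi.zero_apply, sum_const_zero, zero_le])⟩)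
    (by rw [Fintype.card_coe, Fintype.card_coe]; exact hcE)
  rw [Fintype.card_coe] at v2
  obtain ⟨M, hM⟩ : ∃ M : (Fin e → ℕ) → ℤ, ∀ t : E, M t = v t :=
    ⟨fun t => if h : t ∈ E then v ⟨t, h⟩ else 0, fun t => dif_pos t.2⟩
  refine ⟨E, hsub, M, (c : ℝ) / L, ?_, fun t ht => ?_, ?_, fun i hi => ?_⟩
  · obtain ⟨t, ht⟩ := Function.ne_iff.1 v0
    exact ⟨t, t.2, by rw [hM]; exact ht⟩
  · rw [hE] at ht
    rw [← (mem_filter.1 ht).2]
    exact sieg_cell L hL (hx t).1 (hx t).2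
  · refine (sum_le_card_nsmul E _ (2 ^ (2 * T) * 2 ^ T) fun t ht => ?_).trans ?_
    · rw [hM ⟨t, ht⟩]
      exact (v2 _).trans (mul_le_mul_of_nonneg_right hcard (by positivity))
    · rw [nsmul_eq_mul]
      refine (mul_le_mul_of_nonneg_right hcard (by positivity)).trans ?_
      have h1 := two (5 * T)
      rw [← pow_add, ← pow_add, show 2 * T + (2 * T + T) = 5 * T by ring]
      exact_mod_cast h1
  · have h1 := congrFun v1 ⟨i, hi⟩
    rw [← sum_coe_sort E]
    refine (sum_congr rfl fun t _ => ?_).trans h1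
    rw [hM, mul_comm]
    rfl
-- END Sieg

-- BEGIN Van
theorem van_exp {K : Type*} [CommRing K] (η : K) (T t j : ℕ) (ht : t ≤ T) :
    (t.choose j : K) * η ^ t =
      ∑ m ∈ range (T + 1), η ^ j * (m.choose j : K) * (η - 1) ^ (m - j) * (t.choose m : K) := by
  have key : ∀ m, j ≤ m → η ^ j * (m.choose j : K) * (η - 1) ^ (m - j) * (t.choose m : K) =
      (t.choose j : K) * η ^ j * ((η - 1) ^ (m - j) * ((t - j).choose (m - j) : K)) := by
    intro m hm
    have : (t.choose m : K) * (m.choose j : K) = t.choose j * (t - j).choose (m - j) := by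
      exact_mod_cast congrArg (Nat.cast : ℕ → K) (Nat.choose_mul (n := t) hm)
    linear_combination η ^ j * (η - 1) ^ (m - j) * this
  rcases lt_or_ge t j with h | h
  · rw [Nat.choose_eq_zero_of_lt h]
    refine (by simp : _ = (0 : K)).trans (sum_eq_zero fun m _ => ?_).symm
    rcases lt_or_ge m j with h' | h'
    · simp only [Nat.choose_eq_zero_of_lt h', Nat.cast_zero, mul_zero, zero_mul]
    · simp only [Nat.choose_eq_zero_of_lt (h.trans_le h'), Nat.cast_zero, mul_zero]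
  obtain ⟨n, rfl⟩ := Nat.exists_eq_add_of_le h
  rw [← sum_subset (s₁ := Ico j (j + n + 1)) (fun m hm => by simp only [mem_Ico, Order.lt_add_one_iff, mem_range] at hm ⊢; omega)
    (fun m _ hm => by
      rcases lt_or_ge m j with h' | h'
      · simp only [Nat.choose_eq_zero_of_lt h', Nat.cast_zero, mul_zero, zero_mul]
      · simp only [Nat.choose_eq_zero_of_lt (show j + n < m by simp only [mem_Ico, Order.lt_add_one_iff, not_and, not_le] at hm; omega), Nat.cast_zero, mul_zero]),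
    sum_Ico_eq_sum_range, show j + n + 1 - j = n + 1 by omega,
    sum_congr rfl fun i _ => key (j + i) (Nat.le_add_right _ _), ← mul_sum, pow_add, mul_assoc]
  have := add_pow (η - 1) 1 n
  simp only [sub_add_cancel, one_pow, mul_one] at this
  simp only [Nat.add_sub_cancel_left, this]

theorem van {S : Type*} [CommRing S] {e : ℕ} (π : S) (η : Fin e → S) (hη : ∀ j, π ∣ η j - 1)
    (E : Finset (Fin e → ℕ)) (M : (Fin e → ℕ) → ℤ) (D : ℕ)
    (hM : ∀ i ∈ Sx e D, ∑ t ∈ E, M t * ∏ j, ((t j).choose (i j) : ℤ) = 0) (i : Fin e → ℕ) (r : ℕ)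
    (hr : r + ∑ j, i j ≤ D) :
    π ^ r ∣ ∑ t ∈ E, ((M t * ∏ j, ((t j).choose (i j) : ℤ) : ℤ) : S) * ∏ j, η j ^ t j := by
  obtain ⟨N, hN⟩ : ∃ N : ℕ, ∀ t ∈ E, ∀ j, t j ≤ N :=
    ⟨E.sup fun t => univ.sup t, fun t ht j =>
      (le_sup (f := t) (mem_univ j)).trans (le_sup (f := fun t : Fin e → ℕ => univ.sup t) ht)⟩
  have h1 : ∀ t ∈ E, ((M t * ∏ j, ((t j).choose (i j) : ℤ) : ℤ) : S) * ∏ j, η j ^ t j =
      ∑ m ∈ Fintype.piFinset fun _ : Fin e => range (N + 1),
        (∏ j, η j ^ i j * ((m j).choose (i j) : S)) * (∏ j, (η j - 1) ^ (m j - i j)) *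
          ((M t * ∏ j, ((t j).choose (m j) : ℤ) : ℤ) : S) := by
    intro t ht
    push_cast
    rw [mul_assoc, ← prod_mul_distrib, prod_congr rfl fun j _ => van_exp (η j) N _ _ (hN t ht j),
      prod_univ_sum, mul_sum]
    refine sum_congr rfl fun m _ => ?_
    rw [prod_mul_distrib, prod_mul_distrib]
    ring
  rw [sum_congr rfl h1, sum_comm]
  refine dvd_sum fun m _ => ?_
  rw [← mul_sum, ← Int.cast_sum]
  by_cases hm : ∑ j, m j ≤ D
  · rw [hM m (mem_Sx.2 hm), Int.cast_zero, mul_zero]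
    exact dvd_zero _
  · refine Dvd.dvd.mul_right (Dvd.dvd.mul_left ?_ _) _
    have h2 : ∑ j, m j ≤ ∑ j, (m j - i j) + ∑ j, i j := by
      rw [← sum_add_distrib]
      exact sum_le_sum fun j _ => by omega
    refine (pow_dvd_pow π (show r ≤ ∑ j, (m j - i j) by omega)).trans ?_
    rw [← prod_pow_eq_pow_sum]
    exact prod_dvd_prod_of_dvd _ _ fun j _ => pow_dvd_pow_of_dvd (hη j) _
-- END Van

-- BEGIN Pig
theorem pig {n : ℕ} (A : Fin n → ℝ) (hA : ∀ j, 1 ≤ A j) (b : Fin n → ℤ) {β γ : Type*}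
    (X : Finset ℝ) (W : Finset β) (Γ : Finset γ) (col : ℝ → β → γ)
    (hΓ : ∀ x ∈ X, ∀ u ∈ W, col x u ∈ Γ) (J : ℕ)
    (hc : (J : ℝ) * Γ.card * ∏ j, (2 * A j) < X.card * W.card) :
    ∃ S ⊆ X ×ˢ W, J < S.card ∧ ∀ p ∈ S, ∀ q ∈ S, col p.1 p.2 = col q.1 q.2 ∧
      ∀ l, |((H70.fl b p.1 l - H70.fl b q.1 l : ℤ) : ℝ) - (p.1 - q.1) * b l| * A l ≤ 1 := by
  classical
  have hcard : (Γ ×ˢ Fintype.piFinset fun j => range ⌈A j⌉₊).card * J < (X ×ˢ W).card := by
    rw [Finset.card_product, Finset.card_product, Fintype.card_piFinset]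
    have h : (Γ.card : ℝ) * (∏ j, ((range ⌈A j⌉₊).card : ℝ)) * J < X.card * W.card := by
      refine lt_of_le_of_lt ?_ hc
      rw [mul_comm _ (J : ℝ), mul_assoc]
      refine mul_le_mul_of_nonneg_left (mul_le_mul_of_nonneg_left ?_ (Nat.cast_nonneg _))
        (Nat.cast_nonneg _)
      refine Finset.prod_le_prod (fun j _ => Nat.cast_nonneg _) fun j _ => ?_
      rw [Finset.card_range]
      have := Nat.ceil_lt_add_one (zero_le_one.trans (hA j))
      linarith [hA j]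
    exact_mod_cast h
  obtain ⟨y, -, hy⟩ := Finset.exists_lt_card_fiber_of_mul_lt_card_of_maps_to
    (f := fun z : ℝ × β => (col z.1 z.2, fun j => ⌊Int.fract (z.1 * b j) * (⌈A j⌉₊ : ℝ)⌋₊))
    (fun z hz => by
      have hz' := Finset.mem_product.1 hz
      refine Finset.mem_product.2 ⟨hΓ _ hz'.1 _ hz'.2,
        Fintype.mem_piFinset.2 fun j => Finset.mem_range.2 ?_⟩
      have hp : (0 : ℝ) < ⌈A j⌉₊ := lt_of_lt_of_le (lt_of_lt_of_le one_pos (hA j)) (Nat.le_ceil _)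
      rw [Nat.floor_lt (mul_nonneg (Int.fract_nonneg _) hp.le)]
      exact mul_lt_of_lt_one_left hp (Int.fract_lt_one _)) hcard
  refine ⟨_, Finset.filter_subset _ _, hy, fun p hp q hq => ?_⟩
  have he := (Finset.mem_filter.1 hp).2.trans (Finset.mem_filter.1 hq).2.symm
  refine ⟨(Prod.mk.inj he).1, fun l => ?_⟩
  have h := H70.Fn_cell (Int.fract_nonneg _) (Int.fract_nonneg _)
    (congrFun (Prod.mk.inj he).2 l).symm
  have e : ((H70.fl b p.1 l - H70.fl b q.1 l : ℤ) : ℝ) - (p.1 - q.1) * b l =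
      Int.fract (q.1 * b l) - Int.fract (p.1 * b l) := by
    simp only [H70.fl, Int.fract, Int.cast_sub]; ring
  rw [e]; exact h
-- END Pig

-- BEGIN Aux
theorem aux_coeff {K : Type*} [CommRing K] {n : ℕ} (p : Fin n → K) (a : Fin n → ℕ)
    (d : Fin n →₀ ℕ) :
    MvPolynomial.coeff d (∏ j, (MvPolynomial.X j + MvPolynomial.C (p j)) ^ a j) =
      ∏ j, (((a j).choose (d j) : K) * p j ^ (a j - d j)) := by
  classical
  have h1 : ∏ j, (MvPolynomial.X j + MvPolynomial.C (p j) : MvPolynomial (Fin n) K) ^ a j =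
      ∑ f ∈ Fintype.piFinset fun j => range (a j + 1),
        MvPolynomial.monomial (Finsupp.equivFunOnFinite.symm f)
          (∏ j, (((a j).choose (f j) : K) * p j ^ (a j - f j))) := by
    simp only [add_pow]
    rw [prod_univ_sum]
    refine sum_congr rfl fun f _ => ?_
    rw [MvPolynomial.monomial_eq, Finsupp.prod_fintype _ _ (by simp), map_prod,
      ← prod_mul_distrib]
    refine prod_congr rfl fun j _ => ?_
    simp only [map_mul, map_pow, map_natCast, Finsupp.equivFunOnFinite_symm_apply_apply]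
    ring
  rw [h1, MvPolynomial.coeff_sum, sum_eq_single (d : Fin n → ℕ)]
  · simp only [Finsupp.equivFunOnFinite_symm_coe, MvPolynomial.coeff_monomial, ↓ reduceIte]
  · intro f _ hf
    rw [MvPolynomial.coeff_monomial, if_neg]
    rintro rfl
    exact hf rfl
  · intro h
    obtain ⟨j, hj⟩ : ∃ j, a j < d j := by
      by_contra! hc
      exact h (Fintype.mem_piFinset.2 fun j => mem_range.2 (Nat.lt_succ_of_le (hc j)))
    rw [prod_eq_zero (mem_univ j) (by simp only [Nat.choose_eq_zero_of_lt hj, Nat.cast_zero, zero_mul])]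
    simp

theorem aux_st {K : Type*} [Field K] {e T m : ℕ} (E : Finset (Fin e → ℕ)) (hE : E ⊆ Sx e T)
    (M : (Fin e → ℕ) → ℤ) (hM : ∃ t ∈ E, M t ≠ 0) (hn : ∑ t ∈ E, |(M t : ℝ)| ≤ Real.exp (5 * T))
    (s : (Fin e → ℕ) → ℕ) (τ : Fin e → ℝ) (lo : ℝ) (hT : 1 ≤ T)
    (hs : ∀ t ∈ E, lo ≤ s t - ∑ j, t j * τ j ∧ s t - ∑ j, t j * τ j ≤ lo + 1)
    (ψ : K) (η : Fin e → K) (hη : ∀ j, η j ≠ 0)
    (hv : ∀ i : Fin e → ℕ, ∑ j, i j < m →
      ∑ t ∈ E, ((M t * ∏ j, ((t j).choose (i j) : ℤ) : ℤ) : K) * (ψ ^ s t * ∏ j, η j ^ t j) = 0) :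
    ∃ P, St e (Fin.snoc η ψ : Fin (e + 1) → K) (Fin.snoc (fun j => -τ j) 1 : Fin (e + 1) → ℝ)
      m T m 5 (1 / T) P := by
  classical
  obtain ⟨ex, h1, h2⟩ : ∃ ex : (Fin e → ℕ) → Fin (e + 1) →₀ ℕ,
      (∀ t j, ex t (Fin.castSucc j) = t j) ∧ ∀ t, ex t (Fin.last e) = s t :=
    ⟨fun t => Finsupp.equivFunOnFinite.symm (Fin.snoc t (s t)), by simp, by simp⟩
  have hsup : ∀ d ∈ (∑ t ∈ E, MvPolynomial.monomial (ex t) (M t)).support, ∃ t ∈ E, ex t = d := by
    intro d hd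
    obtain ⟨t, ht, h⟩ := mem_biUnion.1 (MvPolynomial.support_sum hd)
    exact ⟨t, ht, (mem_singleton.1 (MvPolynomial.support_monomial_subset h)).symm⟩
  refine ⟨∑ t ∈ E, MvPolynomial.monomial (ex t) (M t), ?_, ?_, ⟨lo, ?_⟩, ?_, ?_⟩
  · obtain ⟨t, ht, h0⟩ := hM
    intro h
    have := congrArg (MvPolynomial.coeff (ex t)) h
    rw [MvPolynomial.coeff_sum, sum_eq_single t (fun t' _ hne => by
      rw [MvPolynomial.coeff_monomial, if_neg fun h' => hne (funext fun j => by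
        rw [← h1 t', h', h1])]) (fun h' => absurd ht h')] at this
    exact h0 (by simpa using this)
  · intro d hd j hj
    obtain ⟨t, ht, rfl⟩ := hsup d hd
    obtain ⟨j, rfl⟩ := Fin.exists_castSucc_eq.2 hj
    rw [h1]
    exact (single_le_sum (fun _ _ => Nat.zero_le _) (mem_univ j)).trans (mem_Sx.1 (hE ht))
  · intro d hd
    obtain ⟨t, ht, rfl⟩ := hsup d hd
    have h0 : (T : ℝ) ≠ 0 := by positivity
    have : wt (Fin.snoc (fun j => -τ j) 1 : Fin (e + 1) → ℝ) (ex t) = s t - ∑ j, t j * τ j := by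
      simp only [wt, Fin.sum_univ_castSucc, h1, Fin.snoc_castSucc, mul_neg, sum_neg_distrib, h2, Fin.snoc_last, mul_one, sub_eq_neg_add]
    rw [this, one_div_mul_cancel h0]
    exact hs t ht
  · exact (nm_sum _ _).trans (by simpa only [nm_monomial] using hn)
  · intro d hd
    have hw : wt (ow e m) d = ((∑ j : Fin e, d j.castSucc + d (Fin.last e) * m : ℕ) : ℝ) := by
      simp only [wt, ow, mul_ite, mul_one, Fin.sum_univ_castSucc, Fin.castSucc_ne_last, ↓ reduceIte, Nat.cast_add, Nat.cast_sum, Nat.cast_mul]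
    rw [hw, Nat.cast_le]
    by_contra! hlt
    have hl : d (Fin.last e) = 0 := by
      by_contra h
      have := Nat.mul_le_mul_right m (Nat.one_le_iff_ne_zero.2 h)
      omega
    refine MvPolynomial.mem_support_iff.1 hd (mul_right_cancel₀
      (prod_ne_zero_iff.2 fun j (_ : j ∈ univ) => pow_ne_zero (d j.castSucc) (hη j)) ?_)
    rw [zero_mul, ← hv (fun j => d j.castSucc) (by omega), map_sum, MvPolynomial.coeff_sum, sum_mul]
    refine sum_congr rfl fun t _ => ?_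
    have key : ∀ j : Fin e, ((t j).choose (d j.castSucc) : K) * η j ^ (t j - d j.castSucc) *
        η j ^ d j.castSucc = ((t j).choose (d j.castSucc) : K) * η j ^ t j := fun j => by
      rcases le_or_gt (d j.castSucc) (t j) with h | h
      · rw [mul_assoc, ← pow_add, Nat.sub_add_cancel h]
      · simp only [Nat.choose_eq_zero_of_lt h, Nat.cast_zero, zero_mul]
    rw [tr, MvPolynomial.eval₂Hom_monomial, Finsupp.prod_fintype _ _ (by simp), eq_intCast,
      ← map_intCast (MvPolynomial.C : K →+* _), MvPolynomial.coeff_C_mul, aux_coeff,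
      Fin.prod_univ_castSucc]
    simp only [h1, h2, hl, Fin.snoc_castSucc, Fin.snoc_last, Nat.choose_zero_right, Nat.cast_one,
      one_mul, Nat.sub_zero]
    rw [mul_assoc, mul_right_comm, ← prod_mul_distrib, prod_congr rfl fun j _ => key j,
      prod_mul_distrib]
    push_cast
    ring
-- END Aux

section

open UniqueFactorizationMonoid H70

variable {O : Type*} [CommRing O] [IsDomain O] [IsPrincipalIdealRing O] [NormalizationMonoid O]
  [DecidableEq O] {V : Type*} [Fintype V] (D : Dat O V)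
  (K : Type*) [Field K] [CharZero K] [Algebra O K] [IsFractionRing O K]

-- BEGIN Loc
/-- The local ring at `π`. -/
def loc_S {π : O} (hπ : Prime π) : Subring K where
  carrier := {q | ∃ a b : O, ¬π ∣ b ∧ q * algebraMap O K b = algebraMap O K a}
  mul_mem' := by
    rintro q q' ⟨a, b, hb, h⟩ ⟨a', b', hb', h'⟩
    refine ⟨a * a', b * b', fun e => (hπ.dvd_or_dvd e).elim hb hb', ?_⟩
    rw [map_mul, map_mul, ← h, ← h']; ring
  one_mem' := ⟨1, 1, hπ.not_dvd_one, one_mul _⟩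
  add_mem' := by
    rintro q q' ⟨a, b, hb, h⟩ ⟨a', b', hb', h'⟩
    refine ⟨a * b' + a' * b, b * b', fun e => (hπ.dvd_or_dvd e).elim hb hb', ?_⟩
    rw [map_add, map_mul, map_mul, map_mul, ← h, ← h']; ring
  zero_mem' := ⟨0, 1, hπ.not_dvd_one, by simp⟩
  neg_mem' := by
    rintro q ⟨a, b, hb, h⟩
    exact ⟨-a, b, hb, by rw [map_neg, ← h, neg_mul]⟩

theorem loc_iff {π : O} (hπ : Prime π) (r : ℕ) (q : K) :
    Dv K π r q ↔ ∃ s ∈ loc_S K hπ, q = algebraMap O K π ^ r * s := by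
  constructor
  · rintro ⟨a, b, hb, h⟩
    have hb0 : algebraMap O K b ≠ 0 := (map_ne_zero_iff _ (IsFractionRing.injective O K)).2 <| by
      rintro rfl; exact hb (dvd_zero _)
    refine ⟨algebraMap O K a / algebraMap O K b, ⟨a, b, hb, div_mul_cancel₀ _ hb0⟩, ?_⟩
    rw [← mul_div_assoc, eq_div_iff hb0, h, map_mul, map_pow]
  · rintro ⟨s, ⟨a, b, hb, h⟩, rfl⟩
    exact ⟨a, b, hb, by rw [map_mul, map_pow, mul_assoc, h]⟩

theorem loc {e : ℕ} {π : O} (hπ : Prime π) (ψ : K) (η : Fin e → K) (T : ℕ)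
    (hψ : Dv K π T (ψ - 1)) (hη : ∀ j, Dv K π 1 (η j - 1))
    (E : Finset (Fin e → ℕ)) (M : (Fin e → ℕ) → ℤ) (s : (Fin e → ℕ) → ℕ) (D' : ℕ)
    (hM : ∀ i ∈ Sx e D', ∑ t ∈ E, M t * ∏ j, ((t j).choose (i j) : ℤ) = 0) (i : Fin e → ℕ)
    (r : ℕ) (hr : r + ∑ j, i j ≤ D') (hT : r ≤ T) :
    Dv K π r (∑ t ∈ E, ((M t * ∏ j, ((t j).choose (i j) : ℤ) : ℤ) : K) *
      (ψ ^ s t * ∏ j, η j ^ t j)) := by
  obtain ⟨a, ha, ea⟩ := (loc_iff K hπ _ _).1 hψ
  choose c hc ec using fun j => (loc_iff K hπ _ _).1 (hη j)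
  let p : loc_S K hπ := ⟨algebraMap O K π, π, 1, hπ.not_dvd_one, by simp⟩
  let ψ' : loc_S K hπ := 1 + p ^ T * ⟨a, ha⟩
  let η' : Fin e → loc_S K hπ := fun j => 1 + p * ⟨c j, hc j⟩
  have e1 : (ψ' : K) = ψ := by rw [eq_add_of_sub_eq' ea]; simp only [ψ', p, Subring.coe_add, OneMemClass.coe_one, Subring.coe_mul, SubmonoidClass.coe_pow]
  have e2 : ∀ j, (η' j : K) = η j := fun j => by rw [eq_add_of_sub_eq' (ec j)]; simp only [η', p, Subring.coe_add, OneMemClass.coe_one, Subring.coe_mul, pow_one]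
  have h1 := van p η' (fun j => ⟨⟨c j, hc j⟩, add_sub_cancel_left _ _⟩) E M D' hM i r hr
  have h2 : p ^ r ∣ ∑ t ∈ E, ((M t * ∏ j, ((t j).choose (i j) : ℤ) : ℤ) : loc_S K hπ) *
      ((ψ' ^ s t - 1) * ∏ j, η' j ^ t j) := Finset.dvd_sum fun t _ =>
    (((pow_dvd_pow p hT).trans ((Dvd.intro _ (add_sub_cancel_left 1 _).symm).trans
      (sub_one_dvd_pow_sub_one ψ' _))).mul_right _).mul_left _
  obtain ⟨q, hq⟩ := h1.add h2
  refine (loc_iff K hπ _ _).2 ⟨q, q.2, ?_⟩
  have h3 := congrArg (loc_S K hπ).subtype hq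
  rw [← Finset.sum_add_distrib, map_sum, map_mul, map_pow] at h3
  refine Eq.trans (Finset.sum_congr rfl fun t _ => ?_) h3
  simp only [map_add, map_mul, map_sub, map_pow, map_prod, map_one, map_intCast,
    Subring.subtype_apply, e1, e2]
  ring

open Polynomial in
theorem loc_gauss {y z : O} (hyz : IsCoprime y z) (hz : z ≠ 0) (R : O[X]) (k : ℕ)
    (h : (X - C (-algebraMap O K y / algebraMap O K z)) ^ k ∣ R.map (algebraMap O K)) :
    (C z * X + C y) ^ k ∣ R := by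
  have hz' : algebraMap O K z ≠ 0 := (map_ne_zero_iff _ (IsFractionRing.injective O K)).2 hz
  have h1 : (C z * X + C y).IsPrimitive := fun r hr => by
    rw [C_dvd_iff_dvd_coeff] at hr
    exact hyz.isUnit_of_dvd' (by simpa only [coeff_add, mul_coeff_zero, coeff_C_zero, coeff_X_zero, mul_zero, zero_add] using hr 0) (by simpa only [coeff_add, coeff_mul_X, coeff_C_zero, coeff_C_succ, add_zero] using hr 1)
  obtain ⟨_⟩ : Nonempty (NormalizedGCDMonoid O) := inferInstance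
  have h2 : ∀ j : ℕ, ((C z * X + C y) ^ j).IsPrimitive := fun j => by
    induction j with
    | zero => simp
    | succ j ih => rw [pow_succ]; exact ih.mul h1
  refine (h2 k).dvd_of_fraction_map_dvd_fraction_map (K := K) ?_
  have e : (C z * X + C y).map (algebraMap O K) =
      C (algebraMap O K z) * (X - C (-algebraMap O K y / algebraMap O K z)) := by
    rw [mul_sub, ← C_mul, mul_div_cancel₀ _ hz']
    simp
  rw [Polynomial.map_pow, e, mul_pow, ← C_pow]
  exact (IsUnit.mul_left_dvd (isUnit_C.2 (pow_ne_zero k hz').isUnit)).2 h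

theorem gau {y z : O} (hz : z ≠ 0) (hc : IsCoprime y z) {c : ℝ}
    (h : Out (-algebraMap O K y / algebraMap O K z) c) :
    Real.log (D.N z) ≤ Fintype.card V * c := by
  obtain ⟨R, hR, k, hk, hd, hl⟩ := h
  have e0 : R.map (Int.castRingHom K) = (R.map (Int.castRingHom O)).map (algebraMap O K) := by
    rw [Polynomial.map_map]; congr 1; exact Subsingleton.elim _ _
  have h0 : ((R.leadingCoeff : ℤ) : O) ≠ 0 := fun e => by
    have := congrArg (algebraMap O K) e
    rw [map_intCast, map_zero, Int.cast_eq_zero] at this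
    exact hR (Polynomial.leadingCoeff_eq_zero.1 this)
  have h1 := Polynomial.leadingCoeff_dvd_leadingCoeff (loc_gauss K hc hz _ k (e0 ▸ hd))
  rw [Polynomial.leadingCoeff_pow, Polynomial.leadingCoeff_linear hz,
    Polynomial.leadingCoeff_map_of_leadingCoeff_ne_zero _ (by exact h0)] at h1
  have h2 := D.N_le_of_dvd h1 h0
  have h3 : D.N (Int.castRingHom O R.leadingCoeff) ≤ Real.exp (c * k) ^ Fintype.card V := by
    rw [← Finset.card_univ, ← Finset.prod_const]
    exact Finset.prod_le_prod (fun _ _ => abs_nonneg _) fun w _ => by simpa only [eq_intCast, map_intCast] using hl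
  have h4 := Real.log_le_log (D.N_pos (pow_ne_zero k hz)) (h2.trans h3)
  rw [D.N_pow, Real.log_pow, Real.log_pow, Real.log_exp] at h4
  have hk' : (0 : ℝ) < k := by exact_mod_cast hk
  exact le_of_mul_le_mul_left (by linarith only [h4]) hk'
-- END Loc

-- BEGIN Liou
theorem liou_add {n : ℕ} {α : Fin n → O} (hα : ∀ l, α l ≠ 0) (a b : Fin n → ℤ) :
    pw K α (fun l => a l + b l) = pw K α a * pw K α b := by
  unfold pw
  rw [← prod_mul_distrib]
  exact prod_congr rfl fun l _ =>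
    zpow_add₀ ((map_ne_zero_iff _ (IsFractionRing.injective O K)).2 (hα l)) _ _

theorem liou_pow {n : ℕ} (α : Fin n → O) (a : Fin n → ℤ) (k : ℕ) :
    pw K α (fun l => k * a l) = pw K α a ^ k := by
  unfold pw
  rw [← prod_pow]
  refine prod_congr rfl fun l _ => ?_
  beta_reduce
  rw [mul_comm, zpow_mul, zpow_natCast]

theorem liou_sum {n e : ℕ} {α : Fin n → O} (hα : ∀ l, α l ≠ 0) (μ : Fin e → Fin n → ℤ)
    (t : Fin e → ℕ) : pw K α (fun l => ∑ j, t j * μ j l) = ∏ j, pw K α (μ j) ^ t j := by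
  have key : ∀ S : Finset (Fin e),
      pw K α (fun l => ∑ j ∈ S, t j * μ j l) = ∏ j ∈ S, pw K α (μ j) ^ t j := by
    intro S
    induction S using Finset.induction_on with
    | empty => simp only [pw, sum_empty, zpow_ofNat, pow_zero, prod_const_one, prod_empty]
    | insert j S hj ih =>
      simp only [sum_insert hj, prod_insert hj]
      rw [liou_add K hα, ih, liou_pow]
  exact key univ

theorem liou_nat {n : ℕ} (α : Fin n → O) (a : Fin n → ℤ) (ha : ∀ l, 0 ≤ a l) :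
    algebraMap O K (∏ l, α l ^ (a l).toNat) = pw K α a := by
  rw [pw, map_prod]
  exact prod_congr rfl fun l _ => by rw [map_pow, ← zpow_natCast, Int.toNat_of_nonneg (ha l)]

theorem liou_exp {x len b ρ c θ : ℝ} (hx0 : 0 ≤ x) (hx : x ≤ len) (hρ : |ρ| ≤ c) (hθ : 0 ≤ θ) :
    0 ≤ x * b + len * max (-b) 0 + (ρ + c + θ) := by
  have h1 := neg_abs_le ρ
  have h2 : x * (-b) ≤ x * max (-b) 0 := mul_le_mul_of_nonneg_left (le_max_left _ _) hx0
  have h3 : x * max (-b) 0 ≤ len * max (-b) 0 := mul_le_mul_of_nonneg_right hx (le_max_right _ _)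
  linarith

theorem liou {n : ℕ} {α : Fin n → O} {A : Fin n → ℝ} {b : Fin n → ℤ} {ψ : K} {h : ℝ}
    (G : D.Gen K α A b ψ h) {π : O} (hπ : Prime π) (hα : ∀ l, ¬π ∣ α l) {e : ℕ} (T r : ℕ)
    (E : Finset (Fin e → ℕ)) (hE : E ⊆ Sx e T) (s : (Fin e → ℕ) → ℕ) (τ : Fin e → ℝ)
    (lo len : ℝ) (hlen : 0 ≤ len)
    (hs : ∀ t ∈ E, lo ≤ s t - ∑ j, t j * τ j ∧ s t - ∑ j, t j * τ j ≤ lo + len)
    (μ : Fin e → Fin n → ℤ) (hμ : ∀ j l, |(μ j l : ℝ) + τ j * b l| * A l ≤ 1)
    (u0 : O) (u : Fin e → O) (hu0 : u0 ≠ 0) (B : ℝ) (hB0 : ∀ w, |D.σ w u0| ≤ B)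
    (hB : ∀ j w, |D.σ w (u j)| ≤ B) (c : (Fin e → ℕ) → ℤ) (Cc : ℝ)
    (hc : ∑ t ∈ E, |(c t : ℝ)| ≤ Cc)
    (hbig : (Cc * B ^ T) ^ Fintype.card V * Real.exp (h * len + 3 * ∑ l, A l + 2 * T * n) <
      D.N π ^ r)
    (hv : Dv K π r (∑ t ∈ E, (c t : K) * (ψ ^ s t *
      ∏ j, (pw K α (μ j) * algebraMap O K (u j) / algebraMap O K u0) ^ t j))) :
    ∑ t ∈ E, (c t : K) * (ψ ^ s t *
      ∏ j, (pw K α (μ j) * algebraMap O K (u j) / algebraMap O K u0) ^ t j) = 0 := by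
  have inj := IsFractionRing.injective O K
  have hA0 : ∀ l, 0 < A l := fun l => lt_of_lt_of_le one_pos (G.one_le l)
  have hu0K : algebraMap O K u0 ≠ 0 := (map_ne_zero_iff _ inj).2 hu0
  obtain ⟨ε, hε, hψ⟩ : ∃ ε : ℤ, |ε| = 1 ∧ ψ = (ε : K) * pw K α b := by
    rcases G.eq with h' | h'
    · exact ⟨1, by simp, by simpa using h'⟩
    · exact ⟨-1, by simp, by simpa using h'⟩
  set κ : Fin n → ℤ := fun l => ⌈-(lo * b l) + len * max (-(b l : ℝ)) 0 + T / A l⌉ with hκ
  set f : (Fin e → ℕ) → Fin n → ℤ := fun t l => (s t * b l + ∑ j, t j * μ j l) + κ l with hf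
  have hsum : ∀ t ∈ E, ∑ j, t j ≤ T := fun t ht => mem_Sx.1 (hE ht)
  have hdec : ∀ t ∈ E, ∀ l, ∃ y : ℝ, 0 ≤ (f t l : ℝ) ∧ |y| ≤ 2 * (T / A l) + 1 ∧
      (f t l : ℝ) = (s t - ∑ j, t j * τ j - lo) * b l + len * max (-(b l : ℝ)) 0 + y := by
    intro t ht l
    have hρ : |∑ j, (t j : ℝ) * ((μ j l : ℝ) + τ j * b l)| ≤ T / A l := by
      refine (abs_sum_le_sum_abs _ _).trans ?_
      have h1 : ∀ j, |(t j : ℝ) * ((μ j l : ℝ) + τ j * b l)| ≤ t j * (1 / A l) := fun j => by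
        rw [abs_mul, Nat.abs_cast]
        exact mul_le_mul_of_nonneg_left ((le_div_iff₀ (hA0 l)).2 (hμ j l)) (Nat.cast_nonneg _)
      refine (sum_le_sum fun j _ => h1 j).trans ?_
      rw [← sum_mul, mul_one_div]
      refine div_le_div_of_nonneg_right ?_ (hA0 l).le
      exact_mod_cast hsum t ht
    have c1 := Int.le_ceil (-(lo * b l) + len * max (-(b l : ℝ)) 0 + T / A l)
    have c2 := Int.ceil_lt_add_one (-(lo * b l) + len * max (-(b l : ℝ)) 0 + T / A l)
    have e1 : (f t l : ℝ) = (s t - ∑ j, t j * τ j - lo) * b l + len * max (-(b l : ℝ)) 0 +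
        (∑ j, (t j : ℝ) * ((μ j l : ℝ) + τ j * b l) + T / A l +
          ((κ l : ℝ) - (-(lo * b l) + len * max (-(b l : ℝ)) 0 + T / A l))) := by
      simp only [hf, mul_add, sum_add_distrib, ← mul_assoc, ← sum_mul]
      push_cast
      ring
    refine ⟨_, ?_, ?_, e1⟩
    · rw [e1]
      exact liou_exp (by linarith only [(hs t ht).1]) (by linarith only [(hs t ht).2]) hρ
        (by simp only [hκ]; linarith only [c1])
    · have := abs_le.1 hρ
      have h0 : (0 : ℝ) ≤ T / A l := div_nonneg (Nat.cast_nonneg _) (hA0 l).le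
      simp only [hκ]
      exact abs_le.2 ⟨by linarith only [c1, this], by linarith only [c2, this]⟩
  have hf0 : ∀ t ∈ E, ∀ l, 0 ≤ f t l := fun t ht l => by
    obtain ⟨y, h1, -⟩ := hdec t ht l
    exact_mod_cast h1
  set S := ∑ t ∈ E, (c t : K) * (ψ ^ s t *
    ∏ j, (pw K α (μ j) * algebraMap O K (u j) / algebraMap O K u0) ^ t j) with hS
  set N : O := ∑ t ∈ E, ((c t * ε ^ s t : ℤ) : O) * ((∏ l, α l ^ (f t l).toNat) *
    (u0 ^ (T - ∑ j, t j) * ∏ j, u j ^ t j)) with hN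
  have hNS : algebraMap O K N = S * (algebraMap O K u0 ^ T * pw K α κ) := by
    rw [hN, hS, map_sum, sum_mul]
    refine sum_congr rfl fun t ht => ?_
    have e2 : algebraMap O K u0 ^ T =
        algebraMap O K u0 ^ (T - ∑ j, t j) * ∏ j, algebraMap O K u0 ^ t j := by
      rw [prod_pow_eq_pow_sum, ← pow_add, Nat.sub_add_cancel (hsum t ht)]
    have e3 : ∏ j, algebraMap O K u0 ^ t j ≠ 0 := prod_ne_zero_iff.2 fun j _ => pow_ne_zero _ hu0K
    rw [map_mul, map_mul, liou_nat K α _ (hf0 t ht), map_intCast, e2, hf]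
    beta_reduce
    rw [liou_add K G.ne, liou_add K G.ne, liou_pow, liou_sum K G.ne, hψ]
    simp only [map_mul, map_pow, map_prod, div_pow, mul_pow, prod_div_distrib, prod_mul_distrib]
    push_cast
    field_simp
  by_contra hne
  have hN0 : N ≠ 0 := fun h0 => by
    rw [h0, map_zero] at hNS
    exact mul_ne_zero hne (mul_ne_zero (pow_ne_zero _ hu0K) (kill_pw_ne K G.ne κ)) hNS.symm
  have hdvd : π ^ r ∣ N := by
    obtain ⟨a, b', hb', hab⟩ := hv
    have e4 : pw K α κ * algebraMap O K (∏ l, α l ^ (|κ l|).toNat) =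
        algebraMap O K (∏ l, α l ^ (κ l + |κ l|).toNat) := by
      rw [liou_nat K α _ fun l => abs_nonneg _, liou_nat K α (fun l => κ l + |κ l|) fun l => by
        linarith only [neg_abs_le (κ l)], liou_add K G.ne]
    have e5 : N * (b' * ∏ l, α l ^ (|κ l|).toNat) =
        π ^ r * (a * u0 ^ T * ∏ l, α l ^ (κ l + |κ l|).toNat) := by
      apply inj
      rw [map_mul, map_mul, hNS, ← mul_assoc (π ^ r), ← mul_assoc (π ^ r), map_mul, map_mul,
        ← hab, ← e4, map_pow]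
      ring
    refine hπ.pow_dvd_of_dvd_mul_right r (fun hd => ?_) ⟨_, e5⟩
    rcases hπ.dvd_or_dvd hd with h1 | h1
    · exact hb' h1
    · obtain ⟨l, -, hl⟩ := (hπ.dvd_finsetProd_iff _).1 h1
      exact hα l (hπ.dvd_of_dvd_pow hl)
  set Gw : V → ℝ := fun w => len * max (∑ l, (b l : ℝ) * Real.log (D.σ w (α l))) 0 +
    len * ∑ l, max (-(b l : ℝ)) 0 * Real.log (D.σ w (α l)) +
    ∑ l, (2 * (T / A l) + 1) * |Real.log (D.σ w (α l))| with hG
  have hCc : 0 ≤ Cc := (sum_nonneg fun _ _ => abs_nonneg _).trans hc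
  have hw : ∀ w, |D.σ w N| ≤ Cc * B ^ T * Real.exp (Gw w) := by
    intro w
    have hB' : 0 ≤ B := (abs_nonneg _).trans (hB0 w)
    rw [hN, map_sum, mul_assoc]
    refine (abs_sum_le_sum_abs _ _).trans (le_trans ?_ (mul_le_mul_of_nonneg_right hc
      (mul_nonneg (pow_nonneg hB' _) (Real.exp_pos _).le)))
    rw [sum_mul]
    refine sum_le_sum fun t ht => ?_
    have b1 : |D.σ w (u0 ^ (T - ∑ j, t j) * ∏ j, u j ^ t j)| ≤ B ^ T := by
      rw [map_mul, map_pow, map_prod, abs_mul, abs_pow, abs_prod]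
      calc _ ≤ B ^ (T - ∑ j, t j) * ∏ j, B ^ t j :=
            mul_le_mul (pow_le_pow_left₀ (abs_nonneg _) (hB0 w) _)
              (prod_le_prod (fun _ _ => abs_nonneg _) fun j _ => by
                rw [map_pow, abs_pow]
                exact pow_le_pow_left₀ (abs_nonneg _) (hB j w) _)
              (prod_nonneg fun _ _ => abs_nonneg _) (pow_nonneg hB' _)
        _ = B ^ T := by rw [prod_pow_eq_pow_sum, ← pow_add, Nat.sub_add_cancel (hsum t ht)]
    have b2 : |D.σ w (∏ l, α l ^ (f t l).toNat)| ≤ Real.exp (Gw w) := by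
      rw [D.Fn_abs G.ne]
      refine Real.exp_le_exp.2 ?_
      choose y hy using hdec t ht
      have e6 : ∑ l, (((f t l).toNat : ℕ) : ℝ) * Real.log (D.σ w (α l)) =
          (s t - ∑ j, t j * τ j - lo) * ∑ l, (b l : ℝ) * Real.log (D.σ w (α l)) +
          len * ∑ l, max (-(b l : ℝ)) 0 * Real.log (D.σ w (α l)) +
          ∑ l, y l * Real.log (D.σ w (α l)) := by
        rw [mul_sum, mul_sum, ← sum_add_distrib, ← sum_add_distrib]
        refine sum_congr rfl fun l _ => ?_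
        rw [Fn_toNat, max_eq_left (hy l).1, (hy l).2.2]
        ring
      have b3 : ∑ l, y l * Real.log (D.σ w (α l)) ≤
          ∑ l, (2 * (T / A l) + 1) * |Real.log (D.σ w (α l))| :=
        sum_le_sum fun l _ => (le_abs_self _).trans (by
          rw [abs_mul]
          exact mul_le_mul_of_nonneg_right (hy l).2.1 (abs_nonneg _))
      have b4 : (s t - ∑ j, t j * τ j - lo) * ∑ l, (b l : ℝ) * Real.log (D.σ w (α l)) ≤
          len * max (∑ l, (b l : ℝ) * Real.log (D.σ w (α l))) 0 :=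
        (mul_le_mul_of_nonneg_left (le_max_left _ 0) (by linarith only [(hs t ht).1])).trans
          (mul_le_mul_of_nonneg_right (by linarith only [(hs t ht).2]) (le_max_right _ _))
      rw [e6, hG]
      beta_reduce
      linarith only [b3, b4]
    have b5 : |D.σ w ((c t * ε ^ s t : ℤ) : O)| = |(c t : ℝ)| := by
      have : |(ε : ℝ)| = 1 := by exact_mod_cast hε
      rw [map_intCast]
      push_cast
      rw [abs_mul, abs_pow, this, one_pow, mul_one]
    rw [map_mul, map_mul, abs_mul, abs_mul, b5, mul_comm (B ^ T)]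
    exact mul_le_mul_of_nonneg_left (mul_le_mul b2 b1 (abs_nonneg _) (Real.exp_pos _).le)
      (abs_nonneg _)
  have hGs : ∑ w, Gw w ≤ h * len + 3 * ∑ l, A l + 2 * T * n := by
    have g1 : ∑ w, ∑ l, max (-(b l : ℝ)) 0 * Real.log (D.σ w (α l)) =
        ∑ l, max (-(b l : ℝ)) 0 * Real.log (D.N (α l)) := by
      rw [sum_comm]
      exact sum_congr rfl fun l _ => by rw [D.Fn_logN (G.ne l), mul_sum]
    have g2 : ∑ w, ∑ l, (2 * (T / A l) + 1) * |Real.log (D.σ w (α l))| ≤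
        ∑ l : Fin n, (2 * (T : ℝ) + A l) := by
      rw [sum_comm]
      refine sum_le_sum fun l _ => ?_
      rw [← mul_sum]
      have h0 : (0 : ℝ) ≤ T / A l := div_nonneg (Nat.cast_nonneg _) (hA0 l).le
      refine (mul_le_mul_of_nonneg_left (G.sz l) (by linarith only [h0])).trans (le_of_eq ?_)
      have := (hA0 l).ne'
      field_simp
    have g3 := mul_le_mul_of_nonneg_left G.up hlen
    have g4 : 0 ≤ ∑ l, A l := sum_nonneg fun l _ => (hA0 l).le
    rw [sum_add_distrib, sum_const, card_univ, Fintype.card_fin, nsmul_eq_mul] at g2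
    unfold Dat.F at g3
    simp only [hG, sum_add_distrib, ← mul_sum]
    rw [g1]
    linarith only [g2, g3, g4]
  have hle : D.N N ≤ (Cc * B ^ T) ^ Fintype.card V *
      Real.exp (h * len + 3 * ∑ l, A l + 2 * T * n) := by
    obtain ⟨w0⟩ := Fintype.card_pos_iff.1 D.pos_card
    have hB' : 0 ≤ B := (abs_nonneg _).trans (hB0 w0)
    calc D.N N ≤ ∏ w, Cc * B ^ T * Real.exp (Gw w) :=
          prod_le_prod (fun _ _ => abs_nonneg _) fun w _ => hw w
      _ = (Cc * B ^ T) ^ Fintype.card V * Real.exp (∑ w, Gw w) := by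
          rw [prod_mul_distrib, prod_const, card_univ, Real.exp_sum]
      _ ≤ _ := mul_le_mul_of_nonneg_left (Real.exp_le_exp.2 hGs) (by positivity)
  have := D.N_le_of_dvd hdvd hN0
  rw [D.N_pow] at this
  linarith only [hbig, hle, this]
-- END Liou

-- BEGIN Phi
theorem phi_out {ψ : K} {c c' : ℝ} (h : Out ψ c) (hc : c ≤ c') : Out ψ c' := by
  obtain ⟨R, hR, k, hk, hd, hl⟩ := h
  exact ⟨R, hR, k, hk, hd, hl.trans (Real.exp_le_exp.2 (by gcongr))⟩

theorem phi_choose {e T : ℕ} {t : Fin e → ℕ} (ht : t ∈ Sx e T) (i : Fin e → ℕ) :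
    ∏ j, ((t j).choose (i j) : ℝ) ≤ Real.exp T := by
  have h1 : ∏ j, ((t j).choose (i j) : ℝ) ≤ ∏ j, Real.exp (t j) := by
    refine Finset.prod_le_prod (fun _ _ => by positivity) fun j _ => ?_
    have h2 : ((t j).choose (i j) : ℝ) ≤ 2 ^ t j := by exact_mod_cast Nat.choose_le_two_pow _ _
    refine h2.trans ?_
    rw [← Real.exp_one_pow]
    exact pow_le_pow_left₀ (by norm_num) (by linarith [Real.add_one_le_exp 1]) _
  refine h1.trans ?_
  rw [← Real.exp_sum]
  exact Real.exp_le_exp.2 (by exact_mod_cast mem_Sx.1 ht)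

theorem phi (σ : ℝ) (hσ : 0 < σ) (hσ1 : σ ≤ 1 / 8) (L : ℕ) (hL : 1 ≤ L) :
    ∃ e A0 : ℕ, ∃ C0 : ℝ, 1 ≤ e ∧ 1 ≤ A0 ∧ 1 ≤ C0 ∧
    ∀ {n : ℕ} {α : Fin n → O} {A : Fin n → ℝ} {b : Fin n → ℤ} {ψ : K} {h : ℝ},
      D.Gen K α A b ψ h → ∀ {π : O}, Prime π → (∀ l, ¬π ∣ α l) → ∀ T : ℕ, C0 ≤ T →
      Dv K π T (ψ - 1) → ∀ τ : Fin e → ℝ, (∀ j, 0 ≤ τ j) →
      (∀ (s : ℤ) (t : Fin e → ℤ), t ≠ 0 → (∀ j, |t j| ≤ A0) →
        (A0 : ℝ) / T < |s - ∑ j, t j * τ j|) →
      ∀ μ : Fin e → Fin n → ℤ, (∀ j l, |(μ j l : ℝ) + τ j * b l| * A l ≤ 1) →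
      ∀ (u0 : O) (u : Fin e → O), u0 ≠ 0 → (∀ j, u j ≠ 0) →
      (∀ j, Dv K π 1 (pw K α (μ j) * algebraMap O K (u j) / algebraMap O K u0 - 1)) →
      ∀ B : ℝ, (∀ w, |D.σ w u0| ≤ B) → (∀ j w, |D.σ w (u j)| ≤ B) →
      (Real.exp (6 * T) * B ^ T) ^ Fintype.card V *
        Real.exp (h / L + 3 * ∑ l, A l + 2 * T * n) < D.N π ^ ((1 - 2 * σ) * T) →
      Out ψ (C0 * T) := by
  obtain ⟨e, he, hcnt⟩ := cnt (σ / 2) (by positivity) L
  obtain ⟨A0, C, hA0, hC, hz⟩ := zed (K := K) e (σ / 2) 5 (by positivity) (by norm_num)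
  have h6 : 0 ≤ 6 / σ := by positivity
  have he0 : (0 : ℝ) ≤ e := by positivity
  refine ⟨e, A0, C + e + 6 / σ + 1, he, hA0, by linarith only [hC, h6], ?_⟩
  intro n α A b ψ h G π hπ hα T hT hψ τ hτ hdis μ hμ u0 u hu0 hu hη B hB0 hB hbig
  have hT1 : (1 : ℝ) ≤ T := by linarith only [hC, h6, hT]
  have hT1' : 1 ≤ T := by exact_mod_cast hT1
  have heT : e ≤ T := by exact_mod_cast (show (e : ℝ) ≤ T by linarith only [hC, h6, hT])
  have hσT : 6 ≤ σ * T := by
    have : 6 / σ ≤ T := by linarith only [hC, hT]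
    rwa [div_le_iff₀' hσ] at this
  set m := ⌊σ * T⌋₊ with hm
  have hm1 : (m : ℝ) ≤ σ * T := Nat.floor_le (by positivity)
  have hm2 : σ * T < m + 1 := Nat.lt_floor_add_one _
  have hm6 : 6 ≤ m := Nat.le_floor (by exact_mod_cast hσT)
  have hm8 : 8 * m ≤ T := by
    have : (8 : ℝ) * m ≤ T := by nlinarith only [hσ1, hm1]
    exact_mod_cast this
  let s : (Fin e → ℕ) → ℕ := fun t => ⌊∑ j, (t j : ℝ) * τ j⌋₊ + 1
  have hs0 : ∀ t : Fin e → ℕ, 0 ≤ ∑ j, (t j : ℝ) * τ j := fun t =>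
    Finset.sum_nonneg fun j _ => mul_nonneg (by positivity) (hτ j)
  obtain ⟨E, hE, M, lo, hM0, hx, hn, hM⟩ := sieg e T (T - m) L heT hT1' hL
    (hcnt T (T - m) heT (by rw [Nat.cast_sub (by omega)]; linarith only [hσT, hm2]))
    (fun t => (s t : ℝ) - ∑ j, (t j : ℝ) * τ j) (fun t => by
      have h1 := Nat.floor_le (hs0 t)
      have h2 := Nat.lt_floor_add_one (∑ j, (t j : ℝ) * τ j)
      simp only [s]
      push_cast
      constructor <;> linarith only [h2, h1])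
  have hL1 : (1 : ℝ) ≤ L := by exact_mod_cast hL
  let η : Fin e → K := fun j => pw K α (μ j) * algebraMap O K (u j) / algebraMap O K u0
  have hinj := IsFractionRing.injective O K
  have hη0 : ∀ j, η j ≠ 0 := fun j =>
    div_ne_zero (mul_ne_zero (kill_pw_ne K G.ne _) ((map_ne_zero_iff _ hinj).2 (hu j)))
      ((map_ne_zero_iff _ hinj).2 hu0)
  have hN : 1 ≤ D.N π := D.one_le_N hπ.ne_zero
  obtain ⟨P, hP⟩ := aux_st (m := m) E hE M hM0 hn s τ lo hT1'
    (fun t ht => ⟨(hx t ht).1, (hx t ht).2.trans (by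
      have : 1 / (L : ℝ) ≤ 1 := by rw [div_le_one (by linarith only [hσ, hσ1, hL1])]; exact hL1
      linarith only [this])⟩) ψ η hη0 (fun i hi => by
      refine liou D K G hπ hα T (T - 2 * m) E hE s τ lo (1 / L) (by positivity) hx μ hμ u0 u hu0 B
        hB0 hB (fun t => M t * ∏ j, ((t j).choose (i j) : ℤ)) (Real.exp (6 * T)) ?_ ?_
        (loc K hπ ψ η T hψ hη E M s (T - m) hM i (T - 2 * m) (by omega) (by omega))
      · calc ∑ t ∈ E, |((M t * ∏ j, ((t j).choose (i j) : ℤ) : ℤ) : ℝ)|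
            ≤ ∑ t ∈ E, |(M t : ℝ)| * Real.exp T := by
              refine Finset.sum_le_sum fun t ht => ?_
              push_cast
              rw [abs_mul, abs_of_nonneg (a := ∏ j, ((t j).choose (i j) : ℝ)) (by positivity)]
              exact mul_le_mul_of_nonneg_left (phi_choose (hE ht) i) (abs_nonneg _)
          _ ≤ Real.exp (5 * T) * Real.exp T := by
              rw [← Finset.sum_mul]
              gcongr
          _ = Real.exp (6 * T) := by rw [← Real.exp_add]; ring_nf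
      · rw [mul_one_div]
        refine hbig.trans_le ?_
        rw [← Real.rpow_natCast]
        refine Real.rpow_le_rpow_of_exponent_le hN ?_
        rw [Nat.cast_sub (by omega)]
        push_cast
        linarith only [hm1])
  have hψ' : (Fin.snoc η ψ : Fin (e + 1) → K) (Fin.last e) = ψ := Fin.snoc_last _ _
  have hout := hz _ _ m T m (1 / T) P hP (fun j hj => by
      obtain ⟨j, rfl⟩ := Fin.exists_castSucc_eq.2 hj
      rw [Fin.snoc_castSucc]
      exact hη0 j) (by positivity) (fun t ht hA => by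
      have := hdis (t (Fin.last e)) (fun j => t j.castSucc) (by
        obtain ⟨j, hj, h0⟩ := ht
        obtain ⟨j, rfl⟩ := Fin.exists_castSucc_eq.2 hj
        exact fun h => h0 (congrFun h j)) (fun j => by
        exact_mod_cast hA j.castSucc (Fin.castSucc_ne_last j))
      rw [mul_one_div, Fin.sum_univ_castSucc]
      simp only [Fin.snoc_castSucc, Fin.snoc_last, mul_neg, Finset.sum_neg_distrib, mul_one]
      rwa [neg_add_eq_sub]) (by omega) hm6 (by omega) (by linarith only [hσT, hm2])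
  rw [hψ'] at hout
  refine phi_out K hout ?_
  have : (m : ℝ) ≤ T := by exact_mod_cast (show m ≤ T by omega)
  have : (0 : ℝ) ≤ m := by positivity
  nlinarith
-- END Phi

-- BEGIN Kill
theorem kill_dv {n : ℕ} {α : Fin n → O} (h0 : ∀ j, α j ≠ 0) (b : Fin n → ℤ) {π : O}
    (hπ : Prime π) (hα : ∀ l, ¬π ∣ α l) {x x' : ℝ} (hx : x ∈ Set.Icc (0 : ℝ) 1)
    (hx' : x' ∈ Set.Icc (0 : ℝ) 1) {u u' : O} (hu' : ¬π ∣ u')
    (hd : π ∣ (∏ j, α j ^ (fl b x j + |b j|).toNat) * u -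
      (∏ j, α j ^ (fl b x' j + |b j|).toNat) * u') :
    Dv K π 1 (pw K α (fun l => fl b x l - fl b x' l) * algebraMap O K u / algebraMap O K u' - 1) := by
  obtain ⟨a, ha⟩ := hd
  refine ⟨a, (∏ j, α j ^ (fl b x' j + |b j|).toNat) * u', fun e => ?_, ?_⟩
  · rcases hπ.dvd_or_dvd e with e | e
    · obtain ⟨j, _, hj⟩ := hπ.exists_mem_finset_dvd e
      exact hα j (hπ.dvd_of_dvd_pow hj)
    · exact hu' e
  · have e1 := kill_pw_comb K h0 (fl b x) 0 (fl b x') 1 0
    simp only [one_mul, zero_mul, add_zero, zpow_one, zpow_zero, mul_one] at e1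
    have hu0 : algebraMap O K u' ≠ 0 :=
      (map_ne_zero_iff _ (IsFractionRing.injective O K)).2 fun e => hu' (e ▸ dvd_zero π)
    have := kill_pw_ne K h0 (fl b x')
    rw [pow_one, ← ha, e1, map_sub, map_mul, map_mul, fin_pw K h0 b hx, fin_pw K h0 b hx']
    field_simp

theorem kill_num {a T κ s c : ℝ} (ha : 1 ≤ a) (hT : 2 * a < T) (hκ : 1 ≤ |κ|) (hc : |κ| ≤ c)
    (hcT : 4 * a * c ≤ T) (hs : s = 0 ∨ 1 ≤ |s|) : a / T < |s - κ * (2 * a / T)| := by
  have hT0 : 0 < T := by linarith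
  have hθ : 0 < 2 * a / T := by positivity
  have e : |κ * (2 * a / T)| = |κ| * (2 * a / T) := by rw [abs_mul, abs_of_pos hθ]
  have e2 : 2 * a / T = 2 * (a / T) := by ring
  have h1 : 0 < a / T := by positivity
  rcases hs with rfl | hs
  · rw [zero_sub, abs_neg, e]
    nlinarith only [hκ, e2, h1]
  · have h2 : a / T < 1 / 2 := by rw [div_lt_iff₀ hT0]; linarith only [hT]
    have h3 : c * (2 * a / T) ≤ 1 / 2 := by
      rw [← mul_div_assoc, div_le_iff₀ hT0]; linarith only [hcT]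
    have h4 := abs_sub_abs_le_abs_sub s (κ * (2 * a / T))
    have h5 := mul_le_mul_of_nonneg_right hc hθ.le
    linarith

theorem kill (σ : ℝ) (hσ : 0 < σ) (hσ1 : σ ≤ 1 / 8) (L : ℕ) (hL : 1 ≤ L) :
    ∃ C0 : ℝ, 1 ≤ C0 ∧
    ∀ {n : ℕ} {α : Fin n → O} {A : Fin n → ℝ} {b : Fin n → ℤ} {ψ : K} {h : ℝ},
      D.Gen K α A b ψ h → ∀ {π : O}, Prime π → (∀ l, ¬π ∣ α l) → ∀ T : ℕ, C0 ≤ T →
      Dv K π T (ψ - 1) → ∀ (W : Finset O) (B : ℝ), (∀ u ∈ W, ¬π ∣ u ∧ ∀ w, |D.σ w u| ≤ B) →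
      (∀ u ∈ W, ∀ u' ∈ W, π ∣ u - u' → u = u') →
      (Real.exp (6 * T) * B ^ T) ^ Fintype.card V *
        Real.exp (h / L + 3 * ∑ l, A l + 2 * T * n) < D.N π ^ ((1 - 2 * σ) * T) →
      Out ψ (C0 * T) ∨ (T : ℝ) * W.card ≤ C0 * D.N π * ∏ l, (2 * A l) := by
  classical
  obtain ⟨e, A0, C0, he, hA0, hC0, H⟩ := phi D K σ hσ hσ1 L hL
  obtain ⟨c, hc⟩ : ∃ c : ℕ, c = 4 * e * A0 ^ 2 := ⟨_, rfl⟩
  obtain ⟨J, hJ⟩ : ∃ J : ℕ, J = (2 * A0 + 1) ^ e := ⟨_, rfl⟩
  have hJ1 : (1 : ℝ) ≤ J := by exact_mod_cast hJ ▸ Nat.one_le_pow _ _ (Nat.succ_pos _)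
  have hcA : 4 * A0 ≤ c := by
    rw [hc]; linarith only [Nat.mul_le_mul he (Nat.mul_le_mul_left A0 hA0)]
  have hc0 : 0 < c := by omega
  have hc0' : (0 : ℝ) < c := by exact_mod_cast hc0
  have hcJ : (c : ℝ) ≤ 2 * c * J := by nlinarith only [hJ1]
  refine ⟨C0 + 2 * c * J, by linarith only [hC0, hc0', hcJ], ?_⟩
  intro n α A b ψ h G π hπ hα T hT hψ W B hW hW1 hbig
  refine or_iff_not_imp_right.2 fun hlt => ?_
  have hcT : c ≤ T := by exact_mod_cast (by linarith only [hσ, hσ1, hC0, hcJ, hT] : (c : ℝ) ≤ T)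
  obtain ⟨I, hI⟩ : ∃ I : ℕ, I = T / c := ⟨_, rfl⟩
  have hI1 : c * I ≤ T := hI ▸ Nat.mul_div_le T c
  have hI2 : T ≤ 2 * c * I := by
    have h1 : T < c * (I + 1) := hI ▸ Nat.lt_mul_div_succ T hc0
    have h2 : 0 < I := hI ▸ Nat.div_pos hcT hc0
    nlinarith only [h1, h2]
  have hA1 : (1 : ℝ) ≤ A0 := by exact_mod_cast hA0
  have hAT : (4 : ℝ) * A0 ≤ T := by exact_mod_cast hcA.trans hcT
  have hT0 : (0 : ℝ) < T := by linarith only [hσ, hσ1, hA1, hAT]
  obtain ⟨θ, hθ⟩ : ∃ θ : ℝ, θ = 2 * A0 / T := ⟨_, rfl⟩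
  have hθ0 : 0 < θ := by rw [hθ]; positivity
  have hθI : I * θ ≤ 1 := by
    have : (4 : ℝ) * A0 * I ≤ T := by exact_mod_cast (Nat.mul_le_mul_right I hcA).trans hI1
    rw [hθ, ← mul_div_assoc, div_le_one hT0]
    linarith only [this]
  have hcard : (Nat.card (O ⧸ Ideal.span {π}) : ℝ) = D.N π := D.card_quot π hπ.ne_zero
  have hN := D.N_pos hπ.ne_zero
  have hfin : Finite (O ⧸ Ideal.span {π}) := Nat.finite_of_card_ne_zero fun e => by
    rw [← hcard, e] at hN
    norm_num at hN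
  have := Fintype.ofFinite (O ⧸ Ideal.span {π})
  have hP : 0 ≤ ∏ l, (2 * A l) := prod_nonneg fun l _ => by linarith only [G.one_le l, hσ, hσ1]
  obtain ⟨S, hSX, hJS, hS⟩ := pig A G.one_le b ((range I).image fun i : ℕ => (i : ℝ) * θ) W univ
    (fun t u => Ideal.Quotient.mk (Ideal.span {π}) ((∏ j, α j ^ (fl b t j + |b j|).toNat) * u))
    (fun _ _ _ _ => mem_univ _) J (by
      rw [card_univ, ← Nat.card_eq_fintype_card, hcard, card_image_of_injective _
        (fun i j hij => by exact_mod_cast mul_right_cancel₀ hθ0.ne' hij), card_range]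
      have h1 : (T : ℝ) * W.card ≤ 2 * c * I * W.card :=
        mul_le_mul_of_nonneg_right (by exact_mod_cast hI2) (Nat.cast_nonneg _)
      have h2 : 0 ≤ C0 * D.N π * ∏ l, (2 * A l) := by positivity
      refine lt_of_mul_lt_mul_left ?_ (by positivity : (0 : ℝ) ≤ 2 * c)
      linarith only [hlt, h1, h2])
  obtain ⟨p0, hp0, hmax⟩ := exists_max_image S Prod.fst (card_pos.1 (by omega))
  have hX : ∀ p ∈ S, ∃ i : ℕ, i < I ∧ i * θ = p.1 := fun p hp => by
    simpa only [mem_image, mem_range] using (mem_product.1 (hSX hp)).1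
  have hWp : ∀ p ∈ S, p.2 ∈ W := fun p hp => (mem_product.1 (hSX hp)).2
  have hx : ∀ p ∈ S, p.1 ∈ Set.Icc (0 : ℝ) 1 := fun p hp => by
    obtain ⟨i, hi, e⟩ := hX p hp
    have : (i : ℝ) ≤ I := by exact_mod_cast hi.le
    rw [← e]
    exact ⟨by positivity, (mul_le_mul_of_nonneg_right this hθ0.le).trans hθI⟩
  have hk : ∀ p ∈ S, ∃ k : ℤ, 0 ≤ k ∧ k ≤ I ∧ p0.1 - p.1 = k * θ := fun p hp => by
    obtain ⟨i, hi, e⟩ := hX p hp
    obtain ⟨i0, hi0, e0⟩ := hX p0 hp0
    have h1 := hmax p hp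
    rw [← e, ← e0] at h1 ⊢
    have h2 : i ≤ i0 := by exact_mod_cast le_of_mul_le_mul_right h1 hθ0
    exact ⟨i0 - i, by omega, by omega, by push_cast; ring⟩
  choose! k hk0 hkI hk using hk
  have hd := fun p hp q hq => Ideal.mem_span_singleton.1 (Ideal.Quotient.eq.1 (hS p hp q hq).1)
  have hinj : Set.InjOn k S := fun p hp q hq e => by
    have h1 : p.1 = q.1 := by linarith only [hk p hp, hk q hq, show (k p : ℝ) * θ = k q * θ by rw [e]]
    have h2 := hd p hp q hq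
    rw [h1, ← mul_sub] at h2
    refine Prod.ext h1 (hW1 _ (hWp p hp) _ (hWp q hq) ((hπ.dvd_or_dvd h2).resolve_left fun h3 => ?_))
    obtain ⟨j, _, hj⟩ := hπ.exists_mem_finset_dvd h3
    exact hα j (hπ.dvd_of_dvd_pow hj)
  obtain ⟨κ, hκ, hdis⟩ := dss e A0 (S.image k) (by rw [card_image_of_injOn hinj, ← hJ]; exact hJS)
  choose p hp hpk using fun j => mem_image.1 (hκ j)
  have hne : ∀ q ∈ S, q.2 ≠ 0 := fun q hq e => (hW _ (hWp q hq)).1 (e ▸ dvd_zero π)
  obtain ⟨R, hR, r, hr, hdv, hle⟩ := H G hπ hα T (by linarith only [hc0', hcJ, hT]) hψ (fun j => κ j * θ)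
    (fun j => mul_nonneg (by exact_mod_cast hpk j ▸ hk0 _ (hp j)) hθ0.le) (fun s t ht hb => by
      have e1 : ∑ j, (t j : ℝ) * (κ j * θ) = ((∑ j, κ j * t j : ℤ) : ℝ) * (2 * A0 / T) := by
        rw [← hθ, Int.cast_sum, sum_mul]
        exact sum_congr rfl fun j _ => by push_cast; ring
      have e2 : |∑ j, κ j * t j| ≤ e * (I * A0) := (abs_sum_le_sum_abs _ _).trans (by
        refine (sum_le_card_nsmul _ _ ((I : ℤ) * A0) fun j _ => ?_).trans (by simp only [card_univ, Fintype.card_fin, Int.nsmul_eq_mul, Std.le_refl])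
        rw [abs_mul, ← hpk j, abs_of_nonneg (hk0 _ (hp j))]
        exact mul_le_mul (hkI _ (hp j)) (hb j) (abs_nonneg _) (Nat.cast_nonneg _))
      rw [e1]
      refine kill_num (c := e * (I * A0)) hA1 (by linarith only [hσ, hσ1, hA1, hAT])
        (by exact_mod_cast Int.one_le_abs (hdis t ht hb)) (by exact_mod_cast e2) ?_ ?_
      · have : ((4 * e * A0 ^ 2 * I : ℕ) : ℝ) ≤ T := by exact_mod_cast hc ▸ hI1
        push_cast at this
        linarith only [this]
      · exact (eq_or_ne s 0).imp (fun e => by simp [e]) fun e => by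
          exact_mod_cast Int.one_le_abs e)
    (fun j l => fl b (p j).1 l - fl b p0.1 l) (fun j l => by
      have := (hS _ (hp j) _ hp0).2 l
      rwa [← neg_sub p0.1, hk _ (hp j), hpk j, neg_mul, sub_neg_eq_add] at this)
    p0.2 (fun j => (p j).2) (hne _ hp0) (fun j => hne _ (hp j))
    (fun j => kill_dv K G.ne b hπ hα (hx _ (hp j)) (hx _ hp0) (hW _ (hWp _ hp0)).1
      (hd _ (hp j) _ hp0)) B (hW _ (hWp _ hp0)).2 (fun j => (hW _ (hWp _ (hp j))).2) hbig
  refine ⟨R, hR, r, hr, hdv, hle.trans (Real.exp_le_exp.2 ?_)⟩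
  gcongr
  linarith only [hc0', hcJ]
-- END Kill

include K

-- BEGIN Big
omit K in
theorem big_g {σ l d c : ℝ} (hσ : 0 < σ) (hl : 0 ≤ l) (hd : 0 ≤ d) (hc : 0 ≤ c) :
    ∃ g₀ : ℝ, c ≤ g₀ ∧ 8 * l ≤ σ * g₀ ∧ 12 * d ≤ σ * g₀ := by
  have e : σ * ((8 * l + 12 * d) / σ) = 8 * l + 12 * d := mul_div_cancel₀ _ hσ.ne'
  have h1 : 0 ≤ (8 * l + 12 * d) / σ := by positivity
  have h2 : 0 ≤ σ * c := by positivity
  exact ⟨c + (8 * l + 12 * d) / σ, by linarith only [h1], by linarith only [hd, e, h2], by linarith⟩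

omit K in
theorem big_lt {σ g B h r : ℝ} {T d n : ℕ} (hσ : 0 < σ) (hg : 0 < g) (hB : 0 ≤ B)
    (h1 : B ^ d ≤ Real.exp ((1 - 6 * σ) * g)) (h2 : 6 * (d : ℝ) + 2 * n ≤ σ * g)
    (h3 : h ≤ σ * (T * g)) (h4 : r < σ * (T * g)) :
    (Real.exp (6 * T) * B ^ T) ^ d * Real.exp (h + r + 2 * T * n) <
      Real.exp g ^ ((1 - 2 * σ) * T) := by
  have hT : (0 : ℝ) ≤ T := Nat.cast_nonneg _
  have h5 : (B ^ T) ^ d ≤ Real.exp (T * ((1 - 6 * σ) * g)) := by
    rw [← pow_mul, mul_comm T d, pow_mul, Real.exp_nat_mul]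
    exact pow_le_pow_left₀ (pow_nonneg hB _) h1 _
  rw [mul_pow, ← Real.exp_nat_mul, ← Real.exp_mul]
  calc _ ≤ Real.exp (d * (6 * T)) * Real.exp (T * ((1 - 6 * σ) * g)) *
        Real.exp (h + r + 2 * T * n) := by gcongr
    _ < _ := by
      rw [← Real.exp_add, ← Real.exp_add]
      refine Real.exp_lt_exp.2 ?_
      have h6 : 0 ≤ σ * (T * g) := by positivity
      linarith [mul_le_mul_of_nonneg_left h2 hT]

theorem big (δ ε : ℝ) (hδ : 0 < δ) (hδ1 : δ ≤ 1 / 2) (hε : 0 < ε) :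
    ∃ C : ℝ, 1 ≤ C ∧ ∀ x y z : O, x + y + z = 0 → IsCoprime y z → x * y * z ≠ 0 →
      Real.log (D.ht x y z) ≤ 2 * Real.log (D.N z) →
      ∀ p ∈ primeFactors x, δ * Real.log (D.ht x y z) ≤
        ((normalizedFactors x).count p : ℝ) * Real.log (D.N p) →
      D.rad (x * y * z) ^ ε ≤ D.N p →
      Real.log (D.ht x y z) ≤ C * D.N p ^ ε * D.rad (x * y * z) ^ ε := by
  obtain ⟨σ, hσ, hσ8, hσε⟩ : ∃ σ : ℝ, 0 < σ ∧ σ ≤ 1 / 8 ∧ 8 * σ ≤ ε :=
    ⟨min (ε / 8) (1 / 8), by positivity, min_le_right _ _, by linarith only [min_le_left (ε / 8) (1 / 8)]⟩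
  have hσδ : 0 < σ * δ := by positivity
  obtain ⟨L, hL1, hL⟩ : ∃ L : ℕ, 1 ≤ L ∧ 1 / (L : ℝ) ≤ σ * δ := by
    have h1 : 1 ≤ ⌈1 / (σ * δ)⌉₊ := Nat.ceil_pos.2 (by positivity)
    exact ⟨_, h1, (one_div_le (by exact_mod_cast h1) hσδ).2 (Nat.le_ceil _)⟩
  obtain ⟨C₀, hC₀, H₀⟩ := kill D K σ hσ hσ8 L hL1
  obtain ⟨C₁, hC₁, H₁⟩ := D.small_part K δ ε hδ hδ1 hε
  obtain ⟨C₂, hC₂, H₂⟩ := D.setup K 3 (ε * (σ / 8)) (by norm_num) (by positivity)
  obtain ⟨d, hd⟩ : ∃ d : ℝ, d = (Fintype.card V : ℕ) := ⟨_, rfl⟩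
  have hd0 : 0 ≤ d := hd ▸ Nat.cast_nonneg _
  have hc := D.one_le_c
  obtain ⟨g₀, hg1, hg2, hg3⟩ := big_g hσ (Real.log_nonneg hC₂) hd0
    (show 0 ≤ 2 * d * C₀ by positivity)
  obtain ⟨C, hC, b1, b2, b3⟩ : ∃ C : ℝ, 1 ≤ C ∧ C₁ * Real.exp g₀ ≤ C ∧ 2 * d ≤ C ∧
      3 * (D.c * C₀ * C₂) / (σ * δ) ≤ C := by
    refine ⟨1 + C₁ * Real.exp g₀ + 2 * d + 3 * (D.c * C₀ * C₂) / (σ * δ), ?_, ?_, ?_, ?_⟩ <;>
    · have : 0 ≤ C₁ * Real.exp g₀ := by positivity
      have : 0 ≤ 3 * (D.c * C₀ * C₂) / (σ * δ) := by positivity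
      linarith
  refine ⟨C, hC, fun x y z hs hyz h0 hNz p hp hlo hR => ?_⟩
  have hx : x ≠ 0 := left_ne_zero_of_mul (left_ne_zero_of_mul h0)
  have hy : y ≠ 0 := right_ne_zero_of_mul (left_ne_zero_of_mul h0)
  have hz : z ≠ 0 := right_ne_zero_of_mul h0
  have hpp := prime_of_mem hp
  obtain ⟨t1, t2, t3, t4⟩ := D.m2_ht hs hz
  have hxe : x = -y - z := by linear_combination hs
  have hxz : IsCoprime x z := by
    have := (hyz.neg_left).add_mul_left_left (-1)
    rwa [show -y + z * -1 = x by rw [hxe]; ring] at this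
  have hxy : IsCoprime x y := by
    have := (hyz.symm.neg_left).add_mul_left_left (-1)
    rwa [show -z + y * -1 = x by rw [hxe]; ring] at this
  have hR1 := D.one_le_rad (x * y * z)
  have hRR : D.rad (y * z) ≤ D.rad (x * y * z) := by
    rw [mul_assoc, D.rad_mul (hxy.mul_right hxz)]
    exact le_mul_of_one_le_left (le_trans zero_le_one (D.one_le_rad _)) (D.one_le_rad _)
  have hN2 := D.two_le_N hpp
  have hdvd : p ^ (normalizedFactors x).count p ∣ x := by
    refine dvd_trans ?_ (prod_normalizedFactors hx).dvd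
    rw [← Multiset.prod_replicate]
    exact Multiset.prod_dvd_prod_of_le (Multiset.le_count_iff_replicate_le.1 le_rfl)
  have hv1 : 1 ≤ (normalizedFactors x).count p :=
    Multiset.one_le_count_iff_mem.2 (mem_primeFactors.1 hp)
  have H₁' := H₁ x y z hs hyz h0 {p} (Finset.singleton_subset_iff.2 hp)
  rw [Finset.sum_singleton, Finset.prod_singleton] at H₁'
  generalize (normalizedFactors x).count p = T at *
  have hcop : ∀ a : O, IsCoprime x a → ¬p ∣ a := fun a ha hd =>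
    hpp.not_unit (ha.isUnit_of_dvd' ((dvd_pow_self p (by omega)).trans hdvd) hd)
  have hhi : T * Real.log (D.N p) ≤ Real.log (D.ht x y z) := by
    rw [← Real.log_pow, ← D.N_pow]
    exact Real.log_le_log (D.N_pos (pow_ne_zero _ hpp.ne_zero)) ((D.N_le_of_dvd hdvd hx).trans t1)
  have hh0 : 0 ≤ Real.log (D.ht x y z) := Real.log_nonneg (t4.trans t2)
  have hup : Real.log (D.Hm y z) ≤ Real.log (D.ht x y z) := Real.log_le_log (by linarith only [hσ, hσ8, t4]) t2
  have hdn : Real.log (D.ht x y z) ≤ d + Real.log (D.Hm y z) := by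
    have h1 := Real.log_le_log (by linarith only [hσ, hσ8, t2, t4]) t3
    rw [Real.log_mul (by positivity) (by linarith only [hσ, hσ8, t4]), Real.log_pow, ← hd] at h1
    have h2 : Real.log 2 ≤ 1 := by linarith only [Real.log_le_sub_one_of_pos (show (0 : ℝ) < 2 by norm_num)]
    linarith only [h1, mul_le_mul_of_nonneg_left h2 hd0]
  have H₂' := H₂ y z hy hz hyz _ hup
  generalize Real.log (D.ht x y z) = h at *
  generalize D.rad (x * y * z) = R at *
  have hN0 : 0 < D.N p := by linarith only [hN2]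
  obtain ⟨g, hg⟩ : ∃ g, g = Real.log (D.N p) := ⟨_, rfl⟩
  have hNg : D.N p = Real.exp g := by rw [hg, Real.exp_log hN0]
  have hg0 : 0 < g := hg ▸ Real.log_pos (by linarith only [hN2])
  rw [← hg] at hlo hhi H₁'
  have hP1 : 1 ≤ D.N p ^ ε := Real.one_le_rpow (by linarith only [hN2]) hε.le
  have hP2 : 1 ≤ R ^ ε := Real.one_le_rpow hR1 hε.le
  have hP : 1 ≤ D.N p ^ ε * R ^ ε := one_le_mul_of_one_le_of_one_le hP1 hP2
  have hC0 : 0 ≤ C := zero_le_one.trans hC
  rw [mul_assoc]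
  by_cases c1 : g ≤ g₀
  · calc h ≤ C₁ * D.N p * R ^ ε := H₁' hlo
      _ ≤ C₁ * Real.exp g₀ * R ^ ε := by rw [hNg]; gcongr
      _ ≤ C * R ^ ε := by gcongr
      _ ≤ _ := mul_le_mul_of_nonneg_left (le_mul_of_one_le_left (zero_le_one.trans hP2) hP1) hC0
  by_cases c2 : h ≤ 2 * d
  · exact (c2.trans b2).trans (le_mul_of_one_le_right hC0 hP)
  push Not at c1 c2
  obtain ⟨n, α, A, b, G, hα, hA⟩ := H₂' (by linarith only [c2, hdn])
  have hA1 := G.one_le
  have hR0 : 0 < R := zero_lt_one.trans_le hR1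
  have a1 := mul_pos hσ hg0
  have a2 := mul_le_mul_of_nonneg_left c1.le hσ.le
  have hA2 : ∏ j, (3 * A j) ≤ C₂ * R ^ (ε * (σ / 8)) :=
    hA.trans (by gcongr; exact le_trans zero_le_one (D.one_le_rad _))
  have hA3 : ∏ j, (2 * A j) ≤ C₂ * R ^ ε := by
    calc ∏ j, (2 * A j) ≤ ∏ j, (3 * A j) :=
          Finset.prod_le_prod (fun j _ => by linarith only [hA1 j]) fun j _ => by
            linarith only [hA1 j]
      _ ≤ C₂ * R ^ (ε * (σ / 8)) := hA2
      _ ≤ _ := mul_le_mul_of_nonneg_left (Real.rpow_le_rpow_of_exponent_le hR1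
          (mul_le_of_le_one_right hε.le (by linarith only [hσ8]))) (zero_le_one.trans hC₂)
  have hn : 6 * d + 2 * (n : ℝ) ≤ σ * g := by
    have h1 : Real.exp n ≤ C₂ * R ^ (ε * (σ / 8)) := by
      refine le_trans ?_ hA2
      rw [← Real.exp_one_pow, ← Fin.prod_const]
      exact Finset.prod_le_prod (fun _ _ => (Real.exp_pos _).le) fun j _ => by
        linarith only [hA1 j, Real.exp_one_lt_d9]
    have h2 := Real.log_le_log (Real.exp_pos _) h1
    rw [Real.log_exp, Real.log_mul (by linarith only [hC₂]) (by positivity),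
      Real.log_rpow hR0] at h2
    have h3 := Real.log_le_log (by positivity) hR
    rw [Real.log_rpow hR0, ← hg] at h3
    linarith only [h2, hg2, hg3, a2, mul_le_mul_of_nonneg_left h3 hσ.le]
  have hNP : D.N p ^ ε = Real.exp (g * ε) := by rw [hNg, Real.exp_mul]
  have a3 := mul_le_mul_of_nonneg_left hσε hg0.le
  have a4 : σ * g ≤ Real.exp (σ * g) := by linarith only [Real.add_one_le_exp (σ * g)]
  have a5 : σ * δ * h ≤ σ * (T * g) := by
    rw [mul_assoc]
    exact mul_le_mul_of_nonneg_left hlo hσ.le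
  suffices key : σ * (T * g) ≤ 3 * (D.c * C₀ * C₂) * (D.N p ^ ε * R ^ ε) by
    refine le_of_mul_le_mul_left (a5.trans (key.trans ?_)) hσδ
    calc _ ≤ C * (σ * δ) * (D.N p ^ ε * R ^ ε) :=
          mul_le_mul_of_nonneg_right ((div_le_iff₀ hσδ).1 b3) (zero_le_one.trans hP)
      _ = _ := by ring
  by_cases c3 : C₀ ≤ T
  swap
  · have h1 : σ * g ≤ D.N p ^ ε := by
      rw [hNP]
      exact a4.trans (Real.exp_le_exp.2 (by linarith only [a1, a3]))
    calc σ * (T * g) = T * (σ * g) := by ring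
      _ ≤ C₀ * D.N p ^ ε := mul_le_mul (not_le.1 c3).le h1 a1.le (zero_le_one.trans hC₀)
      _ = 1 * (1 * C₀ * 1) * (D.N p ^ ε * 1) := by ring
      _ ≤ _ := by gcongr; norm_num
  by_cases c4 : 3 * ∑ j, A j < σ * (T * g)
  swap
  · have h1 := (m2_sum Finset.univ A hA1).trans hA3
    calc σ * (T * g) ≤ 3 * (1 * 1 * C₂) * (1 * R ^ ε) := by linarith only [h1, not_lt.1 c4]
      _ ≤ _ := by gcongr
  have hY : 1 ≤ Real.exp ((1 - 6 * σ) * g) :=
    Real.one_le_exp (mul_nonneg (by linarith only [hσ8]) hg0.le)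
  obtain ⟨W, B, hB, w1, w2, w3⟩ := D.many _ hY
  have hlt : 2 ^ Fintype.card V * Real.exp ((1 - 6 * σ) * g) < D.N p := by
    have h1 : (2 : ℝ) ^ Fintype.card V ≤ Real.exp d := by
      rw [hd, ← Real.exp_one_pow]
      exact pow_le_pow_left₀ (by norm_num) (by linarith only [Real.add_one_le_exp 1]) _
    calc _ ≤ Real.exp d * Real.exp ((1 - 6 * σ) * g) := by gcongr
      _ < _ := by
        rw [← Real.exp_add, hNg]
        exact Real.exp_lt_exp.2 (by linarith only [hg3, a1, a2])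
  have hnd : ∀ a : O, a ≠ 0 → (∀ w, |D.σ w a| ≤ 2 * B) → ¬p ∣ a := fun a ha hb hd => by
    have h1 := (D.N_le_of_dvd hd ha).trans (D.m2_N_le hb)
    rw [mul_pow] at h1
    have h2 : (2 : ℝ) ^ Fintype.card V * B ^ Fintype.card V ≤
      2 ^ Fintype.card V * Real.exp ((1 - 6 * σ) * g) := by gcongr
    linarith only [h1, h2, hlt]
  have hT0 : (0 : ℝ) < T := by exact_mod_cast hv1
  obtain ⟨a, ha⟩ := hdvd
  have hz' : algebraMap O K z ≠ 0 := fun e => hz (IsFractionRing.injective O K (by simpa using e))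
  have main := H₀ G hpp (fun l => hcop _ ((hxy.mul_right hxz).of_isCoprime_of_dvd_right (hα l))) T c3
    ⟨a, z, hcop z hxz, by rw [← ha, hxe, map_sub, map_neg, sub_mul, div_mul_cancel₀ _ hz', one_mul]⟩
    W B (fun u hu => ⟨hnd u (w3 u hu).1 fun w => by linarith only [(w3 u hu).2 w, hB], (w3 u hu).2⟩)
    (fun u hu u' hu' hd => by
      by_contra hne
      refine hnd _ (sub_ne_zero.2 hne) (fun w => ?_) hd
      rw [map_sub]
      linarith only [abs_sub (D.σ w u) (D.σ w u'), (w3 u hu).2 w, (w3 u' hu').2 w])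
    (by
      rw [hNg]
      refine big_lt hσ hg0 hB w1 (hd ▸ hn) (le_trans ?_ a5) c4
      rw [div_eq_mul_one_div, mul_comm]
      exact mul_le_mul_of_nonneg_right hL hh0)
  rcases main with main | main
  · have h1 := gau D K hz hyz main
    rw [← hd] at h1
    have h2 := mul_lt_mul_of_pos_left (hg1.trans_lt c1) hT0
    linarith only [h1, h2, hhi, hNz]
  refine le_of_mul_le_mul_right ?_ (Real.exp_pos ((1 - 6 * σ) * g))
  have h1 : σ * g * D.N p ≤ D.N p ^ ε * Real.exp ((1 - 6 * σ) * g) := by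
    rw [hNP, hNg, ← Real.exp_add]
    calc σ * g * Real.exp g ≤ Real.exp (σ * g) * Real.exp g := by gcongr
      _ ≤ _ := by
        rw [← Real.exp_add]
        exact Real.exp_le_exp.2 (by linarith only [a1, a3])
  calc σ * (T * g) * Real.exp ((1 - 6 * σ) * g) ≤ σ * (T * g) * (D.c * W.card) := by gcongr
    _ = σ * g * D.c * (T * W.card) := by ring
    _ ≤ σ * g * D.c * (C₀ * D.N p * ∏ j, (2 * A j)) := by gcongr
    _ ≤ σ * g * D.c * (C₀ * D.N p * (C₂ * R ^ ε)) := by gcongr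
    _ = 1 * (D.c * C₀ * C₂) * R ^ ε * (σ * g * D.N p) := by ring
    _ ≤ 3 * (D.c * C₀ * C₂) * R ^ ε * (D.N p ^ ε * Real.exp ((1 - 6 * σ) * g)) := by
      gcongr; norm_num
    _ = _ := by ring
-- END Big

-- BEGIN Main
omit K in
theorem main_mid {ι : Type*} [DecidableEq ι] (l : ι → ℝ) (lam : ℝ) (P : Finset ι)
    (hl : ∀ p ∈ P, l p ≤ lam) (h0 : 0 ≤ lam) (h : lam ≤ ∑ p ∈ P, l p) :
    ∃ S ⊆ P, lam ≤ ∑ p ∈ S, l p ∧ ∑ p ∈ S, l p ≤ 2 * lam := by
  induction P using Finset.induction_on with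
  | empty => exact ⟨∅, subset_rfl, h, by rw [sum_empty]; linarith⟩
  | insert a s ha ih =>
    rcases le_total lam (∑ p ∈ s, l p) with h1 | h1
    · obtain ⟨S, hS, h2⟩ := ih (fun p hp => hl p (mem_insert_of_mem hp)) h1
      exact ⟨S, hS.trans (subset_insert _ _), h2⟩
    · refine ⟨_, subset_rfl, h, ?_⟩
      rw [sum_insert ha]
      linarith [hl a (mem_insert_self _ _)]

omit K in
theorem main_cover {ι : Type*} [DecidableEq ι] (l f : ι → ℝ) (lam : ℝ) (h0 : 0 ≤ lam) (M : ℕ)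
    (P : Finset ι) (hf : ∀ p ∈ P, 0 ≤ f p) (h : ∑ p ∈ P, l p ≤ M * lam) :
    ∃ S ⊆ P, (∑ p ∈ S, l p ≤ 2 * lam ∨ ∃ p, S = {p} ∧ lam ≤ l p) ∧
      ∑ p ∈ P, f p ≤ (M + 1) * ∑ p ∈ S, f p := by
  induction M generalizing P with
  | zero => exact ⟨P, subset_rfl, Or.inl (by simp at h; linarith), by simp⟩
  | succ M ih =>
    have hM : (0 : ℝ) ≤ M := Nat.cast_nonneg M
    push_cast at h ⊢
    rcases le_total (∑ p ∈ P, l p) lam with h1 | h1
    · exact ⟨P, subset_rfl, Or.inl (by linarith),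
        le_mul_of_one_le_left (sum_nonneg hf) (by linarith)⟩
    obtain ⟨S, hS, h2, h3⟩ : ∃ S ⊆ P, lam ≤ ∑ p ∈ S, l p ∧
        (∑ p ∈ S, l p ≤ 2 * lam ∨ ∃ p, S = {p} ∧ lam ≤ l p) := by
      by_cases hb : ∃ p ∈ P, lam ≤ l p
      · obtain ⟨p, hp, hb⟩ := hb
        exact ⟨{p}, singleton_subset_iff.2 hp, by rwa [sum_singleton], Or.inr ⟨p, rfl, hb⟩⟩
      · obtain ⟨S, hS, h2, h3⟩ := main_mid l lam P
          (fun p hp => (not_le.1 fun e => hb ⟨p, hp, e⟩).le) h0 h1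
        exact ⟨S, hS, h2, Or.inl h3⟩
    have e1 := sum_sdiff hS (f := l)
    have e2 := sum_sdiff hS (f := f)
    obtain ⟨S', hS', h4, h5⟩ := ih (P \ S) (fun p hp => hf p (sdiff_subset hp)) (by linarith)
    rcases le_total (∑ p ∈ S, f p) (∑ p ∈ S', f p) with h6 | h6
    · exact ⟨S', hS'.trans sdiff_subset, h4, by linarith⟩
    · have h7 := mul_le_mul_of_nonneg_left h6 (show (0 : ℝ) ≤ M + 1 by linarith)
      exact ⟨S, hS, h3, by linarith⟩

theorem main (ε : ℝ) (hε : 0 < ε) : ∃ C : ℝ, ∀ a b c : O, a + b + c = 0 → IsCoprime a b →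
    a * b * c ≠ 0 → Real.log (D.ht a b c) ≤ C * D.rad (a * b * c) ^ ε := by
  obtain ⟨e, he, rfl⟩ : ∃ e : ℝ, 0 < e ∧ ε = 3 * e := ⟨ε / 3, by linarith only [hε], by ring⟩
  obtain ⟨M, hM⟩ := exists_nat_ge (1 / e)
  rw [div_le_iff₀ he] at hM
  have hM0 : (0 : ℝ) ≤ M := Nat.cast_nonneg M
  have hδ : (0 : ℝ) < 1 / (2 * (M + 1)) := by positivity
  have hδ1 : (1 : ℝ) / (2 * (M + 1)) ≤ 1 / 2 :=
    one_div_le_one_div_of_le (by norm_num) (by linarith only [])
  obtain ⟨C1, hC1, H1⟩ := D.small_part K _ e hδ hδ1 he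
  obtain ⟨C2, hC2, H2⟩ := big D K _ e hδ hδ1 he
  obtain ⟨C3, hC3, H3⟩ := D.arch_case K (1 / 2) e (by norm_num) (by norm_num) he
  refine ⟨C1 + C2 + C3, fun a b c hs hab h0 => ?_⟩
  have hc : c = -(a + b) := by linear_combination hs
  have hac : IsCoprime a c := by
    rw [hc]
    obtain ⟨u, v, h⟩ := hab
    exact ⟨u - v, -v, by linear_combination h⟩
  have hbc : IsCoprime b c := by
    rw [hc]
    obtain ⟨u, v, h⟩ := hab
    exact ⟨v - u, -u, by linear_combination h⟩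
  have ha : a ≠ 0 := left_ne_zero_of_mul (left_ne_zero_of_mul h0)
  have e2 : c * a * b = a * b * c := by ring
  have H4 := H3 c a b (by linear_combination hs) hab (e2 ▸ h0)
  rw [e2, ← D.main_rot] at H4
  replace H1 := H1 a b c hs hbc h0
  replace H2 := H2 a b c hs hbc h0
  replace H3 := H3 a b c hs hbc h0
  have hR1 := D.one_le_rad (a * b * c)
  have hra : D.rad a ≤ D.rad (a * b * c) := by
    rw [D.rad_mul (IsCoprime.mul_left hac hbc), D.rad_mul hab, mul_assoc]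
    exact le_mul_of_one_le_right (zero_le_one.trans (D.one_le_rad a))
      (one_le_mul_of_one_le_of_one_le (D.one_le_rad b) (D.one_le_rad c))
  have hlogN := D.main_logN ha
  generalize D.rad (a * b * c) = R at *
  generalize Real.log (D.ht a b c) = h at *
  have hR0 : 0 < R := by linarith only [hR1]
  have hLR : 0 ≤ Real.log R := Real.log_nonneg hR1
  have hNp : ∀ p ∈ primeFactors a, 1 ≤ D.N p := fun p hp => D.one_le_N (prime_of_mem hp).ne_zero
  have hlog : ∀ S ⊆ primeFactors a, Real.log (∏ p ∈ S, D.N p) = ∑ p ∈ S, Real.log (D.N p) :=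
    fun S hS => Real.log_prod fun p hp => (lt_of_lt_of_le one_pos (hNp p (hS hp))).ne'
  have hrad : ∑ p ∈ primeFactors a, Real.log (D.N p) ≤ Real.log R := by
    rw [← hlog _ (Finset.Subset.refl _)]
    exact Real.log_le_log (lt_of_lt_of_le one_pos (D.one_le_rad a)) hra
  have fin : ∀ C e' : ℝ, 1 ≤ C → C ≤ C1 + C2 + C3 → e' ≤ 3 * e → h ≤ C * R ^ e' →
      h ≤ (C1 + C2 + C3) * R ^ (3 * e) := fun C e' hC0 hC he' hh =>
    hh.trans (mul_le_mul hC (Real.rpow_le_rpow_of_exponent_le hR1 he')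
      (Real.rpow_nonneg hR0.le _) (by linarith only [hC1, hC2, hC3]))
  rcases le_total (Real.log (D.N a)) ((1 - 1 / 2) * h) with hA | hA
  · exact fin C3 e hC3 (by linarith only [hC1, hC2]) (by linarith only [he]) (H3 hA)
  rcases le_total (Real.log (D.N c)) ((1 - 1 / 2) * h) with hB | hB
  · exact fin C3 e hC3 (by linarith only [hC1, hC2]) (by linarith only [he]) (H4 hB)
  obtain ⟨S, hS, h1, h2⟩ := main_cover (fun p => Real.log (D.N p))
    (fun p => ((normalizedFactors a).count p : ℝ) * Real.log (D.N p)) (e * Real.log R)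
    (by positivity) M (primeFactors a)
    (fun p hp => mul_nonneg (Nat.cast_nonneg _) (Real.log_nonneg (hNp p hp)))
    (hrad.trans (by rw [← mul_assoc]; exact le_mul_of_one_le_left hLR hM))
  have h3 : 1 / (2 * ((M : ℝ) + 1)) * h ≤
      ∑ p ∈ S, ((normalizedFactors a).count p : ℝ) * Real.log (D.N p) := by
    rw [one_div_mul_eq_div, div_le_iff₀ (by positivity)]
    linarith only [hlogN, hA, h2]
  rcases h1 with h1 | ⟨p, rfl, h1⟩
  · have h4 : ∏ p ∈ S, D.N p ≤ R ^ (2 * e) := by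
      rw [Real.le_rpow_iff_log_le
        (Finset.prod_pos fun p hp => lt_of_lt_of_le one_pos (hNp p (hS hp))) hR0, hlog S hS]
      linarith only [h1]
    refine fin C1 (2 * e + e) hC1 (by linarith only [hC2, hC3]) (by linarith only []) ((H1 S hS h3).trans ?_)
    rw [Real.rpow_add hR0, mul_assoc]
    exact mul_le_mul_of_nonneg_left
      (mul_le_mul_of_nonneg_right h4 (Real.rpow_nonneg hR0.le _)) (by linarith only [hC1])
  · have hp := singleton_subset_iff.1 hS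
    have hp0 : 0 < D.N p := lt_of_lt_of_le one_pos (hNp p hp)
    rw [sum_singleton] at h3
    have h4 : D.N p ≤ R := by
      rw [← Real.log_le_log_iff hp0 hR0]
      exact (single_le_sum (f := fun p => Real.log (D.N p))
        (fun q hq => Real.log_nonneg (hNp q hq)) hp).trans hrad
    refine fin C2 (e + e) hC2 (by linarith only [hC1, hC3]) (by linarith only [he]) ((H2 (by linarith only [hB]) p hp h3
      ((Real.rpow_le_iff_le_log hR0 hp0).2 h1)).trans ?_)
    rw [Real.rpow_add hR0, mul_assoc]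
    exact mul_le_mul_of_nonneg_left (mul_le_mul_of_nonneg_right
      (Real.rpow_le_rpow hp0.le h4 he.le) (Real.rpow_nonneg hR0.le _)) (by linarith only [hC2])
-- END Main

end

-- BEGIN Inst
theorem rational (ε : ℝ) (hε : 0 < ε) : ∃ C : ℝ, ∀ a b c : ℕ, 0 < a → 0 < b → a + b = c →
    Nat.Coprime a b →
    Real.log c ≤ C * ((∏ p ∈ (a * b * c).primeFactors, p : ℕ) : ℝ) ^ ε := by
  obtain ⟨C, hC⟩ := main H70.int_D ℚ ε hε
  refine ⟨C, fun a b c ha hb hs hco => ?_⟩
  subst hs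
  have hn : a * b * (a + b) ≠ 0 := by positivity
  have e : (a : ℤ) * b * -((a + b : ℕ) : ℤ) = -((a * b * (a + b) : ℕ) : ℤ) := by
    push_cast; ring
  have hht : H70.int_D.ht a b (-((a + b : ℕ) : ℤ)) = (a + b : ℕ) := by
    have h1 : (0 : ℝ) ≤ a := Nat.cast_nonneg _
    have h2 : (0 : ℝ) ≤ b := Nat.cast_nonneg _
    simp only [H70.Dat.ht, H70.int_D, Finset.univ_unique, Finset.prod_singleton, eq_intCast,
      Int.cast_neg, Int.cast_natCast, abs_neg, Nat.abs_cast]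
    push_cast
    exact max_eq_right (max_le (by linarith only []) (by linarith only []))
  have h := hC a b (-((a + b : ℕ) : ℤ)) (by push_cast; ring) (Nat.isCoprime_iff_coprime.2 hco)
    (by rw [e, neg_ne_zero]; exact_mod_cast hn)
  rwa [hht, e, H70.int_rad _ hn] at h

open H70 H70.Gold in
theorem golden (ε : ℝ) (hε : 0 < ε) : ∃ C : ℝ, ∀ a b c : H37.O, ∀ x₁ y₁ x₂ y₂ x₃ y₃ : ℤ,
    (a : ℝ) = (x₁ : ℝ) + (y₁ : ℝ) * Real.goldenRatio →
    (b : ℝ) = (x₂ : ℝ) + (y₂ : ℝ) * Real.goldenRatio →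
    (c : ℝ) = (x₃ : ℝ) + (y₃ : ℝ) * Real.goldenRatio →
    a + b + c = 0 → Ideal.span ({a, b, c} : Set H37.O) = ⊤ → a * b * c ≠ 0 →
    Real.log (H37.ht x₁ y₁ x₂ y₂ x₃ y₃) ≤ C * H37.rad (a * b * c) ^ ε := by
  classical
  obtain ⟨e, he⟩ : ∃ e : GQ ≃+* H37.O, ∀ z, (e z : ℝ) = gσ 0 z :=
    ⟨RingEquiv.ofBijective toO toO_bij, fun _ => rfl⟩
  have := gdomain
  have := gpid
  let : StrongNormalizationMonoid GQ := UniqueFactorizationMonoid.strongNormalizationMonoid
  obtain ⟨C, hC⟩ := main gD (FractionRing GQ) ε hε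
  refine ⟨C, fun a b c x₁ y₁ x₂ y₂ x₃ y₃ h₁ h₂ h₃ hs hc hn => ?_⟩
  have k : ∀ (t : H37.O) (x y : ℤ), (t : ℝ) = x + y * Real.goldenRatio → t = e ⟨x, y⟩ :=
    fun t x y h => Subtype.ext (by rw [he, h]; rfl)
  rw [k a _ _ h₁, k b _ _ h₂, k c _ _ h₃] at hs hc hn ⊢
  rw [← map_mul, ← map_mul] at hn ⊢
  rw [← map_add, ← map_add, map_eq_zero_iff _ e.injective] at hs
  rw [map_ne_zero_iff _ e.injective] at hn
  have h1 : (1 : H37.O) ∈ Ideal.span _ := hc ▸ Submodule.mem_top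
  obtain ⟨x, y, z, h1⟩ := Submodule.mem_span_triple.1 h1
  have h2 := congrArg e.symm h1
  simp only [smul_eq_mul, map_add, map_mul, map_one, e.symm_apply_apply] at h2
  have h3 := hC _ _ _ hs ⟨e.symm x - e.symm z, e.symm y - e.symm z,
    by linear_combination h2 - e.symm z * hs⟩ hn
  rw [grad e hn]
  rw [Dat.ht, Fin.prod_univ_two] at h3
  exact h3
-- END Inst

end Pool.Agent.MP_2a5a28_nt.H63
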