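import Pool.Agent.MP_2a5a28_nt.H63.Defs

attribute [-instance] ValuationRing.isLocalRing Algebra.Generators.instRing
  ContinuousSemilinearMapClass.toSemilinearMapClass AddQuantale.instAddLeftMono littleWedderburn
  RKHS.instFunLike IdemSemiring.toCanonicallyOrderedAdd MonTypeEquivalenceMon.monMonoid
  instIsPrincipalIdealRingOfIsSemisimpleRing CoalgHomClass.toSemilinearMapClass
  IsDedekindDomain.isPrincipalIdealRing instNonUnitalAlgHomClassOfNonUnitalAlgEquivClass
  BialgHomClass.toAlgHomClass NumberField.to_charZero SemilinearIsometryClass.toSemilinearMapClass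
  IdemSemiring.toMulLeftMono NormMulClass.toNoZeroDivisors AddQuantale.instAddRightMono
  RingHomClass.toLinearMapClassNNRat instCharZeroOfIsSemireal
  Group.IsPerfect.subsingleton_of_isMulCommutative NormedField.toField instIsFractionRing
  RingHomClass.toLinearMapClassRat IsOrderedMonoid.toMulLeftMono CompletePartialOrder.toPartialOrder
  IdemSemiring.toSemiring instCoeOTCOfCoeTC NonUnitalAlgSemiHomClass.toDistribMulActionSemiHomClass
  Quantale.instMulRightMono instCoeTOfCoeDep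
  NonUnitalAlgHomClass.instSemilinearMapClassOfNonUnitalAlgSemiHomClassToMonoidHomRingHom
  CommMonTypeEquivalenceCommMon.commMonCommMonoid CommGroupWithZero.toCommMonoidWithZero
  Quantale.instMulLeftMono AddGroup.fg_of_finite NeZero.of_gt' TestFunctionClass.toDFunLike
  List.instDecidableMemOfLawfulBEq AlgHomClass.linearMapClass ContDiffMapSupportedInClass.toDFunLike
  IsStrictOrderedRing.noZeroDivisors Localization.partialOrder IdemCommSemiring.toCommSemiring
  Finset.decidableMem LinearOrderedCommMonoidWithZero.toCommMonoidWithZero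
  covariant_swap_mul_of_covariant_mul OreLocalization.instAddGroupOreLocalization
  NonUnitalAlgHomClass.toNonUnitalRingHomClass IsRegularLocalRing.toIsLocalRing
  AddGroup.addLeftReflectLE_of_addLeftMono BialgHomClass.toMonoidHomClass Invertible.toNeZero
  SemilinearEquivClass.instSemilinearMapClass NormedDivisionRing.toDivisionRing
  ValuationClass.toMonoidWithZeroHomClass LinearOrder.toDecidableEq
  IsAffineAddMonoid.toIsAddTorsionFree CanonicallyOrderedAdd.toMulLeftMono
  MulSemiringActionSemiHomClass.toDistribMulActionSemiHomClass instCoeHTCTOfCoeTailOfCoeHTC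
  Multiset.decidableDforallMultiset DistribLattice.toLattice BooleanRing.toRing
  Vector.instDecidableForallForallMemOfDecidablePred IsBezout.instIsGCDMonoidOfIsCancelMulZero
  IsFormallyReal.instIsReduced Array.instDecidableForallForallMemOfDecidablePred
  Option.decidableForallMem RCLike.charZero_rclike instDecidableDvdOfFintypeOfDecidableEq

/-! The multiplicity estimate (iterated resultants). -/

set_option autoImplicit false
set_option linter.unusedSectionVars false
set_option linter.unusedVariables false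

namespace Pool.Agent.MP_2a5a28_nt.H63

open Finset

section
variable {n : ℕ} {R : Type*} [CommRing R]

-- BEGIN Lo
theorem wt_add (ω : Fin n → ℝ) (d d' : Fin n →₀ ℕ) : wt ω (d + d') = wt ω d + wt ω d' := by
  simp only [wt, Finsupp.coe_add, Pi.add_apply, Nat.cast_add, add_mul, sum_add_distrib]

theorem Lo.mono {ω : Fin n → ℝ} {a b : ℝ} {P : MvPolynomial (Fin n) R} (h : Lo ω a P)
    (hb : b ≤ a) : Lo ω b P := fun d hd => hb.trans (h d hd)

theorem Lo.of_nonneg {ω : Fin n → ℝ} (hω : ∀ j, 0 ≤ ω j) (P : MvPolynomial (Fin n) R) :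
    Lo ω 0 P := fun _ _ => Finset.sum_nonneg fun j _ => mul_nonneg (Nat.cast_nonneg _) (hω j)

theorem Lo.add {ω : Fin n → ℝ} {a : ℝ} {P Q : MvPolynomial (Fin n) R} (h : Lo ω a P)
    (h' : Lo ω a Q) : Lo ω a (P + Q) := by
  classical
  exact fun d hd => (Finset.mem_union.1 (MvPolynomial.support_add hd)).elim (h d) (h' d)

theorem lo_zero (ω : Fin n → ℝ) (a : ℝ) : Lo ω a (0 : MvPolynomial (Fin n) R) :=
  fun d hd => by simp at hd

theorem Lo.sum {ι : Type*} {ω : Fin n → ℝ} {a : ℝ} {s : Finset ι}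
    {P : ι → MvPolynomial (Fin n) R} (h : ∀ i ∈ s, Lo ω a (P i)) : Lo ω a (∑ i ∈ s, P i) :=
  Finset.sum_induction P (Lo ω a) (fun _ _ => Lo.add) (lo_zero ω a) h

theorem Lo.mul {ω : Fin n → ℝ} {a b : ℝ} {P Q : MvPolynomial (Fin n) R} (h : Lo ω a P)
    (h' : Lo ω b Q) : Lo ω (a + b) (P * Q) := by
  classical
  intro d hd
  obtain ⟨x, hx, y, hy, rfl⟩ := Finset.mem_add.1 (MvPolynomial.support_mul P Q hd)
  rw [wt_add]
  exact add_le_add (h x hx) (h' y hy)

theorem Lo.const (ω : Fin n → ℝ) (c : R) : Lo ω 0 (MvPolynomial.C c : MvPolynomial (Fin n) R) := by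
  intro d hd
  rw [Finset.mem_singleton.1 (MvPolynomial.support_monomial_subset hd)]
  simp only [wt, Finsupp.coe_zero, Pi.zero_apply, CharP.cast_eq_zero, zero_mul, sum_const_zero, Std.le_refl]

theorem Lo.prod {ι : Type*} {ω : Fin n → ℝ} {a : ι → ℝ} {s : Finset ι}
    {P : ι → MvPolynomial (Fin n) R} (h : ∀ i ∈ s, Lo ω (a i) (P i)) :
    Lo ω (∑ i ∈ s, a i) (∏ i ∈ s, P i) := by
  classical
  induction s using Finset.induction_on with
  | empty => simpa using Lo.const ω (1 : R)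
  | insert i s hi ih =>
    rw [Finset.sum_insert hi, Finset.prod_insert hi]
    exact (h i (mem_insert_self _ _)).mul (ih fun j hj => h j (mem_insert_of_mem hj))

theorem Lo.det {ι : Type*} [Fintype ι] [DecidableEq ι] {ω : Fin n → ℝ} {b : ℝ}
    (M : Matrix ι ι (MvPolynomial (Fin n) R)) (a : ι → ι → ℝ) (h : ∀ i j, Lo ω (a i j) (M i j))
    (hb : ∀ σ : Equiv.Perm ι, (∀ j, M (σ j) j ≠ 0) → b ≤ ∑ j, a (σ j) j) : Lo ω b M.det := by
  rw [Matrix.det_apply']
  refine Lo.sum fun σ _ => ?_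
  by_cases h0 : ∀ j, M (σ j) j ≠ 0
  · have h1 := (Lo.const ω (((Equiv.Perm.sign σ : ℤˣ) : ℤ) : R)).mul
      (Lo.prod (s := univ) fun j _ => h (σ j) j)
    rw [map_intCast, zero_add] at h1
    exact h1.mono (hb σ h0)
  · obtain ⟨j, hj⟩ := not_forall.1 h0
    rw [Finset.prod_eq_zero (f := fun i => M (σ i) i) (mem_univ j) (not_not.1 hj), mul_zero]
    exact lo_zero ω b

theorem lo_cons (ω : Fin (n + 1) → ℝ) (i : ℕ) (d : Fin n →₀ ℕ) :
    wt ω (d.cons i) = i * ω 0 + wt (Fin.tail ω) d := by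
  simp only [wt, Fin.sum_univ_succ, Finsupp.cons_zero, Finsupp.cons_succ, Fin.tail]

theorem Lo_fin (ω : Fin (n + 1) → ℝ) (a : ℝ) (P : MvPolynomial (Fin (n + 1)) R) :
    Lo ω a P ↔ LoP (Fin.tail ω) (ω 0) a (MvPolynomial.finSuccEquiv R n P) := by
  constructor
  · intro h i d hd
    have := h _ (MvPolynomial.mem_support_coeff_finSuccEquiv.1 hd)
    rw [lo_cons] at this
    linarith
  · intro h d hd
    rw [← Finsupp.cons_tail d] at hd ⊢
    have := h _ _ (MvPolynomial.mem_support_coeff_finSuccEquiv.2 hd)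
    rw [lo_cons]
    linarith
-- END Lo

-- BEGIN Ost
theorem ost_min (ω : Fin n → ℝ) {P : MvPolynomial (Fin n) R} (hP : P ≠ 0) :
    ∃ A : Finset (Fin n →₀ ℕ), A.Nonempty ∧
      ∀ a, a ∈ A ↔ a ∈ P.support ∧ ∀ a' ∈ P.support, wt ω a ≤ wt ω a' := by
  classical
  obtain ⟨a, ha, hm⟩ := P.support.exists_min_image (wt ω) (MvPolynomial.support_nonempty.2 hP)
  exact ⟨P.support.filter fun a => ∀ a' ∈ P.support, wt ω a ≤ wt ω a',
    ⟨a, mem_filter.2 ⟨ha, hm⟩⟩, fun a => mem_filter⟩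

theorem ost_one [IsDomain R] (ω : Fin n → ℝ) {P Q : MvPolynomial (Fin n) R} (hP : P ≠ 0)
    (hQ : Q ≠ 0) : ∃ d ∈ (P * Q).support, ∀ a ∈ P.support, ∀ b ∈ Q.support,
      wt ω d ≤ wt ω a + wt ω b := by
  classical
  obtain ⟨A, hA, hA'⟩ := ost_min ω hP
  obtain ⟨B, hB, hB'⟩ := ost_min ω hQ
  obtain ⟨a0, ha0, b0, hb0, hu⟩ := UniqueSums.uniqueAdd_of_nonempty hA hB
  obtain ⟨ha1, ha2⟩ := (hA' a0).1 ha0
  obtain ⟨hb1, hb2⟩ := (hB' b0).1 hb0
  refine ⟨a0 + b0, ?_, fun a ha b hb => ?_⟩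
  · rw [MvPolynomial.mem_support_iff, MvPolynomial.coeff_mul, sum_eq_single (a0, b0)]
    · exact mul_ne_zero (MvPolynomial.mem_support_iff.1 ha1) (MvPolynomial.mem_support_iff.1 hb1)
    · rintro ⟨a, b⟩ hab hne
      by_contra h0
      have ha := MvPolynomial.mem_support_iff.2 (left_ne_zero_of_mul h0)
      have hb := MvPolynomial.mem_support_iff.2 (right_ne_zero_of_mul h0)
      have he : a + b = a0 + b0 := HasAntidiagonal.mem_antidiagonal.1 hab
      have h1 : wt ω a + wt ω b = wt ω a0 + wt ω b0 := by rw [← wt_add, he, wt_add]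
      have h2 := ha2 a ha
      have h3 := hb2 b hb
      obtain ⟨h4, h5⟩ := hu ((hA' a).2 ⟨ha, fun a' ha' => by linarith only [ha2 a' ha', h1, h3]⟩)
        ((hB' b).2 ⟨hb, fun b' hb' => by linarith only [hb2 b' hb', h1, h2]⟩) he
      exact hne (Prod.ext h4 h5)
    · intro h
      exact absurd (by rw [HasAntidiagonal.mem_antidiagonal]) h
  · rw [wt_add]
    exact add_le_add (ha2 a ha) (hb2 b hb)

theorem ost [IsDomain R] (ω : Fin n → ℝ) {P Q : MvPolynomial (Fin n) R} (hP : P ≠ 0) (hQ : Q ≠ 0)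
    (k : ℕ) : ∃ d ∈ (P ^ k * Q).support, ∀ a ∈ P.support, ∀ b ∈ Q.support,
      wt ω d ≤ k * wt ω a + wt ω b := by
  induction k with
  | zero =>
    obtain ⟨b, hb, hm⟩ := Q.support.exists_min_image (wt ω) (MvPolynomial.support_nonempty.2 hQ)
    exact ⟨b, by rwa [pow_zero, one_mul], fun a _ b' hb' => by simpa using hm b' hb'⟩
  | succ k ih =>
    obtain ⟨d, hd, h1⟩ := ih
    obtain ⟨d', hd', h2⟩ := ost_one ω hP (mul_ne_zero (pow_ne_zero k hP) hQ)
    refine ⟨d', by rwa [pow_succ', mul_assoc], fun a ha b hb => ?_⟩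
    have h3 := h1 a ha b hb
    have h4 := h2 a ha d hd
    push_cast
    linarith

theorem ost_neg (ω : Fin n → ℝ) (d : Fin n →₀ ℕ) : wt (-ω) d = -wt ω d := by
  simp only [wt, Pi.neg_apply, mul_neg, sum_neg_distrib]

theorem ost_width [IsDomain R] (ω : Fin n → ℝ) {P Q : MvPolynomial (Fin n) R} (hP : P ≠ 0)
    (hQ : Q ≠ 0) (k : ℕ) {lo w : ℝ}
    (h : ∀ d ∈ (P ^ k * Q).support, lo ≤ wt ω d ∧ wt ω d ≤ lo + w) :
    ∀ a ∈ P.support, ∀ a' ∈ P.support, k * |wt ω a - wt ω a'| ≤ w := by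
  obtain ⟨d, hd, h1⟩ := ost ω hP hQ k
  obtain ⟨d', hd', h2⟩ := ost (-ω) hP hQ k
  obtain ⟨b, hb⟩ := MvPolynomial.support_nonempty.2 hQ
  have key : ∀ a ∈ P.support, ∀ a' ∈ P.support, k * (wt ω a - wt ω a') ≤ w := by
    intro a ha a' ha'
    have h3 := h1 a' ha' b hb
    have h4 := h2 a ha b hb
    rw [ost_neg, ost_neg, ost_neg] at h4
    have h5 := (h d hd).1
    have h6 := (h d' hd').2
    linarith
  intro a ha a' ha'
  rcases abs_cases (wt ω a - wt ω a') with ⟨h3, -⟩ | ⟨h3, -⟩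
  · rw [h3]; exact key a ha a' ha'
  · rw [h3, neg_sub]; exact key a' ha' a ha
-- END Ost

-- BEGIN Res
theorem res_zero (ω : Fin n → ℝ) (a : ℝ) : Lo ω a (0 : MvPolynomial (Fin n) R) := by
  intro d hd
  simp at hd

theorem res_det {ι : Type*} [Fintype ι] [DecidableEq ι] {ω : Fin n → ℝ}
    (M : Matrix ι ι (MvPolynomial (Fin n) R)) (u v : ι → ℝ)
    (h : ∀ i j, Lo ω (u i + v j) (M i j)) : Lo ω (∑ i, u i + ∑ j, v j) M.det :=
  Lo.det M (fun i j => u i + v j) h fun σ _ => by
    rw [sum_add_distrib, Equiv.sum_comp σ u]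

theorem res_fin (N : ℕ) : 2 * ∑ i : Fin N, ((i : ℕ) : ℝ) + N = N * N := by
  rw [Fin.sum_univ_eq_sum_range (fun i => (i : ℝ))]
  induction N with
  | zero => simp
  | succ N ih => rw [sum_range_succ]; push_cast; linarith only [ih]

theorem res_iso {ω : Fin n → ℝ} {ω0 a b : ℝ} {f g : Polynomial (MvPolynomial (Fin n) R)}
    (hf : LoP ω ω0 a f) (hg : LoP ω ω0 b g) (p q : ℕ) :
    Lo ω (q * a + p * b - p * q * ω0) (Polynomial.resultant f g p q) := by
  let v : Fin (p + q) → ℝ := fun j => j.addCases (fun j₁ => b + ((j₁ : ℕ) : ℝ) * ω0)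
    (fun j₁ => a + ((j₁ : ℕ) : ℝ) * ω0)
  have key := res_det (ω := ω) (Polynomial.sylvester f g p q) (fun i => -(((i : ℕ) : ℝ) * ω0)) v (by
    intro i j
    induction j using Fin.addCases with
    | left j =>
      simp only [Polynomial.sylvester, Matrix.of_apply, Fin.addCases_left, v]
      split_ifs with h
      · refine (hg _).mono (le_of_eq ?_)
        rw [Nat.cast_sub h.1]; ring
      · exact res_zero _ _
    | right j =>
      simp only [Polynomial.sylvester, Matrix.of_apply, Fin.addCases_right, v]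
      split_ifs with h
      · refine (hf _).mono (le_of_eq ?_)
        rw [Nat.cast_sub h.1]; ring
      · exact res_zero _ _)
  refine Lo.mono key (le_of_eq ?_)
  rw [Fin.sum_univ_add v]
  simp only [v, Fin.addCases_left, Fin.addCases_right, sum_add_distrib, sum_const, card_univ,
    Fintype.card_fin, sum_neg_distrib, ← Finset.sum_mul, nsmul_eq_mul]
  have a1 := res_fin (p + q)
  have a2 := res_fin p
  have a3 := res_fin q
  have : ∑ i : Fin (p + q), ((i : ℕ) : ℝ) =
      p * q + ∑ i : Fin p, ((i : ℕ) : ℝ) + ∑ i : Fin q, ((i : ℕ) : ℝ) := by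
    push_cast at a1
    linarith
  rw [this]; ring

theorem res_tsub (N k : ℕ) (h : k ≤ N) : 2 * ∑ i ∈ range N, (k - i) = k * (k + 1) := by
  induction k generalizing N with
  | zero => simp
  | succ k ih =>
    obtain ⟨N, rfl⟩ : ∃ N', N = N' + 1 := ⟨N - 1, by omega⟩
    rw [sum_range_succ']
    have := ih N (by omega)
    simp only [Nat.add_sub_add_right, Nat.sub_zero]
    nlinarith

theorem res_tsub_le (N k : ℕ) : 2 * ∑ i ∈ range N, (k - i) ≤ k * (k + 1) := by
  rw [← res_tsub (max N k) k (le_max_right _ _)]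
  exact Nat.mul_le_mul_left _ (sum_le_sum_of_subset (range_subset_range.2 (le_max_left _ _)))

theorem res_entry {ω : Fin n → ℝ} (hω : ∀ j, 0 ≤ ω j) {ν : ℕ}
    {f : Polynomial (MvPolynomial (Fin n) R)} (hf : LoP ω 1 ν f) (i j : ℕ) (h : j ≤ i) :
    Lo ω (((2 * ν - i : ℕ) : ℝ) + -((ν - j : ℕ) : ℝ)) (f.coeff (i - j)) := by
  by_cases hc : i - j ≤ ν
  · refine (hf _).mono ?_
    have : (2 * ν - i : ℕ) + (i - j : ℕ) ≤ ν + (ν - j : ℕ) := by omega
    have h' : ((2 * ν - i : ℕ) : ℝ) + ((i - j : ℕ) : ℝ) ≤ ν + ((ν - j : ℕ) : ℝ) := by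
      exact_mod_cast this
    linarith only [h']
  · refine (Lo.of_nonneg hω _).mono ?_
    have : (2 * ν - i : ℕ) ≤ (ν - j : ℕ) := by omega
    have h' : ((2 * ν - i : ℕ) : ℝ) ≤ ((ν - j : ℕ) : ℝ) := by exact_mod_cast this
    linarith only [h']

theorem res_ord {ω : Fin n → ℝ} (hω : ∀ j, 0 ≤ ω j) {ν : ℕ}
    {f g : Polynomial (MvPolynomial (Fin n) R)} (hf : LoP ω 1 ν f) (hg : LoP ω 1 ν g) (p q : ℕ)
    (h : 2 * ν ≤ p + q) : Lo ω ((ν : ℝ) ^ 2) (Polynomial.resultant f g p q) := by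
  let v : Fin (p + q) → ℝ := fun j => j.addCases (fun j₁ => -((ν - (j₁ : ℕ) : ℕ) : ℝ))
    (fun j₁ => -((ν - (j₁ : ℕ) : ℕ) : ℝ))
  have key := res_det (ω := ω) (Polynomial.sylvester f g p q)
    (fun i => ((2 * ν - (i : ℕ) : ℕ) : ℝ)) v (by
    intro i j
    induction j using Fin.addCases with
    | left j =>
      simp only [Polynomial.sylvester, Matrix.of_apply, Fin.addCases_left, v]
      split_ifs with h
      · exact res_entry hω hg _ _ h.1
      · exact res_zero _ _
    | right j =>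
      simp only [Polynomial.sylvester, Matrix.of_apply, Fin.addCases_right, v]
      split_ifs with h
      · exact res_entry hω hf _ _ h.1
      · exact res_zero _ _)
  refine Lo.mono key ?_
  have e1 : ∑ i : Fin (p + q), ((2 * ν - (i : ℕ) : ℕ) : ℝ) =
      ((∑ i ∈ range (p + q), (2 * ν - i) : ℕ) : ℝ) := by
    rw [← Fin.sum_univ_eq_sum_range (fun i => 2 * ν - i), Nat.cast_sum]
  have e2 : ∑ j, v j =
      -((∑ i ∈ range p, (ν - i) : ℕ) : ℝ) - ((∑ i ∈ range q, (ν - i) : ℕ) : ℝ) := by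
    rw [Fin.sum_univ_add, ← Fin.sum_univ_eq_sum_range (fun i => ν - i),
      ← Fin.sum_univ_eq_sum_range (fun i => ν - i), Nat.cast_sum, Nat.cast_sum]
    simp only [v, Fin.addCases_left, Fin.addCases_right, sum_neg_distrib]
    ring
  rw [e1, e2]
  have a1 := res_tsub (p + q) (2 * ν) h
  have a2 := res_tsub_le p ν
  have a3 := res_tsub_le q ν
  generalize (∑ i ∈ range (p + q), (2 * ν - i)) = S1 at *
  generalize (∑ i ∈ range p, (ν - i)) = S2 at *
  generalize (∑ i ∈ range q, (ν - i)) = S3 at *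
  have : ν ^ 2 + S2 + S3 ≤ S1 := by linarith only [a1, a2, a3]
  have h' : (ν : ℝ) ^ 2 + S2 + S3 ≤ S1 := by exact_mod_cast this
  linarith only [h']

theorem res_top (f : Polynomial R) (r : R) (p : ℕ) (hf : f.natDegree ≤ p) :
    (Polynomial.taylor r f).coeff p = f.coeff p := by
  rcases hf.eq_or_lt with e | e
  · rw [← e, Polynomial.coeff_taylor_natDegree, Polynomial.leadingCoeff]
  · rw [Polynomial.coeff_eq_zero_of_natDegree_lt e,
      Polynomial.coeff_eq_zero_of_natDegree_lt (by rwa [Polynomial.natDegree_taylor])]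

theorem res_taylor (f g : Polynomial R) (r : R) (p q : ℕ) (hf : f.natDegree ≤ p)
    (hg : g.natDegree ≤ q) :
    Polynomial.resultant (Polynomial.taylor r f) (Polynomial.taylor r g) p q =
      Polynomial.resultant f g p q := by
  obtain ⟨k, rfl⟩ := Nat.exists_eq_add_of_le hf
  have h0 := Polynomial.resultant_taylor f g r
  rw [Polynomial.natDegree_taylor, Polynomial.natDegree_taylor] at h0
  rw [Polynomial.resultant_add_left_deg _ _ _ _ _ (by rw [Polynomial.natDegree_taylor]),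
    Polynomial.resultant_add_left_deg _ _ _ _ _ le_rfl, res_top g r q hg]
  obtain ⟨l, rfl⟩ := Nat.exists_eq_add_of_le hg
  rw [Polynomial.resultant_add_right_deg _ _ _ _ _ (by rw [Polynomial.natDegree_taylor]),
    Polynomial.resultant_add_right_deg _ _ _ _ _ le_rfl, res_top f r _ le_rfl, h0]
-- END Res

-- BEGIN Nm
theorem nm_nonneg (P : MvPolynomial (Fin n) ℤ) : 0 ≤ nm P :=
  Finset.sum_nonneg fun _ _ => abs_nonneg _

theorem nm_eq (P : MvPolynomial (Fin n) ℤ) {s : Finset (Fin n →₀ ℕ)} (h : P.support ⊆ s) :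
    nm P = ∑ d ∈ s, |((P.coeff d : ℤ) : ℝ)| := by
  refine Finset.sum_subset h fun d _ hd => ?_
  rw [MvPolynomial.notMem_support_iff.mp hd]
  simp

theorem nm_zero : nm (0 : MvPolynomial (Fin n) ℤ) = 0 := by
  simp [nm]

theorem nm_add (P Q : MvPolynomial (Fin n) ℤ) : nm (P + Q) ≤ nm P + nm Q := by
  classical
  rw [nm_eq (P + Q) MvPolynomial.support_add, nm_eq P (subset_union_left (s₂ := Q.support)),
    nm_eq Q (subset_union_right (s₁ := P.support)), ← Finset.sum_add_distrib]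
  refine Finset.sum_le_sum fun d _ => ?_
  rw [MvPolynomial.coeff_add]
  push_cast
  exact abs_add_le _ _

theorem nm_neg (P : MvPolynomial (Fin n) ℤ) : nm (-P) = nm P := by
  simp [nm]

theorem nm_sum' {ι : Type*} (s : Finset ι) (P : ι → MvPolynomial (Fin n) ℤ) :
    nm (∑ i ∈ s, P i) ≤ ∑ i ∈ s, nm (P i) := by
  classical
  induction s using Finset.induction_on with
  | empty => simp [nm_zero]
  | insert a s ha ih =>
    rw [Finset.sum_insert ha, Finset.sum_insert ha]
    exact (nm_add _ _).trans (by linarith)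

theorem nm_monomial' (d : Fin n →₀ ℕ) (c : ℤ) :
    nm (MvPolynomial.monomial d c) = |(c : ℝ)| := by
  classical
  rw [nm_eq _ (MvPolynomial.support_monomial_subset)]
  simp

theorem nm_mul (P Q : MvPolynomial (Fin n) ℤ) : nm (P * Q) ≤ nm P * nm Q := by
  classical
  have h : P * Q = ∑ a ∈ P.support, ∑ b ∈ Q.support,
      MvPolynomial.monomial (a + b) (P.coeff a * Q.coeff b) := by
    conv_lhs => rw [P.as_sum, Q.as_sum]
    rw [Finset.sum_mul_sum]
    simp only [MvPolynomial.monomial_mul]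
  rw [h]
  refine (nm_sum' _ _).trans ?_
  unfold nm
  rw [Finset.sum_mul_sum]
  refine Finset.sum_le_sum fun a _ => ?_
  refine (nm_sum' _ _).trans (le_of_eq ?_)
  refine Finset.sum_congr rfl fun b _ => ?_
  rw [nm_monomial']
  push_cast
  exact abs_mul _ _

theorem nm_sum {ι : Type*} (s : Finset ι) (P : ι → MvPolynomial (Fin n) ℤ) :
    nm (∑ i ∈ s, P i) ≤ ∑ i ∈ s, nm (P i) := nm_sum' s P

theorem nm_monomial (d : Fin n →₀ ℕ) (c : ℤ) : nm (MvPolynomial.monomial d c) = |(c : ℝ)| :=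
  nm_monomial' d c

theorem nm_C (c : ℤ) : nm (MvPolynomial.C c : MvPolynomial (Fin n) ℤ) = |(c : ℝ)| :=
  nm_monomial 0 c

theorem nm_one : nm (1 : MvPolynomial (Fin n) ℤ) = 1 := by
  have h := nm_C (n := n) 1
  simpa using h

theorem nm_natCast_mul (c : ℕ) (P : MvPolynomial (Fin n) ℤ) :
    nm ((c : MvPolynomial (Fin n) ℤ) * P) ≤ c * nm P := by
  refine (nm_mul _ _).trans (le_of_eq ?_)
  have h := nm_C (n := n) (c : ℤ)
  rw [map_natCast] at h
  rw [h]
  simp

theorem nm_coeff (P : MvPolynomial (Fin (n + 1)) ℤ) (i : ℕ) :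
    nm ((MvPolynomial.finSuccEquiv ℤ n P).coeff i) ≤ nm P := by
  classical
  unfold nm
  have hinj : Function.Injective fun d : Fin n →₀ ℕ => Finsupp.cons i d :=
    Finsupp.cons_right_injective i
  calc ∑ d ∈ ((MvPolynomial.finSuccEquiv ℤ n P).coeff i).support,
        |((((MvPolynomial.finSuccEquiv ℤ n P).coeff i).coeff d : ℤ) : ℝ)|
      = ∑ d ∈ ((MvPolynomial.finSuccEquiv ℤ n P).coeff i).support,
        |((P.coeff (Finsupp.cons i d) : ℤ) : ℝ)| := by
        refine Finset.sum_congr rfl fun d _ => ?_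
        rw [MvPolynomial.finSuccEquiv_coeff_coeff]
    _ = ∑ d ∈ (((MvPolynomial.finSuccEquiv ℤ n P).coeff i).support).image
          (fun d : Fin n →₀ ℕ => Finsupp.cons i d), |((P.coeff d : ℤ) : ℝ)| := by
        rw [Finset.sum_image fun a _ b _ hab => hinj hab]
    _ ≤ _ := by
        refine Finset.sum_le_sum_of_subset_of_nonneg ?_ fun _ _ _ => abs_nonneg _
        intro d hd
        obtain ⟨e, he, rfl⟩ := Finset.mem_image.mp hd
        exact MvPolynomial.mem_support_coeff_finSuccEquiv.mp he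

theorem nm_prod {ι : Type*} (s : Finset ι) (P : ι → MvPolynomial (Fin n) ℤ) {B : ℝ}
    (h : ∀ i ∈ s, nm (P i) ≤ B) : nm (∏ i ∈ s, P i) ≤ B ^ s.card := by
  classical
  induction s using Finset.induction_on with
  | empty => simp [nm_one]
  | insert a s ha ih =>
    rw [Finset.prod_insert ha, Finset.card_insert_of_notMem ha, pow_succ']
    have h1 := h a (Finset.mem_insert_self _ _)
    exact (nm_mul _ _).trans (mul_le_mul h1 (ih fun i hi => h i (Finset.mem_insert_of_mem hi))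
      (nm_nonneg _) ((nm_nonneg _).trans h1))

theorem nm_det {ι : Type*} [Fintype ι] [DecidableEq ι]
    (M : Matrix ι ι (MvPolynomial (Fin n) ℤ)) {B : ℝ} (h : ∀ i j, nm (M i j) ≤ B) :
    nm M.det ≤ (Fintype.card ι).factorial * B ^ Fintype.card ι := by
  rw [Matrix.det_apply]
  refine (nm_sum _ _).trans ?_
  have h1 : ∀ σ ∈ (univ : Finset (Equiv.Perm ι)),
      nm (Equiv.Perm.sign σ • ∏ i, M (σ i) i) ≤ B ^ Fintype.card ι := by
    intro σ _
    have h2 := nm_prod univ (fun i => M (σ i) i) fun i _ => h _ _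
    rw [Finset.card_univ] at h2
    rcases Int.units_eq_one_or (Equiv.Perm.sign σ) with hs | hs
    · rw [hs, one_smul]
      exact h2
    · rw [hs, Units.neg_smul, one_smul, nm_neg]
      exact h2
  refine (Finset.sum_le_card_nsmul _ _ _ h1).trans (le_of_eq ?_)
  rw [Finset.card_univ, Fintype.card_perm, nsmul_eq_mul]

theorem nm_res {f g : Polynomial (MvPolynomial (Fin n) ℤ)} {B : ℝ} (hf : ∀ i, nm (f.coeff i) ≤ B)
    (hg : ∀ i, nm (g.coeff i) ≤ B) (p q : ℕ) :
    nm (Polynomial.resultant f g p q) ≤ (p + q).factorial * B ^ (p + q) := by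
  have hB : 0 ≤ B := (nm_nonneg _).trans (hf 0)
  have h := nm_det (Polynomial.sylvester f g p q) (B := B) fun i j => by
    unfold Polynomial.sylvester
    rw [Matrix.of_apply]
    refine Fin.addCases (fun j => ?_) (fun j => ?_) j
    · rw [Fin.addCases_left]
      split_ifs
      · exact hg _
      · rw [nm_zero]
        exact hB
    · rw [Fin.addCases_right]
      split_ifs
      · exact hf _
      · rw [nm_zero]
        exact hB
  rw [Fintype.card_fin] at h
  exact h
-- END Nm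

-- BEGIN Gg
theorem gg_one (f : Polynomial R) (i j : ℕ) :
    (Polynomial.X ^ j * Polynomial.hasseDeriv j f).coeff i = (i.choose j : R) * f.coeff i := by
  rw [Polynomial.coeff_X_pow_mul']
  split_ifs with h
  · rw [Polynomial.hasseDeriv_coeff, Nat.sub_add_cancel h]
  · rw [Nat.choose_eq_zero_of_lt (by omega)]; simp

theorem gg_coeff (c : ℕ → ℕ) (ν : ℕ) (f : Polynomial R) (i : ℕ) :
    (gg c ν f).coeff i = ((∑ j ∈ range (ν + 1), c j * i.choose j : ℕ) : R) * f.coeff i := by
  rw [gg, Polynomial.finset_sum_coeff]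
  push_cast
  rw [Finset.sum_mul]
  refine Finset.sum_congr rfl fun j _ => ?_
  rw [Polynomial.coeff_C_mul, gg_one, mul_assoc]

theorem gg_map {S : Type*} [CommRing S] (φ : R →+* S) (c : ℕ → ℕ) (ν : ℕ) (f : Polynomial R) :
    (gg c ν f).map φ = gg c ν (f.map φ) := by
  ext i
  rw [Polynomial.coeff_map, gg_coeff, gg_coeff, Polynomial.coeff_map, map_mul, map_natCast]

theorem gg_natDegree (c : ℕ → ℕ) (ν : ℕ) (f : Polynomial R) :
    (gg c ν f).natDegree ≤ f.natDegree := by
  rw [Polynomial.natDegree_le_iff_coeff_eq_zero]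
  intro i hi
  rw [gg_coeff, Polynomial.coeff_eq_zero_of_natDegree_lt hi, mul_zero]

theorem gg_tay (f : Polynomial R) (r : R) (i j : ℕ) :
    (Polynomial.taylor r (Polynomial.hasseDeriv j f)).coeff i =
      ((i + j).choose i : R) * (Polynomial.taylor r f).coeff (i + j) := by
  rw [Polynomial.taylor_coeff, Polynomial.taylor_coeff]
  have := congrArg (fun L => L f) (Polynomial.hasseDeriv_comp (R := R) i j)
  simp only [LinearMap.comp_apply, LinearMap.smul_apply] at this
  rw [this, nsmul_eq_mul, Polynomial.eval_mul, Polynomial.eval_natCast]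

theorem gg_ord {ω : Fin n → ℝ} {μ : ℝ} (c : ℕ → ℕ) (ν : ℕ) (r : R)
    {f : Polynomial (MvPolynomial (Fin n) R)}
    (hf : LoP ω 1 μ (Polynomial.taylor (MvPolynomial.C r) f)) :
    LoP ω 1 (μ - ν) (Polynomial.taylor (MvPolynomial.C r) (gg c ν f)) := by
  intro i
  have hn : ∀ k : ℕ, Lo ω 0 (k : MvPolynomial (Fin n) R) := fun k => by
    simpa only [map_natCast] using Lo.const ω (k : R)
  rw [gg, map_sum, Polynomial.finset_sum_coeff]
  refine Lo.sum fun j hj => ?_
  rw [Polynomial.taylor_mul, Polynomial.taylor_C, Polynomial.coeff_C_mul, Polynomial.taylor_mul,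
    Polynomial.taylor_pow, Polynomial.taylor_X, Polynomial.coeff_mul]
  refine ((hn _).mul (Lo.sum fun p hp => ?_)).mono (le_of_eq (zero_add _).symm)
  rw [gg_tay, Polynomial.coeff_X_add_C_pow, ← map_pow]
  refine (((Lo.const ω _).mul (hn _)).mul ((hn _).mul (hf _))).mono ?_
  have h1 : (p.2 : ℝ) ≤ i := by
    exact_mod_cast (show p.2 ≤ i by have : p.1 + p.2 = i := by simpa using hp
                                    omega)
  have h2 : (j : ℝ) ≤ ν := by exact_mod_cast Nat.lt_succ_iff.1 (Finset.mem_range.1 hj)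
  push_cast
  linarith

theorem gg_trX {K : Type*} [CommRing K] (pt : Fin n → K) (j : Fin n) :
    tr pt (MvPolynomial.X j) = MvPolynomial.X j + MvPolynomial.C (pt j) :=
  MvPolynomial.eval₂Hom_X' _ _ _

theorem gg_finC (a : R) : MvPolynomial.finSuccEquiv R n (MvPolynomial.C a) =
    Polynomial.C (MvPolynomial.C a) := by
  simp [MvPolynomial.finSuccEquiv_apply]

theorem tr_fin {K : Type*} [CommRing K] (pt : Fin (n + 1) → K) (P : MvPolynomial (Fin (n + 1)) ℤ) :
    MvPolynomial.finSuccEquiv K n (tr pt P) = Polynomial.taylor (MvPolynomial.C (pt 0))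
      ((MvPolynomial.finSuccEquiv ℤ n P).map (tr (Fin.tail pt))) := by
  induction P using MvPolynomial.induction_on with
  | C a => simp only [eq_intCast, map_intCast, Polynomial.map_intCast]
           rw [← Polynomial.C_eq_intCast, Polynomial.taylor_C]
  | add p q hp hq => simp only [map_add, Polynomial.map_add, hp, hq]
  | mul_X p j hp =>
    rw [map_mul, map_mul, map_mul, Polynomial.map_mul, Polynomial.taylor_mul, hp]
    refine congrArg _ ?_
    refine Fin.cases ?_ (fun j => ?_) j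
    · rw [gg_trX, map_add, MvPolynomial.finSuccEquiv_X_zero, MvPolynomial.finSuccEquiv_X_zero,
        Polynomial.map_X, Polynomial.taylor_X, gg_finC]
    · rw [gg_trX, map_add, MvPolynomial.finSuccEquiv_X_succ, MvPolynomial.finSuccEquiv_X_succ,
        Polynomial.map_C, Polynomial.taylor_C, gg_finC, gg_trX, map_add]
      rfl
-- END Gg

end

-- BEGIN Cop
section
open Polynomial


variable {A : Type*} [CommRing A] [IsDomain A] [CharZero A]

/-- A prime of positive degree dividing the first `N` derivatives divides to the power `N + 1`. -/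
theorem cop_pow (φ : A[X]) (hφ : Prime φ) (hd : 0 < φ.natDegree) (N : ℕ) :
    ∀ f : A[X], (∀ j ≤ N, φ ∣ derivative^[j] f) → φ ^ (N + 1) ∣ f := by
  have hnd : ¬φ ∣ derivative φ := fun h => by
    have h0 : derivative φ ≠ 0 := fun e => by
      have := derivative_eq_zero.1 e
      omega
    have h1 := natDegree_le_of_dvd h h0
    have h2 := natDegree_derivative_lt (p := φ) hd.ne'
    omega
  induction N with
  | zero => intro f h; simpa only [zero_add, pow_one, Function.iterate_zero, id_eq] using h 0 le_rfl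
  | succ N ih =>
    intro f h
    obtain ⟨G, rfl⟩ := ih f fun j hj => h j (by omega)
    have h1 : φ ^ (N + 1) ∣ derivative (φ ^ (N + 1) * G) :=
      ih _ fun j hj => by
        have := h (j + 1) (by omega)
        rwa [Function.iterate_succ_apply] at this
    rw [derivative_mul, derivative_pow_succ] at h1
    have h2 : φ ^ (N + 1) ∣ C ((N : A) + 1) * φ ^ N * derivative φ * G :=
      (dvd_add_left (dvd_mul_right _ _)).1 h1
    rw [show C ((N : A) + 1) * φ ^ N * derivative φ * G =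
      φ ^ N * (C ((N : A) + 1) * (derivative φ * G)) by ring, pow_succ] at h2
    have h3 := (mul_dvd_mul_iff_left (pow_ne_zero N hφ.ne_zero)).1 h2
    rcases hφ.dvd_or_dvd h3 with h4 | h4
    · have h5 : (C ((N : A) + 1) : A[X]) ≠ 0 := C_ne_zero.2 (by exact_mod_cast N.succ_ne_zero)
      have := natDegree_le_of_dvd h4 h5
      rw [natDegree_C] at this
      omega
    · rw [pow_succ _ (N + 1)]
      exact mul_dvd_mul_left _ ((hφ.dvd_or_dvd h4).resolve_left hnd)

/-- Avoiding finitely many hyperplanes on a grid. -/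
theorem cop_grid (S : Finset A[X]) (hS : ∀ φ ∈ S, Prime φ ∧ 0 < φ.natDegree) (g : ℕ → A[X])
    (n : ℕ) : ∃ c : ℕ → ℕ, (∀ j, c j ≤ S.card) ∧
      ∀ φ ∈ S, (∃ j < n, ¬φ ∣ g j) → ¬φ ∣ ∑ j ∈ range n, (c j : A[X]) * g j := by
  classical
  induction n with
  | zero => exact ⟨fun _ => 0, fun _ => Nat.zero_le _, fun φ _ ⟨j, hj, _⟩ => absurd hj (by omega)⟩
  | succ n ih =>
    obtain ⟨c, hc, H⟩ := ih
    set G := ∑ j ∈ range n, (c j : A[X]) * g j with hG
    have key : ∃ x ≤ S.card, ∀ φ ∈ S, ¬φ ∣ g n → ¬φ ∣ G + (x : A[X]) * g n := by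
      by_contra hn
      push Not at hn
      choose! F hF1 hF2 hF3 using hn
      obtain ⟨x, hx, y, hy, hxy, e⟩ := Finset.exists_ne_map_eq_of_card_lt_of_maps_to
        (s := range (S.card + 1)) (t := S) (by simp) (f := F)
        fun x hx => hF1 x (Nat.lt_succ_iff.1 (mem_range.1 hx))
      have hx' := Nat.lt_succ_iff.1 (mem_range.1 hx)
      have hy' := Nat.lt_succ_iff.1 (mem_range.1 hy)
      have h1 := dvd_sub (hF3 x hx') (e ▸ hF3 y hy')
      rw [show G + (x : A[X]) * g n - (G + (y : A[X]) * g n) = C ((x : A) - y) * g n by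
        simp only [add_sub_add_left_eq_sub, map_sub, map_natCast]; ring] at h1
      rcases (hS _ (hF1 x hx')).1.dvd_or_dvd h1 with h2 | h2
      · have h3 : (C ((x : A) - y) : A[X]) ≠ 0 :=
          C_ne_zero.2 (sub_ne_zero.2 (by exact_mod_cast hxy))
        have := natDegree_le_of_dvd h2 h3
        rw [natDegree_C] at this
        have := (hS _ (hF1 x hx')).2
        omega
      · exact hF2 x hx' h2
    obtain ⟨x, hx, hx'⟩ := key
    refine ⟨Function.update c n x, fun j => ?_, fun φ hφ ⟨j, hj, hj'⟩ => ?_⟩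
    · rcases eq_or_ne j n with rfl | h
      · simpa using hx
      · simpa [h] using hc j
    · have e : ∑ j ∈ range n, (Function.update c n x j : A[X]) * g j = G :=
        sum_congr rfl fun j hj => by rw [Function.update_of_ne (mem_range.1 hj).ne]
      rw [sum_range_succ, e, Function.update_self]
      by_cases h : φ ∣ g n
      · have hjn : j < n := lt_of_le_of_ne (Nat.lt_succ_iff.1 hj) (by rintro rfl; exact hj' h)
        exact fun h' => H φ hφ ⟨j, hjn, hj'⟩ ((dvd_add_left (h.mul_left _)).1 h')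
      · exact hx' φ hφ h

variable [UniqueFactorizationMonoid A]

omit [CharZero A] in
/-- No common prime factor of positive degree: the resultant does not vanish. -/
theorem cop_res (f g : A[X]) (hf : f ≠ 0)
    (h : ∀ φ : A[X], Prime φ → 0 < φ.natDegree → φ ∣ f → ¬φ ∣ g) (n : ℕ) (hn : g.natDegree ≤ n) :
    resultant f g f.natDegree n ≠ 0 := by
  let F := FractionRing A
  have inj : Function.Injective (algebraMap A F) := IsFractionRing.injective A F
  have hf' : f.map (algebraMap A F) ≠ 0 := (Polynomial.map_ne_zero_iff inj).2 hf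
  have hco : IsCoprime (f.map (algebraMap A F)) (g.map (algebraMap A F)) := by
    refine isCoprime_of_prime_dvd (fun e => hf' e.1) fun q hq h1 h2 => ?_
    obtain ⟨s, hs, u, hu⟩ := UniqueFactorizationMonoid.exists_prime_factors f hf
    rw [← hu, Polynomial.map_mul, Polynomial.map_multiset_prod] at h1
    have hu' : IsUnit ((u : A[X]).map (algebraMap A F)) := u.isUnit.map (mapRingHom _)
    obtain ⟨ψ, hψ, h3⟩ := hq.exists_mem_multiset_dvd (hu'.dvd_mul_right.1 h1)
    obtain ⟨φ, hφ, rfl⟩ := Multiset.mem_map.1 hψ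
    have hp := hs φ hφ
    have hd : 0 < φ.natDegree := by
      have h4 := natDegree_le_of_dvd h3 ((Polynomial.map_ne_zero_iff inj).2 hp.ne_zero)
      rw [natDegree_map_eq_of_injective inj] at h4
      exact lt_of_lt_of_le hq.irreducible.natDegree_pos h4
    have hpr : φ.IsPrimitive := hp.irreducible.isPrimitive hd.ne'
    have hirr := (hpr.irreducible_iff_irreducible_map_fraction_map (K := F)).1 hp.irreducible
    have h5 := (hq.irreducible.associated_of_dvd hirr h3).symm.dvd.trans h2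
    exact h φ hp hd (hu ▸ (Multiset.dvd_prod hφ).mul_right _)
      ((hpr.dvd_iff_fraction_map_dvd_fraction_map F).2 h5)
  have h1 := resultant_ne_zero _ _ hco
  rw [natDegree_map_eq_of_injective inj, natDegree_map_eq_of_injective inj, resultant_map_map,
    map_ne_zero_iff _ inj] at h1
  obtain ⟨k, rfl⟩ := Nat.exists_eq_add_of_le hn
  rw [resultant_add_right_deg _ _ _ _ _ le_rfl]
  exact mul_ne_zero (pow_ne_zero _ (leadingCoeff_ne_zero.2 hf)) h1

/-- Lemma Z (b) and the non-vanishing in (c). -/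
theorem cop_partner (f : A[X]) (h0 : f.coeff 0 ≠ 0) (ν : ℕ)
    (h : ∀ φ : A[X], Prime φ → 0 < φ.natDegree → ¬φ ^ (ν + 1) ∣ f) :
    ∃ c : ℕ → ℕ, (∀ j, c j ≤ f.natDegree) ∧ ∀ n, f.natDegree ≤ n →
      resultant f (∑ j ∈ range (ν + 1), (c j : A[X]) * (X ^ j * hasseDeriv j f))
        f.natDegree n ≠ 0 := by
  classical
  have hf : f ≠ 0 := fun e => h0 (by simp [e])
  obtain ⟨s, hs, u, hu⟩ := UniqueFactorizationMonoid.exists_prime_factors f hf
  set S := (s.filter fun φ => 0 < φ.natDegree).toFinset with hS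
  have hmem : ∀ φ, φ ∈ S ↔ φ ∈ s ∧ 0 < φ.natDegree := fun φ => by simp [hS]
  have hcard : S.card ≤ f.natDegree := by
    have h1 : f.natDegree = (s.map natDegree).sum := by
      rw [← hu, natDegree_mul (Multiset.prod_ne_zero fun e => (hs 0 e).ne_zero rfl) u.ne_zero,
        natDegree_eq_zero_of_isUnit u.isUnit, add_zero,
        natDegree_multiset_prod _ fun e => (hs 0 e).ne_zero rfl]
    refine (Multiset.toFinset_card_le _).trans ?_
    rw [h1, ← Multiset.filter_add_not (fun φ : A[X] => 0 < φ.natDegree) s, Multiset.map_add,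
      Multiset.sum_add, Multiset.filter_add_not]
    refine le_trans ?_ (Nat.le_add_right _ _)
    have := Multiset.card_nsmul_le_sum (s := (s.filter fun φ => 0 < φ.natDegree).map natDegree)
      (a := 1) fun x hx => by
        obtain ⟨φ, hφ, rfl⟩ := Multiset.mem_map.1 hx
        exact (Multiset.mem_filter.1 hφ).2
    simpa only [ge_iff_le, Multiset.card_map, smul_eq_mul, mul_one] using this
  obtain ⟨c, hc, H⟩ := cop_grid S (fun φ hφ => ⟨hs φ ((hmem φ).1 hφ).1, ((hmem φ).1 hφ).2⟩)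
    (fun j => X ^ j * hasseDeriv j f) (ν + 1)
  refine ⟨c, fun j => (hc j).trans hcard, fun n hn => cop_res f _ hf (fun φ hφ hd h1 h2 => ?_) n ?_⟩
  · rw [← hu] at h1
    obtain ⟨ψ, hψ, h3⟩ := hφ.exists_mem_multiset_dvd (u.isUnit.dvd_mul_right.1 h1)
    have hp := hs ψ hψ
    have hass := hφ.associated_of_dvd hp h3
    have hd' : 0 < ψ.natDegree := lt_of_lt_of_le hd (natDegree_le_of_dvd h3 hp.ne_zero)
    refine H ψ ((hmem ψ).2 ⟨hψ, hd'⟩) ?_ (hass.symm.dvd.trans h2)
    by_contra hn'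
    push Not at hn'
    refine h ψ hp hd' (cop_pow ψ hp hd' ν f fun j hj => ?_)
    rcases hp.dvd_or_dvd (hn' j (by omega)) with h4 | h4
    · have h5 := (hp.associated_of_dvd prime_X (hp.dvd_of_dvd_pow h4)).symm.dvd
      exact absurd (X_dvd_iff.1 (h5.trans (hu ▸ (Multiset.dvd_prod hψ).mul_right _))) h0
    · rw [← factorial_smul_hasseDeriv, LinearMap.smul_apply, nsmul_eq_mul]
      exact h4.mul_left _
  · refine natDegree_sum_le_of_forall_le _ _ fun j _ => le_trans ?_ hn
    rw [natDegree_le_iff_coeff_eq_zero]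
    intro N hN
    rw [← C_eq_natCast, coeff_C_mul, coeff_X_pow_mul']
    split_ifs with h1
    · rw [hasseDeriv_coeff, Nat.sub_add_cancel h1, coeff_eq_zero_of_natDegree_lt hN]
      simp
    · simp

end

theorem cop {F : Type*} [Field F] [CharZero F] (f : Polynomial F) (h0 : f.coeff 0 ≠ 0)
    (lam ν : ℕ) (hd : f.natDegree ≤ lam)
    (hm : ∀ φ : Polynomial F, Irreducible φ → ¬φ ^ (ν + 1) ∣ f) :
    ∃ c : ℕ → ℕ, (∀ j, c j ≤ lam) ∧ Polynomial.resultant f (gg c ν f) f.natDegree lam ≠ 0 := by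
  obtain ⟨c, h1, h2⟩ := cop_partner f h0 ν fun φ hφ _ => hm φ hφ.irreducible
  refine ⟨c, fun j => (h1 j).trans hd, ?_⟩
  have e : gg c ν f = ∑ j ∈ range (ν + 1), (c j : Polynomial F) *
      (Polynomial.X ^ j * Polynomial.hasseDeriv j f) :=
    Finset.sum_congr rfl fun j _ => by rw [map_natCast Polynomial.C]
  rw [e]
  exact h2 lam hd
-- END Cop

-- BEGIN Mult
theorem mult_gauss {A F : Type*} [CommRing A] [IsDomain A] [UniqueFactorizationMonoid A] [Field F]
    [Algebra A F] [IsFractionRing A F] {φ : Polynomial F} (hφ : Irreducible φ) {f : Polynomial A}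
    {r : ℕ} (h : φ ^ r ∣ f.map (algebraMap A F)) :
    ∃ ψ : Polynomial A, 0 < ψ.natDegree ∧ ψ ^ r ∣ f := by
  obtain ⟨inst⟩ : Nonempty (NormalizedGCDMonoid A) := inferInstance
  obtain ⟨b, hb, e⟩ := IsLocalization.integerNormalization_spec (nonZeroDivisors A) φ
  generalize IsLocalization.integerNormalization (nonZeroDivisors A) φ = q at e
  have hi := IsFractionRing.injective A F
  have hb' : algebraMap A F b ≠ 0 := (map_ne_zero_iff _ hi).2 (nonZeroDivisors.ne_zero hb)
  rw [← algebraMap_smul F, Polynomial.smul_eq_C_mul] at e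
  refine ⟨q.primPart, ?_, ?_⟩
  · rw [Polynomial.natDegree_primPart, ← Polynomial.natDegree_map_eq_of_injective hi, e,
      Polynomial.natDegree_C_mul hb']
    exact hφ.natDegree_pos
  · have hp : (q.primPart ^ r).IsPrimitive := by
      clear h
      induction r with
      | zero => rw [pow_zero]; exact Polynomial.isPrimitive_one
      | succ r ih => rw [pow_succ]; exact ih.mul q.isPrimitive_primPart
    refine hp.dvd_of_fraction_map_dvd_fraction_map (K := F) (dvd_trans ?_ h)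
    rw [Polynomial.map_pow]
    refine pow_dvd_pow_of_dvd ?_ r
    have h1 := Polynomial.map_dvd (algebraMap A F) q.primPart_dvd
    rw [e] at h1
    exact (Polynomial.isUnit_C.2 hb'.isUnit).dvd_mul_left.1 h1

theorem mult {k : ℕ} {ω : Fin (k + 2) → ℝ} {A wd lo : ℝ} {lam ν : ℕ}
    {P : MvPolynomial (Fin (k + 2)) ℤ}
    (h0 : (MvPolynomial.finSuccEquiv ℤ (k + 1) P).coeff 0 ≠ 0)
    (hdeg : ∀ d ∈ P.support, ∀ j, j ≠ Fin.last (k + 1) → d j ≤ lam)
    (hsl : ∀ d ∈ P.support, lo ≤ wt ω d ∧ wt ω d ≤ lo + wd * lam) (hwd : 0 ≤ wd)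
    (hD : Dis (k + 1) ω A wd) (hA : (lam : ℝ) ≤ A * (ν + 1))
    (φ : Polynomial (FractionRing (MvPolynomial (Fin (k + 1)) ℤ))) (hφ : Irreducible φ) :
    ¬φ ^ (ν + 1) ∣ (MvPolynomial.finSuccEquiv ℤ (k + 1) P).map (algebraMap _ _) := by
  intro h
  obtain ⟨ψ, hψ, g, e⟩ := mult_gauss hφ h
  obtain ⟨Φ, rfl⟩ := (MvPolynomial.finSuccEquiv ℤ (k + 1)).surjective ψ
  obtain ⟨G, rfl⟩ := (MvPolynomial.finSuccEquiv ℤ (k + 1)).surjective g
  have e0 := h0
  rw [e, Polynomial.mul_coeff_zero, Polynomial.coeff_zero_eq_eval_zero, Polynomial.eval_pow,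
    ← Polynomial.coeff_zero_eq_eval_zero] at e0
  have hΦ0 := ne_zero_pow (Nat.succ_ne_zero ν) (left_ne_zero_of_mul e0)
  have hG : G ≠ 0 := fun hG => right_ne_zero_of_mul e0 (by simp [hG])
  have hΦ : Φ ≠ 0 := fun hG => hΦ0 (by simp [hG])
  rw [← map_pow, ← map_mul, (MvPolynomial.finSuccEquiv ℤ (k + 1)).injective.eq_iff] at e
  subst e
  obtain ⟨a, ha⟩ := MvPolynomial.support_nonempty.2 hΦ0
  obtain ⟨a', ha'⟩ := MvPolynomial.support_nonempty.2 (Polynomial.leadingCoeff_ne_zero.2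
    (Polynomial.ne_zero_of_natDegree_gt hψ))
  rw [Polynomial.leadingCoeff] at ha'
  rw [MvPolynomial.mem_support_coeff_finSuccEquiv] at ha ha'
  have hν : (0 : ℝ) < ν + 1 := by positivity
  have h1 := ost_width ω hΦ hG (ν + 1) hsl _ ha' _ ha
  have h2 := hD (fun j => (a'.cons (MvPolynomial.finSuccEquiv ℤ (k + 1) Φ).natDegree j : ℤ) -
      (a.cons 0 j : ℤ)) ⟨0, (Fin.last_pos.ne), by simp; omega⟩ fun j hj => by
    have e1 : ∀ d : Fin (k + 2) →₀ ℕ, wt (Pi.single j 1) d = d j := fun d => by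
      simp [wt, Pi.single_apply]
    have h3 := ost_width (Pi.single j 1) hΦ hG (ν + 1) (lo := 0) (w := lam) (fun d hd => by
      rw [e1, zero_add]
      exact ⟨Nat.cast_nonneg _, by exact_mod_cast hdeg d hd j hj⟩) _ ha' _ ha
    rw [e1, e1] at h3
    push_cast at h3 ⊢
    exact le_of_mul_le_mul_left (by linarith only [hA, h3]) hν
  simp only [Int.cast_sub, Int.cast_natCast, sub_mul, Finset.sum_sub_distrib] at h2
  simp only [wt] at h1
  push_cast at h1
  have h3 := mul_lt_mul_of_pos_left h2 hν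
  have h4 := mul_le_mul_of_nonneg_left hA hwd
  linarith only [h1, h3, h4]
-- END Mult

section
variable {K : Type*} [Field K] [CharZero K]

-- BEGIN Strip
theorem strip_one {k : ℕ} {pt : Fin (k + 2) → K} {ω : Fin (k + 2) → ℝ} {m lam μ : ℕ} {γ wd : ℝ}
    {P : MvPolynomial (Fin (k + 2)) ℤ}
    (h : St (k + 1) pt ω m lam μ γ wd (MvPolynomial.X 0 * P)) (hp : pt 0 ≠ 0) :
    St (k + 1) pt ω m lam μ γ wd P := by
  have hs : ∀ d ∈ P.support, Finsupp.single 0 1 + d ∈ (MvPolynomial.X 0 * P).support :=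
    fun d hd => by rwa [MvPolynomial.mem_support_iff, MvPolynomial.coeff_X_mul,
      ← MvPolynomial.mem_support_iff]
  refine ⟨right_ne_zero_of_mul h.ne, fun d hd j hj => le_trans ?_ (h.deg _ (hs d hd) j hj), ?_,
    le_trans (le_of_eq ?_) h.nrm, fun b hb => ?_⟩
  · simp
  · obtain ⟨lo, h1⟩ := h.slab
    refine ⟨lo - wt ω (Finsupp.single 0 1), fun d hd => ?_⟩
    have h2 := h1 _ (hs d hd)
    rw [wt_add] at h2
    constructor <;> linarith [h2.1, h2.2]
  · simp only [nm, MvPolynomial.support_X_mul, Finset.sum_map, addLeftEmbedding_apply,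
      MvPolynomial.coeff_X_mul]
  · have h0 : (0 : Fin (k + 2) →₀ ℕ) ∈
        (MvPolynomial.X 0 + MvPolynomial.C (pt 0) : MvPolynomial (Fin (k + 2)) K).support := by
      simpa only [MvPolynomial.mem_support_iff, MvPolynomial.coeff_add, MvPolynomial.coeff_zero_X, MvPolynomial.coeff_C, ↓ reduceIte, zero_add, ne_eq] using hp
    obtain ⟨d, hd, h1⟩ := ost (ow (k + 1) m) (MvPolynomial.support_nonempty.mp ⟨_, h0⟩)
      (MvPolynomial.support_nonempty.mp ⟨_, hb⟩) 1
    have h2 := h1 _ h0 _ hb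
    have h3 := h.ord d (by simpa [tr] using hd)
    have h4 : wt (ow (k + 1) m) 0 = 0 := by simp [wt]
    rw [h4] at h2
    linarith

theorem strip {k : ℕ} {pt : Fin (k + 2) → K} {ω : Fin (k + 2) → ℝ} {m lam μ : ℕ} {γ wd : ℝ}
    {P : MvPolynomial (Fin (k + 2)) ℤ} (h : St (k + 1) pt ω m lam μ γ wd P) (hp : pt 0 ≠ 0) :
    ∃ P', St (k + 1) pt ω m lam μ γ wd P' ∧
      (MvPolynomial.finSuccEquiv ℤ (k + 1) P').coeff 0 ≠ 0 := by
  induction hn : (MvPolynomial.finSuccEquiv ℤ (k + 1) P).natDegree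
    using Nat.strong_induction_on generalizing P with
  | _ n ih =>
    by_cases h0 : (MvPolynomial.finSuccEquiv ℤ (k + 1) P).coeff 0 = 0
    · obtain ⟨q, hq⟩ := Polynomial.X_dvd_iff.mpr h0
      obtain ⟨Q, rfl⟩ := (MvPolynomial.finSuccEquiv ℤ (k + 1)).surjective q
      have h1 : P = MvPolynomial.X 0 * Q := (MvPolynomial.finSuccEquiv ℤ (k + 1)).injective (by
        rw [hq, map_mul, MvPolynomial.finSuccEquiv_X_zero])
      have h2 := strip_one (h1 ▸ h) hp
      refine ih _ ?_ h2 rfl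
      rw [← hn, hq, Polynomial.natDegree_X_mul (by simpa using h2.ne)]
      exact Nat.lt_succ_self _
    · exact ⟨P, h, h0⟩

theorem last {pt : Fin 1 → K} {ω : Fin 1 → ℝ} {m lam μ : ℕ} {γ wd ε : ℝ}
    {P : MvPolynomial (Fin 1) ℤ} (h : St 0 pt ω m lam μ γ wd P) (hm : 1 ≤ m) (hμ : 1 ≤ μ)
    (hγ : 0 ≤ γ) (hε : 0 < ε) (hl : ε * lam ≤ μ) : Out (pt 0) (γ / ε * m) := by
  have hR : MvPolynomial.uniqueAlgEquiv ℤ (Fin 1) P ≠ 0 := (map_ne_zero_iff _
    (MvPolynomial.uniqueAlgEquiv ℤ (Fin 1)).injective).mpr h.ne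
  have h1 : μ ≤ m * ((μ - 1) / m + 1) := by
    have := Nat.lt_mul_div_succ (μ - 1) hm
    omega
  refine ⟨_, hR, (μ - 1) / m + 1, Nat.le_add_left _ _, ?_, ?_⟩
  · have h2 : ((MvPolynomial.uniqueAlgEquiv ℤ (Fin 1) P).map (Int.castRingHom K)).comp
        (Polynomial.X + Polynomial.C (pt 0)) = MvPolynomial.uniqueAlgEquiv K (Fin 1) (tr pt P) := by
      clear h hR
      induction P using MvPolynomial.induction_on with
      | C a => simp [tr]
      | add p q hp hq => simp only [map_add, Polynomial.map_add, Polynomial.add_comp, hp, hq]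
      | mul_X p j hp =>
        simp only [map_mul, Polynomial.map_mul, Polynomial.mul_comp, hp]
        simp [tr, Subsingleton.elim j 0]
    rw [Polynomial.X_sub_C_pow_dvd_iff, h2, Polynomial.X_pow_dvd_iff]
    intro i hi
    rw [MvPolynomial.coeff_uniqueAlgEquiv]
    by_contra h3
    have h4 := h.ord _ (MvPolynomial.mem_support_iff.mpr h3)
    have h5 : μ ≤ i * m := by
      simp only [wt, ow, Fin.sum_univ_succ, Fin.sum_univ_zero, add_zero] at h4
      simp only [Nat.reduceAdd, Fin.default_eq_zero, Fin.isValue, Finsupp.single_eq_same, Fin.last_zero, ↓ reduceIte] at h4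
      exact_mod_cast h4
    have h6 := Nat.div_mul_le_self (μ - 1) m
    have h7 := Nat.mul_le_mul_right m (Nat.lt_succ_iff.mp hi)
    omega
  · have h2 := Polynomial.leadingCoeff_ne_zero.mpr hR
    rw [Polynomial.leadingCoeff, MvPolynomial.coeff_uniqueAlgEquiv] at h2 ⊢
    refine (Finset.single_le_sum (f := fun d => |((P.coeff d : ℤ) : ℝ)|)
      (fun _ _ => abs_nonneg _) (MvPolynomial.mem_support_iff.mpr h2)).trans (h.nrm.trans ?_)
    have h3 : (μ : ℝ) ≤ m * (((μ - 1) / m + 1 : ℕ) : ℝ) := by exact_mod_cast h1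
    rw [Real.exp_le_exp, mul_assoc, div_mul_eq_mul_div, mul_div_assoc]
    refine mul_le_mul_of_nonneg_left ?_ hγ
    rw [le_div_iff₀ hε]
    linarith only [hl, h3]
-- END Strip

-- BEGIN Step
theorem step_gg {n : ℕ} {R : Type*} [CommRing R] {ω : Fin n → ℝ} {ω0 a : ℝ} (c : ℕ → ℕ) (ν : ℕ)
    {f : Polynomial (MvPolynomial (Fin n) R)} (hf : LoP ω ω0 a f) : LoP ω ω0 a (gg c ν f) := by
  intro i
  rw [gg_coeff, ← map_natCast (MvPolynomial.C : R →+* MvPolynomial (Fin n) R)]
  exact ((Lo.const ω _).mul (hf i)).mono (by simp)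

theorem step_iso {n : ℕ} {ω : Fin (n + 1) → ℝ} {a : ℝ} {P : MvPolynomial (Fin (n + 1)) ℤ}
    (h : Lo ω a P) (c : ℕ → ℕ) (ν p q : ℕ) :
    Lo (Fin.tail ω) (q * a + p * a - p * q * ω 0)
      (Polynomial.resultant (MvPolynomial.finSuccEquiv ℤ n P)
        (gg c ν (MvPolynomial.finSuccEquiv ℤ n P)) p q) :=
  res_iso ((Lo_fin ω a P).1 h) (step_gg c ν ((Lo_fin ω a P).1 h)) p q

theorem step_sum {c : ℕ → ℕ} {lam : ℕ} (hc : ∀ j, c j ≤ lam) (ν i : ℕ) (hi : i ≤ lam) :
    ∑ j ∈ range (ν + 1), c j * i.choose j ≤ lam * 2 ^ lam := by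
  calc ∑ j ∈ range (ν + 1), c j * i.choose j ≤ ∑ j ∈ range (ν + 1), lam * i.choose j :=
        sum_le_sum fun j _ => Nat.mul_le_mul_right _ (hc j)
    _ = lam * ∑ j ∈ range (ν + 1), i.choose j := (mul_sum _ _ _).symm
    _ ≤ lam * ∑ j ∈ range (i + 1), i.choose j := by
        refine Nat.mul_le_mul_left _ (sum_le_sum_of_ne_zero fun j _ hj => ?_)
        rw [mem_range, Nat.lt_succ_iff]
        by_contra hlt
        exact hj (Nat.choose_eq_zero_of_lt (not_le.1 hlt))
    _ = lam * 2 ^ i := by rw [Nat.sum_range_choose]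
    _ ≤ lam * 2 ^ lam := Nat.mul_le_mul_left _ (Nat.pow_le_pow_right (by norm_num) hi)

theorem step_num {lam N : ℕ} {γ : ℝ} (hγ : 0 ≤ γ) (h1 : 1 ≤ lam) (hN : N ≤ 2 * lam) :
    (N.factorial : ℝ) * ((lam * 2 ^ lam : ℕ) * Real.exp (γ * lam)) ^ N ≤
      Real.exp ((γ + 4) * (2 * lam ^ 2 : ℕ)) := by
  have hl : (1 : ℝ) ≤ lam := by exact_mod_cast h1
  have e1 : (lam : ℝ) ≤ Real.exp lam := by linarith only [Real.add_one_le_exp (lam : ℝ)]
  have e2 : (2 : ℝ) ≤ Real.exp lam := by linarith only [Real.add_one_le_exp (lam : ℝ), hl]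
  have e3 : (2 : ℝ) ^ lam ≤ Real.exp lam := by
    have : (2 : ℝ) ≤ Real.exp 1 := by linarith only [Real.add_one_le_exp (1 : ℝ)]
    calc (2 : ℝ) ^ lam ≤ Real.exp 1 ^ lam := pow_le_pow_left₀ (by norm_num) this _
      _ = Real.exp lam := by rw [← Real.exp_nat_mul, mul_one]
  have hN' : (N : ℝ) ≤ 2 * lam := by exact_mod_cast hN
  have e4 : (N.factorial : ℝ) ≤ (2 * lam) ^ N := by
    have : (N.factorial : ℝ) ≤ (N : ℝ) ^ N := by exact_mod_cast Nat.factorial_le_pow N
    exact this.trans (pow_le_pow_left₀ (Nat.cast_nonneg _) hN' _)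
  have e5 : (2 * lam : ℝ) * ((lam * 2 ^ lam : ℕ) * Real.exp (γ * lam)) ≤
      Real.exp ((γ + 4) * lam) := by
    have : Real.exp ((γ + 4) * lam) = (Real.exp lam * Real.exp lam) *
        ((Real.exp lam * Real.exp lam) * Real.exp (γ * lam)) := by
      simp only [← Real.exp_add]; congr 1; ring
    rw [this]
    push_cast
    gcongr
  have e6 : 1 ≤ Real.exp ((γ + 4) * lam) := Real.one_le_exp (by positivity)
  calc (N.factorial : ℝ) * ((lam * 2 ^ lam : ℕ) * Real.exp (γ * lam)) ^ N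
      ≤ (2 * lam) ^ N * ((lam * 2 ^ lam : ℕ) * Real.exp (γ * lam)) ^ N := by gcongr
    _ = ((2 * lam : ℝ) * ((lam * 2 ^ lam : ℕ) * Real.exp (γ * lam))) ^ N := (mul_pow _ _ _).symm
    _ ≤ Real.exp ((γ + 4) * lam) ^ N := pow_le_pow_left₀ (by positivity) e5 _
    _ ≤ Real.exp ((γ + 4) * lam) ^ (2 * lam) := pow_le_pow_right₀ e6 hN
    _ = _ := by rw [← Real.exp_nat_mul]; congr 1; push_cast; ring

theorem step {k : ℕ} {pt : Fin (k + 2) → K} {ω : Fin (k + 2) → ℝ} {m lam μ : ℕ} {γ wd A : ℝ}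
    {P : MvPolynomial (Fin (k + 2)) ℤ} (h : St (k + 1) pt ω m lam μ γ wd P) (hp : pt 0 ≠ 0)
    (hwd : 0 ≤ wd) (hγ : 0 ≤ γ) (hD : Dis (k + 1) ω A wd) (h1 : 1 ≤ lam) (hμ : μ ≤ lam)
    (hA : (lam : ℝ) ≤ A * ((μ / 2 : ℕ) + 1)) :
    ∃ P', St k (Fin.tail pt) (Fin.tail ω) m (2 * lam ^ 2) ((μ / 2) ^ 2) (γ + 4) wd P' := by
  obtain ⟨Q, hQ, h0⟩ := strip h hp
  obtain ⟨lo, hlo⟩ := hQ.slab
  have hz : (0 : Fin (k + 2)) ≠ Fin.last (k + 1) := by simp [Fin.ext_iff]
  have hm := mult h0 hQ.deg hlo hwd hD hA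
  have hco := nm_coeff Q
  have hiso := fun (w : Fin (k + 2) → ℝ) (a : ℝ) (hw : Lo w a Q) => step_iso hw
  have hor := (Lo_fin _ _ _).1 hQ.ord
  rw [tr_fin] at hor
  have ha : (MvPolynomial.finSuccEquiv ℤ (k + 1) Q).natDegree ≤ lam := by
    rw [MvPolynomial.natDegree_finSuccEquiv, MvPolynomial.degreeOf_le_iff]
    exact fun d hd => hQ.deg d hd 0 hz
  generalize MvPolynomial.finSuccEquiv ℤ (k + 1) Q = f at h0 hm hco hiso hor ha
  have hν : 2 * (μ / 2) ≤ μ := Nat.mul_div_le μ 2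
  generalize μ / 2 = ν at hm hν ⊢
  have hinj : Function.Injective (algebraMap (MvPolynomial (Fin (k + 1)) ℤ)
      (FractionRing (MvPolynomial (Fin (k + 1)) ℤ))) := IsFractionRing.injective _ _
  have : CharZero (FractionRing (MvPolynomial (Fin (k + 1)) ℤ)) :=
    charZero_of_injective_algebraMap hinj
  obtain ⟨c, hc, hres⟩ := cop (f.map (algebraMap _ (FractionRing (MvPolynomial (Fin (k + 1)) ℤ))))
    (by rw [Polynomial.coeff_map]; exact fun e => h0 (hinj (by rw [e, map_zero]))) lam ν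
    (Polynomial.natDegree_map_le.trans ha) hm
  rw [← gg_map, Polynomial.natDegree_map_eq_of_injective hinj, Polynomial.resultant_map_map] at hres
  have hal : (f.natDegree : ℝ) ≤ lam := by exact_mod_cast ha
  have hl0 : (0 : ℝ) ≤ lam := Nat.cast_nonneg _
  refine ⟨Polynomial.resultant f (gg c ν f) f.natDegree lam, fun e => hres (by rw [e, map_zero]),
    fun d hd j hj => ?_, ?_, ?_, ?_⟩
  · have hw : ∀ (r : ℕ) (i : Fin r) (d : Fin r →₀ ℕ),
        wt (fun i' => if i' = i then (-1 : ℝ) else 0) d = -(d i : ℝ) := by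
      intro r i d
      simp only [wt, mul_ite, mul_neg, mul_one, mul_zero, sum_ite_eq', mem_univ, ↓ reduceIte]
    have h2 := hiso (fun i' => if i' = j.succ then (-1 : ℝ) else 0) (-lam) (fun d hd => by
      rw [hw]
      have := hQ.deg d hd j.succ (by rw [← Fin.succ_last]; exact fun e => hj (Fin.succ_injective _ e))
      exact neg_le_neg (by exact_mod_cast this)) c ν f.natDegree lam d hd
    have h3 : (Fin.tail fun i' : Fin (k + 2) => if i' = j.succ then (-1 : ℝ) else 0) =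
        fun i' => if i' = j then (-1 : ℝ) else 0 := by
      funext i'
      simp [Fin.tail]
    rw [h3, hw, if_neg (Fin.succ_ne_zero j).symm] at h2
    have : (d j : ℝ) ≤ 2 * (lam : ℝ) ^ 2 := by nlinarith only [hal, h2]
    exact_mod_cast this
  · refine ⟨lam * lo + f.natDegree * lo - f.natDegree * lam * ω 0, fun d hd =>
      ⟨hiso ω lo (fun d hd => (hlo d hd).1) c ν f.natDegree lam d hd, ?_⟩⟩
    have hw : ∀ (r : ℕ) (w : Fin r → ℝ) (d : Fin r →₀ ℕ), wt (fun i => -w i) d = -wt w d := by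
      intro r w d
      simp only [wt, mul_neg, sum_neg_distrib]
    have h2 := hiso (fun i => -ω i) (-(lo + wd * lam)) (fun d hd => by
      rw [hw]; exact neg_le_neg (hlo d hd).2) c ν f.natDegree lam d hd
    have h3 : (Fin.tail fun i => -ω i) = fun i => -Fin.tail ω i := rfl
    rw [h3, hw] at h2
    have h4 : f.natDegree * (wd * lam) ≤ lam * (wd * lam) :=
      mul_le_mul_of_nonneg_right hal (mul_nonneg hwd hl0)
    push_cast
    linarith only [h2, h4]
  · have hB : (1 : ℝ) ≤ (lam * 2 ^ lam : ℕ) := by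
      exact_mod_cast Nat.mul_pos h1 (Nat.two_pow_pos lam)
    refine (nm_res (B := (lam * 2 ^ lam : ℕ) * Real.exp (γ * lam)) (fun i => ?_) (fun i => ?_)
      _ _).trans (step_num hγ h1 (by omega))
    · exact ((hco i).trans hQ.nrm).trans (le_mul_of_one_le_left (Real.exp_pos _).le hB)
    · rw [gg_coeff]
      refine (nm_natCast_mul _ _).trans ?_
      rcases le_or_gt i lam with hi | hi
      · exact mul_le_mul (by exact_mod_cast step_sum hc ν i hi) ((hco i).trans hQ.nrm)
          (nm_nonneg _) (Nat.cast_nonneg _)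
      · rw [Polynomial.coeff_eq_zero_of_natDegree_lt (ha.trans_lt hi)]
        simp only [nm, MvPolynomial.support_zero, sum_empty, mul_zero]
        positivity
  · have h2 : Fin.tail (ow (k + 1) m) = ow k m := by
      funext i
      simp only [Fin.tail, ow, ← Fin.succ_last, Fin.succ_inj]
    have h3 : ow (k + 1) m 0 = 1 := if_neg hz
    rw [h2, h3] at hor
    have hν' : 2 * (ν : ℝ) ≤ μ := by exact_mod_cast hν
    have hν0 : (0 : ℝ) ≤ ν := Nat.cast_nonneg _
    have h4 := res_ord (ω := ow k m) (ν := ν) (fun j => by unfold ow; split_ifs <;> positivity)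
      (fun i => (hor i).mono (by linarith only [hν']))
      (fun i => (gg_ord c ν (pt 0) hor i).mono (by linarith only [hν'])) f.natDegree lam (by omega)
    rw [res_taylor _ _ _ _ _ Polynomial.natDegree_map_le
      ((gg_natDegree _ _ _).trans (Polynomial.natDegree_map_le.trans ha)), ← gg_map,
      Polynomial.resultant_map_map] at h4
    exact h4.mono (by push_cast; exact le_rfl)
-- END Step

-- BEGIN Zed
theorem zed_dis {k : ℕ} {ω : Fin (k + 2) → ℝ} {A A' wd : ℝ} (h : Dis (k + 1) ω A wd)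
    (hA : A' ≤ A) (hA0 : 0 ≤ A) (hwd : 0 ≤ wd) : Dis k (Fin.tail ω) A' wd := by
  intro t ht hb
  obtain ⟨j, hj, htj⟩ := ht
  have key := h (Fin.cons 0 t) ⟨j.succ, ?_, by simpa using htj⟩ ?_
  · rw [Fin.sum_univ_succ] at key
    simp only [Fin.cons_zero, Fin.cons_succ, Int.cast_zero, zero_mul, zero_add] at key
    exact lt_of_le_of_lt (mul_le_mul_of_nonneg_right hA hwd) key
  · rw [← Fin.succ_last]
    exact fun e => hj (Fin.succ_injective _ e)
  · intro i
    refine Fin.cases (fun _ => by simpa only [Fin.cons_zero, Int.cast_zero, abs_zero] using hA0) (fun i hi => ?_) i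
    have hi' : i ≠ Fin.last k := fun e => hi (by rw [e, Fin.succ_last])
    simpa using (hb i hi').trans hA

theorem zed (k : ℕ) (ε γ : ℝ) (hε : 0 < ε) (hγ : 0 ≤ γ) : ∃ A : ℕ, ∃ C : ℝ, 1 ≤ A ∧ 0 ≤ C ∧
    ∀ (pt : Fin (k + 1) → K) (ω : Fin (k + 1) → ℝ) (m lam μ : ℕ) (wd : ℝ)
      (P : MvPolynomial (Fin (k + 1)) ℤ), St k pt ω m lam μ γ wd P →
      (∀ j, j ≠ Fin.last k → pt j ≠ 0) → 0 ≤ wd → Dis k ω A wd → 1 ≤ m → 6 ≤ μ → μ ≤ lam →
      ε * lam ≤ μ → Out (pt (Fin.last k)) (C * m) := by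
  induction k generalizing ε γ with
  | zero =>
    refine ⟨1, γ / ε, le_rfl, by positivity, ?_⟩
    intro pt ω m lam μ wd P h _ _ _ hm h6 _ hl
    exact last h hm (by omega) hγ hε hl
  | succ k ih =>
    obtain ⟨A', C, hA', hC, ih⟩ := ih (ε ^ 2 / 18) (γ + 4) (by positivity) (by positivity)
    refine ⟨max A' ⌈2 / ε⌉₊, C, le_max_of_le_left hA', hC, ?_⟩
    intro pt ω m lam μ wd P h hp hwd hD hm h6 hμ hl
    have hν : (μ : ℝ) ≤ 2 * (((μ / 2 : ℕ) : ℝ) + 1) := by
      have : μ ≤ 2 * (μ / 2 + 1) := by omega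
      exact_mod_cast this
    have hν3 : (μ : ℝ) ≤ 3 * ((μ / 2 : ℕ) : ℝ) := by
      have : μ ≤ 3 * (μ / 2) := by omega
      exact_mod_cast this
    have hA2 : 2 / ε ≤ ((max A' ⌈2 / ε⌉₊ : ℕ) : ℝ) :=
      (Nat.le_ceil _).trans (by exact_mod_cast le_max_right _ _)
    have hA : (lam : ℝ) ≤ ((max A' ⌈2 / ε⌉₊ : ℕ) : ℝ) * (((μ / 2 : ℕ) : ℝ) + 1) := by
      have h1 : (lam : ℝ) ≤ 2 / ε * (((μ / 2 : ℕ) : ℝ) + 1) := by
        rw [div_mul_eq_mul_div, le_div_iff₀ hε]
        linarith only [hl, hν]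
      exact h1.trans (mul_le_mul_of_nonneg_right hA2 (by positivity))
    have h0 : (0 : Fin (k + 2)) ≠ Fin.last (k + 1) := by
      rw [← Fin.succ_last]
      exact (Fin.succ_ne_zero _).symm
    obtain ⟨P', hP'⟩ := step h (hp 0 h0) hwd hγ hD (by omega) hμ hA
    have h3 : 3 ≤ μ / 2 := by omega
    have hle : μ / 2 ≤ lam := by omega
    have res := ih (Fin.tail pt) (Fin.tail ω) m (2 * lam ^ 2) ((μ / 2) ^ 2) wd P' hP'
      (fun j hj => hp j.succ (by
        rw [← Fin.succ_last]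
        exact fun e => hj (Fin.succ_injective _ e)))
      hwd (zed_dis hD (by exact_mod_cast le_max_left _ _) (by positivity) hwd) hm
      (by nlinarith only [h3]) (by nlinarith only [h3, hle]) (by
        push_cast
        have h1 : ε * lam ≤ 3 * ((μ / 2 : ℕ) : ℝ) := hl.trans hν3
        have h2 : 0 ≤ ε * lam := by positivity
        have h4 := mul_self_le_mul_self h2 h1
        linarith only [h4])
    simpa [Fin.tail, Fin.succ_last] using res
-- END Zed

end

end Pool.Agent.MP_2a5a28_nt.H63
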